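import Mathlib

set_option autoImplicit false

/-!
# Components of multigraphs, adding one edge
-/

namespace Pool.Agent.R29.Comp

open Finset

variable {V E : Type}

/-- The simple graph on `V` in which two different vertices are adjacent if some edge of `A` joins
them. -/
def under (ends : E → V × V) (A : Finset E) : SimpleGraph V :=
  SimpleGraph.fromRel fun u v => ∃ e ∈ A, ends e = (u, v)

/-- The number of the connected components of the spanning subgraph `(V, A)`. -/
noncomputable def comps (ends : E → V × V) (A : Finset E) : ℕ :=
  Nat.card (under ends A).ConnectedComponent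

theorem under_adj (ends : E → V × V) (A : Finset E) (u v : V) :
    (under ends A).Adj u v ↔ u ≠ v ∧ ∃ e ∈ A, ends e = (u, v) ∨ ends e = (v, u) := by
  unfold under
  rw [SimpleGraph.fromRel_adj]
  constructor
  · rintro ⟨h, ⟨e, he, h1⟩ | ⟨e, he, h1⟩⟩
    · exact ⟨h, e, he, Or.inl h1⟩
    · exact ⟨h, e, he, Or.inr h1⟩
  · rintro ⟨h, e, he, h1 | h1⟩
    · exact ⟨h, Or.inl ⟨e, he, h1⟩⟩
    · exact ⟨h, Or.inr ⟨e, he, h1⟩⟩

/-- `f` labels the components of `(V, A)`. -/
def Labels {α : Type} (ends : E → V × V) (A : Finset E) (f : V → α) : Prop :=
  ∀ u v, f u = f v ↔ (under ends A).Reachable u v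

theorem comps_eq {α : Type} {ends : E → V × V} {A : Finset E}
    {f : V → α} (h : Labels ends A f) : comps ends A = Nat.card (Set.range f) := by
  unfold comps
  have hl : ∀ (v w : V) (p : (under ends A).Walk v w), p.IsPath → f v = f w :=
    fun v w p _ => (h v w).mpr ⟨p⟩
  let g : (under ends A).ConnectedComponent → Set.range f := fun c =>
    ⟨SimpleGraph.ConnectedComponent.lift f hl c, by
      induction c using SimpleGraph.ConnectedComponent.ind with
      | _ v => simp⟩
  have hg : Function.Bijective g := by
    constructor
    · intro c d hcd
      induction c using SimpleGraph.ConnectedComponent.ind with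
      | _ v =>
        induction d using SimpleGraph.ConnectedComponent.ind with
        | _ w =>
          have : f v = f w := by simpa [g] using congrArg Subtype.val hcd
          exact SimpleGraph.ConnectedComponent.sound ((h v w).mp this)
    · rintro ⟨a, v, rfl⟩
      exact ⟨(under ends A).connectedComponentMk v, by simp [g]⟩
  exact Nat.card_congr (Equiv.ofBijective g hg)

/-- the trivial labels -/
theorem labels_self (ends : E → V × V) (A : Finset E) :
    Labels ends A (fun v => (under ends A).connectedComponentMk v) := by
  intro u v
  exact SimpleGraph.ConnectedComponent.eq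

/-- the new labels when an edge `u v` is added -/
theorem Labels.add [DecidableEq E] {α : Type} [DecidableEq α] {ends : E → V × V} {A : Finset E}
    {f : V → α} (h : Labels ends A f) (e : E) :
    Labels ends (insert e A)
      (fun w => if f w = f (ends e).1 then f (ends e).2 else f w) := by
  classical
  -- reachability in the larger graph
  have hmono : under ends A ≤ under ends (insert e A) := by
    intro u v huv
    rw [under_adj] at huv ⊢
    obtain ⟨h1, e', he', h2⟩ := huv
    exact ⟨h1, e', mem_insert_of_mem he', h2⟩
  have hst : (under ends (insert e A)).Reachable (ends e).1 (ends e).2 := by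
    by_cases hne : (ends e).1 = (ends e).2
    · rw [hne]
    · apply SimpleGraph.Adj.reachable
      rw [under_adj]
      exact ⟨hne, e, mem_insert_self _ _, Or.inl rfl⟩
  have hR : ∀ u v, f u = f v → (under ends (insert e A)).Reachable u v :=
    fun u v huv => ((h u v).mp huv).mono hmono
  intro u v
  constructor
  · intro huv
    simp only at huv
    split_ifs at huv with h1 h2 h2
    · exact hR _ _ (h1.trans h2.symm)
    · exact ((hR _ _ h1).trans hst).trans (hR _ _ huv)
    · exact (hR _ _ huv).trans (hst.symm.trans (hR _ _ h2.symm))
    · exact hR _ _ huv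
  · rintro ⟨p⟩
    induction p with
    | nil => rfl
    | cons hadj _ ih =>
      refine Eq.trans ?_ ih
      rw [under_adj] at hadj
      obtain ⟨hne, e', he', h2⟩ := hadj
      rcases mem_insert.mp he' with rfl | he'
      · rcases h2 with h2 | h2
        · rw [h2]; simp
        · rw [h2]; simp
      · have : f _ = f _ := (h _ _).mpr (SimpleGraph.Adj.reachable
          ((under_adj ends A _ _).mpr ⟨hne, e', he', h2⟩))
        simp only [this]

theorem comps_same [DecidableEq E] {ends : E → V × V} {A : Finset E} {e : E}
    (h : (under ends A).Reachable (ends e).1 (ends e).2) :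
    comps ends (insert e A) = comps ends A := by
  classical
  have hl := labels_self ends A
  rw [comps_eq hl, comps_eq (hl.add e)]
  have he := (hl _ _).mpr h
  congr 2
  ext a
  simp only [Set.mem_range]
  constructor
  · rintro ⟨v, rfl⟩
    split_ifs with h1
    · exact ⟨_, rfl⟩
    · exact ⟨v, rfl⟩
  · rintro ⟨v, rfl⟩
    refine ⟨v, ?_⟩
    split_ifs with h1
    · exact he.symm.trans h1.symm
    · rfl

theorem comps_new [Finite V] [DecidableEq E] {ends : E → V × V} {A : Finset E} {e : E}
    (h : ¬ (under ends A).Reachable (ends e).1 (ends e).2) :
    comps ends (insert e A) + 1 = comps ends A := by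
  classical
  have := Fintype.ofFinite V
  have hl := labels_self ends A
  rw [comps_eq hl, comps_eq (hl.add e)]
  have he := fun hc => h ((hl _ _).mp hc)
  set f := fun v => (under ends A).connectedComponentMk v with hf
  have himg : Set.range (fun w => if f w = f (ends e).1 then f (ends e).2 else f w)
      = ((univ.image f).erase (f (ends e).1) : Finset _) := by
    ext a
    simp only [Set.mem_range, coe_erase, coe_image, coe_univ, Set.image_univ, Set.mem_sdiff,
      Set.mem_singleton_iff]
    constructor
    · rintro ⟨v, rfl⟩
      split_ifs with h1
      · exact ⟨⟨_, rfl⟩, fun hc => he hc.symm⟩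
      · exact ⟨⟨v, rfl⟩, h1⟩
    · rintro ⟨⟨v, rfl⟩, h1⟩
      exact ⟨v, if_neg h1⟩
  have himg2 : Set.range f = (univ.image f : Finset _) := by simp
  rw [himg, himg2, Nat.card_coe_set_eq, Nat.card_coe_set_eq, Set.ncard_coe_finset,
    Set.ncard_coe_finset, card_erase_of_mem (mem_image_of_mem _ (mem_univ _))]
  have h1 : 0 < (univ.image f).card := card_pos.mpr ⟨_, mem_image_of_mem f (mem_univ (ends e).1)⟩
  omega

theorem comps_pos [Finite V] [Nonempty V] (ends : E → V × V) (A : Finset E) :
    0 < comps ends A := by
  unfold comps
  have : Nonempty (under ends A).ConnectedComponent :=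
    ⟨(under ends A).connectedComponentMk (Classical.arbitrary V)⟩
  exact Nat.card_pos

theorem comps_insert_le [Finite V] [DecidableEq E] (ends : E → V × V) (A : Finset E) (e : E) :
    comps ends (insert e A) ≤ comps ends A ∧ comps ends A ≤ comps ends (insert e A) + 1 := by
  by_cases h : (under ends A).Reachable (ends e).1 (ends e).2
  · rw [comps_same h]; omega
  · have := comps_new h; omega

/-- components of two graphs with the same reachability -/
theorem comps_congr {V E E' : Type} {ends : E → V × V} {ends' : E' → V × V} {A : Finset E}
    {A' : Finset E'} (h : ∀ u v, (under ends A).Reachable u v ↔ (under ends' A').Reachable u v) :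
    comps ends A = comps ends' A' := by
  rw [comps_eq (labels_self ends A)]
  have : Labels ends' A' (fun v => (under ends A).connectedComponentMk v) := by
    intro u v
    rw [← h u v]
    exact SimpleGraph.ConnectedComponent.eq
  rw [comps_eq this]

end Pool.Agent.R29.Comp
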