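import Mathlib

/-!
# Graphs with prescribed equitable partitions (circulant blow-ups) and two special vertices
-/

set_option autoImplicit false
set_option linter.unusedSectionVars false

open Matrix Finset

namespace Pool.Agent.R29.FRG

/-- `near n k z`: the residue `z` modulo `n` lies in `{±1, …, ±k}` -/
def near (n k : ℕ) (z : ZMod n) : Prop := 1 ≤ z.val ∧ (z.val ≤ k ∨ n - k ≤ z.val)

instance (n k : ℕ) : DecidablePred (near n k) := fun z => by unfold near; infer_instance

theorem near_iff (n k : ℕ) (z : ZMod n) :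
    near n k z ↔ (1 ≤ z.val ∧ (z.val ≤ k ∨ n - k ≤ z.val)) := Iff.rfl

theorem near_neg (n k : ℕ) [NeZero n] (z : ZMod n) (h : near n k z) : near n k (-z) := by
  unfold near at *
  have hz : z ≠ 0 := by
    rintro rfl
    simp at h
  have : NeZero z := ⟨hz⟩
  rw [ZMod.val_neg_of_ne_zero]
  have h1 := ZMod.val_lt z
  omega

theorem card_near (n k : ℕ) [NeZero n] (hk : 2 * k < n) :
    (univ.filter (fun z : ZMod n => near n k z)).card = 2 * k := by
  have h : (univ.filter (fun z : ZMod n => near n k z)).image ZMod.val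
      = Finset.Icc 1 k ∪ Finset.Ico (n - k) n := by
    ext v
    simp only [mem_image, mem_filter, mem_univ, true_and, mem_union, mem_Icc, mem_Ico]
    constructor
    · rintro ⟨z, hz, rfl⟩
      rw [near_iff] at hz
      have h1 := ZMod.val_lt z
      omega
    · intro hv
      have hvn : v < n := by omega
      refine ⟨(v : ZMod n), ?_, ZMod.val_cast_of_lt hvn⟩
      rw [near_iff, ZMod.val_cast_of_lt hvn]
      omega
  rw [← Finset.card_image_of_injective _ (ZMod.val_injective n), h, Finset.card_union_of_disjoint]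
  · simp only [Nat.card_Icc, Nat.card_Ico]; omega
  · rw [Finset.disjoint_left]
    intro v hv1 hv2
    rw [mem_Icc] at hv1
    rw [mem_Ico] at hv2
    omega

theorem sum_near (n k : ℕ) [NeZero n] (hk : 2 * k < n) (x : ZMod n) (r : ℝ) :
    ∑ y : ZMod n, (if near n k (x - y) then r else 0) = 2 * (k : ℝ) * r := by
  have h1 : ∑ y : ZMod n, (if near n k (x - y) then r else 0)
      = ∑ z : ZMod n, (if near n k z then r else 0) :=
    Fintype.sum_equiv (Equiv.subLeft x) _ _ (fun y => by simp)
  rw [h1, ← Finset.sum_filter, Finset.sum_const, card_near n k hk, nsmul_eq_mul]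
  push_cast; ring

/-- The data: `m` cells; cell `i` consists of `c i` blocks of size `n`; a vertex of the cell `i` has
`2 * k i j` neighbours in every block of the cell `j`; the two special vertices are adjacent to the
cells in `na`, respectively `nb`. -/
structure Data (m : ℕ) where
  n : ℕ
  c : Fin m → ℕ
  k : Fin m → Fin m → ℕ
  s : Bool → Fin m → Bool
  n_pos : NeZero n
  k_symm : ∀ i j, k i j = k j i
  k_lt : ∀ i j, 2 * k i j < n

attribute [instance] Data.n_pos

variable {m : ℕ} (d : Data m)

/-- vertices: `inl false = a`, `inl true = b`, and the vertices of the cells -/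
abbrev Data.V : Type := Bool ⊕ (Σ i : Fin m, Fin (d.c i) × ZMod d.n)

/-- adjacency -/
def Data.adj : d.V → d.V → Prop
  | Sum.inl _, Sum.inl _ => False
  | Sum.inl e, Sum.inr x => d.s e x.1 = true
  | Sum.inr x, Sum.inl e => d.s e x.1 = true
  | Sum.inr x, Sum.inr y => near d.n (d.k x.1 y.1) (x.2.2 - y.2.2)

/-- the graph -/
def Data.graph : SimpleGraph d.V where
  Adj := d.adj
  symm := ⟨by
    rintro (e | x) (e' | y) h
    · exact h
    · exact h
    · exact h
    · change near d.n (d.k x.1 y.1) (x.2.2 - y.2.2) at h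
      change near d.n (d.k y.1 x.1) (y.2.2 - x.2.2)
      rw [d.k_symm, ← neg_sub]
      exact near_neg _ _ _ h⟩
  loopless := ⟨by
    rintro (e | x) h
    · exact h
    · change near d.n (d.k x.1 x.1) (x.2.2 - x.2.2) at h
      rw [sub_self] at h
      simp [near] at h⟩

instance : DecidableRel d.graph.Adj := fun u v => by
  change Decidable (d.adj u v)
  rcases u with e | x <;> rcases v with e' | y <;> simp only [Data.adj] <;> infer_instance

/-- functions constant on the cells -/
def Data.lift (g : Bool → ℝ) (f : Fin m → ℝ) : d.V → ℝ := Sum.elim g (fun x => f x.1)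

theorem Data.mulVec_lift (g : Bool → ℝ) (f : Fin m → ℝ) :
    (d.graph.adjMatrix ℝ) *ᵥ (d.lift g f) =
      d.lift (fun e => ∑ i, if d.s e i then (d.n : ℝ) * d.c i * f i else 0)
        (fun i => (∑ e, if d.s e i then g e else 0) + ∑ j, 2 * (d.k i j : ℝ) * d.c j * f j) := by
  ext v
  simp only [Matrix.mulVec, dotProduct, SimpleGraph.adjMatrix_apply, ite_mul, one_mul, zero_mul]
  rw [Fintype.sum_sum_type]
  rcases v with e | x
  · have h1 : ∀ e' : Bool, (if d.graph.Adj (Sum.inl e) (Sum.inl e') then d.lift g f (Sum.inl e') else 0)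
        = (0 : ℝ) := fun e' => if_neg (fun h => h)
    simp only [h1, Finset.sum_const_zero, zero_add]
    have h2 : ∀ y : (Σ i : Fin m, Fin (d.c i) × ZMod d.n),
        (if d.graph.Adj (Sum.inl e) (Sum.inr y) then d.lift g f (Sum.inr y) else 0)
          = (if d.s e y.1 then f y.1 else 0) := fun y => rfl
    simp only [h2]
    rw [Fintype.sum_sigma]
    change _ = ∑ i, if d.s e i then (d.n : ℝ) * d.c i * f i else 0
    refine Finset.sum_congr rfl fun i _ => ?_
    simp only [Finset.sum_const, Finset.card_univ, Fintype.card_prod, Fintype.card_fin, ZMod.card,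
      nsmul_eq_mul]
    split_ifs
    · push_cast; ring
    · simp
  · have h1 : ∀ e' : Bool, (if d.graph.Adj (Sum.inr x) (Sum.inl e') then d.lift g f (Sum.inl e') else 0)
        = (if d.s e' x.1 then g e' else 0) := fun e' => rfl
    simp only [h1]
    have h2 : ∀ y : (Σ i : Fin m, Fin (d.c i) × ZMod d.n),
        (if d.graph.Adj (Sum.inr x) (Sum.inr y) then d.lift g f (Sum.inr y) else 0)
          = (if near d.n (d.k x.1 y.1) (x.2.2 - y.2.2) then f y.1 else 0) := fun y => rfl
    simp only [h2]
    change _ = (∑ e, if d.s e x.1 then g e else 0) + ∑ j, 2 * (d.k x.1 j : ℝ) * d.c j * f j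
    congr 1
    rw [Fintype.sum_sigma]
    refine Finset.sum_congr rfl fun j _ => ?_
    rw [Fintype.sum_prod_type]
    simp only [sum_near d.n (d.k x.1 j) (d.k_lt x.1 j)]
    rw [Finset.sum_const, Finset.card_univ, Fintype.card_fin, nsmul_eq_mul]
    ring

end Pool.Agent.R29.FRG
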