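import Mathlib

/-!
# Matrix exponentials and eigenvectors; basic algebra of fractional revival
-/

set_option autoImplicit false

open Matrix Finset

namespace Pool.Agent.R29.FR

variable {V : Type*} [Fintype V] [DecidableEq V]

/-- exponential of a matrix acts on an eigenvector by the exponential of the eigenvalue -/
theorem exp_mulVec_eig (M : Matrix V V ℂ) (y : V → ℂ) (μ : ℂ) (h : M *ᵥ y = μ • y) :
    NormedSpace.exp M *ᵥ y = Complex.exp μ • y := by
  open scoped Matrix.Norms.Operator in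
  have hpow : ∀ k : ℕ, (M ^ k) *ᵥ y = μ ^ k • y := by
    intro k
    induction k with
    | zero => simp
    | succ k ih => rw [pow_succ, ← Matrix.mulVec_mulVec, h, Matrix.mulVec_smul, ih, smul_smul,
        pow_succ, mul_comm]
  open scoped Matrix.Norms.Operator in
  have h1 : HasSum (fun k : ℕ => ((k.factorial : ℂ)⁻¹) • M ^ k) (NormedSpace.exp M) :=
    NormedSpace.exp_series_hasSum_exp' (𝕂 := ℂ) M
  have h2 : HasSum (fun k : ℕ => ((k.factorial : ℂ)⁻¹) • μ ^ k) (Complex.exp μ) := by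
    have := NormedSpace.exp_series_hasSum_exp' (𝕂 := ℂ) μ
    rwa [← Complex.exp_eq_exp_ℂ] at this
  ext v
  have h3 : HasSum (fun k : ℕ => ((((k.factorial : ℂ)⁻¹) • M ^ k) *ᵥ y) v) ((NormedSpace.exp M *ᵥ y) v) := by
    have hL : Continuous (fun N : Matrix V V ℂ => (N *ᵥ y) v) := by
      simp only [Matrix.mulVec, dotProduct]
      fun_prop
    exact h1.map (⟨⟨fun N : Matrix V V ℂ => (N *ᵥ y) v, by simp⟩, by
      intro a b; simp [Matrix.add_mulVec]⟩ : Matrix V V ℂ →+ ℂ) hL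
  have h4 : HasSum (fun k : ℕ => (((k.factorial : ℂ)⁻¹) • μ ^ k) * y v) (Complex.exp μ * y v) :=
    h2.mul_right _
  have h5 : (fun k : ℕ => ((((k.factorial : ℂ)⁻¹) • M ^ k) *ᵥ y) v)
      = (fun k : ℕ => (((k.factorial : ℂ)⁻¹) • μ ^ k) * y v) := by
    funext k
    rw [Matrix.smul_mulVec, hpow]
    simp only [Pi.smul_apply, smul_eq_mul]
    ring
  rw [h5] at h3
  have := h3.unique h4
  simpa using this

/-- The transition matrix `exp(i τ A)`. -/
noncomputable def U (A : Matrix V V ℂ) (τ : ℝ) : Matrix V V ℂ :=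
  NormedSpace.exp (((τ : ℂ) * Complex.I) • A)

theorem U_symm (A : Matrix V V ℂ) (hA : A.IsSymm) (τ : ℝ) : (U A τ).IsSymm := by
  unfold U
  apply Matrix.IsSymm.exp
  rw [Matrix.IsSymm, Matrix.transpose_smul, hA]

theorem U_comm (A : Matrix V V ℂ) (τ : ℝ) : U A τ * A = A * U A τ := by
  unfold U
  have h : Commute (((τ : ℂ) * Complex.I) • A) A := (Commute.refl A).smul_left _
  exact (Commute.exp_left h).eq

theorem U_unitary (A : Matrix V V ℂ) (hA : A.IsHermitian) (τ : ℝ) :
    U A τ * (U A τ)ᴴ = 1 := by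
  unfold U
  rw [← Matrix.exp_conjTranspose, Matrix.conjTranspose_smul, hA]
  have h1 : star ((τ : ℂ) * Complex.I) = -((τ : ℂ) * Complex.I) := by
    simp
  rw [h1, neg_smul, Matrix.exp_neg]
  exact Matrix.mul_nonsing_inv _ ((Matrix.isUnit_iff_isUnit_det _).mp (Matrix.isUnit_exp _))

theorem U_eig (A : Matrix V V ℂ) (τ : ℝ) (y : V → ℂ) (θ : ℂ) (h : A *ᵥ y = θ • y) :
    U A τ *ᵥ y = Complex.exp ((τ : ℂ) * Complex.I * θ) • y := by
  unfold U
  apply exp_mulVec_eig
  rw [Matrix.smul_mulVec, h, smul_smul]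

end Pool.Agent.R29.FR
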