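import Mathlib
import Pool.Agent.R29.FRExp

/-!
# Fractional revival: the two basic relations, and equality of the vertex-deleted characteristic
polynomials from equality of the closed walk counts
-/

set_option autoImplicit false

open Matrix Finset

namespace Pool.Agent.R29.FR

variable {V : Type*} [Fintype V] [DecidableEq V]

theorem fr_relations (A : Matrix V V ℂ) (hs : A.IsSymm) (hh : A.IsHermitian) (τ : ℝ) (a b : V)
    (hab : a ≠ b) (α β : ℂ) (hβ : β ≠ 0)
    (h : U A τ *ᵥ Pi.single a 1 = α • Pi.single a (1 : ℂ) + β • Pi.single b (1 : ℂ)) :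
    ∃ γ : ℂ, (∀ k : ℕ, β * ((A ^ k) a a - (A ^ k) b b) = (α - γ) * (A ^ k) a b) ∧
      ∀ (y : V → ℂ) (θ : ℂ), A *ᵥ y = θ • y →
        α * y a + β * y b = Complex.exp ((τ : ℂ) * Complex.I * θ) * y a ∧
        β * y a + γ * y b = Complex.exp ((τ : ℂ) * Complex.I * θ) * y b := by
  set W := U A τ with hW
  have hWs : ∀ u v, W u v = W v u := by
    intro u v
    have := U_symm A hs τ
    exact (congrFun (congrFun this v) u)
  have hcol : ∀ v, W v a = α * (if v = a then 1 else 0) + β * (if v = b then 1 else 0) := by
    intro v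
    have h1 := congrFun h v
    rw [Matrix.mulVec_single_one] at h1
    simp only [Pi.add_apply, Pi.smul_apply, Pi.single_apply, smul_eq_mul, Matrix.col_apply] at h1
    exact h1
  have hrow : ∀ v, W a v = α * (if v = a then 1 else 0) + β * (if v = b then 1 else 0) := by
    intro v; rw [hWs, hcol]
  have hzero : ∀ v, v ≠ a → v ≠ b → W b v = 0 := by
    intro v hva hvb
    have h1 := congrFun (congrFun (U_unitary A hh τ) a) v
    rw [← hW, Matrix.mul_apply, Matrix.one_apply_ne hva.symm] at h1
    simp only [Matrix.conjTranspose_apply, hrow, mul_ite, mul_one, mul_zero, add_mul, ite_mul,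
      zero_mul, Finset.sum_add_distrib, Finset.sum_ite_eq', Finset.mem_univ, if_true] at h1
    rw [hcol v, if_neg hva, if_neg hvb] at h1
    simp only [mul_zero, add_zero, star_zero, zero_add, mul_eq_zero, star_eq_zero] at h1
    rcases h1 with h1 | h1
    · exact absurd h1 hβ
    · rw [hWs]; exact h1
  have hab' : W b a = β := by rw [hcol, if_neg hab.symm, if_pos rfl]; simp
  set γ := W b b with hγ
  have hrowb : ∀ v, W b v = β * (if v = a then 1 else 0) + γ * (if v = b then 1 else 0) := by
    intro v
    by_cases hva : v = a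
    · subst hva; rw [hab', if_pos rfl, if_neg hab]; simp
    · by_cases hvb : v = b
      · subst hvb; rw [if_neg hva, if_pos rfl, hγ]; simp
      · rw [hzero v hva hvb, if_neg hva, if_neg hvb]; simp
  have hcolb : ∀ v, W v b = β * (if v = a then 1 else 0) + γ * (if v = b then 1 else 0) := by
    intro v; rw [hWs, hrowb]
  refine ⟨γ, ?_, ?_⟩
  · intro k
    have hc : W * A ^ k = A ^ k * W := by
      have h1 : Commute W A := U_comm A τ
      exact (h1.pow_right k).eq
    have h1 := congrFun (congrFun hc a) b
    rw [Matrix.mul_apply, Matrix.mul_apply] at h1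
    simp only [hrow, hcolb, mul_ite, mul_one, mul_zero, add_mul, mul_add, ite_mul,
      zero_mul, Finset.sum_add_distrib, Finset.sum_ite_eq', Finset.mem_univ, if_true] at h1
    linear_combination -h1
  · intro y θ hy
    have h1 := U_eig A τ y θ hy
    have h2 := congrFun h1 a
    have h3 := congrFun h1 b
    rw [← hW] at h2 h3
    simp only [Matrix.mulVec, dotProduct, Pi.smul_apply, smul_eq_mul] at h2 h3
    simp only [hrow, hrowb, mul_ite, mul_one, mul_zero, add_mul, mul_add, ite_mul,
      zero_mul, Finset.sum_add_distrib, Finset.sum_ite_eq', Finset.mem_univ, if_true] at h2 h3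
    exact ⟨h2, h3⟩

/-- adjugate of a matrix with non-zero determinant over a domain is a polynomial in the matrix -/
theorem adjugate_eq_aeval {R : Type*} [CommRing R] [IsDomain R] (M : Matrix V V R)
    (hM : M.det ≠ 0) :
    ∃ p : Polynomial R, M.adjugate = Polynomial.aeval M p := by
  set q := M.charpoly with hq
  have h0 : Polynomial.aeval M q = 0 := Matrix.aeval_self_charpoly M
  have h1 : Polynomial.aeval M (q.divX) * M + algebraMap R _ (q.coeff 0) = 0 := by
    have := q.divX_mul_X_add
    rw [← this, map_add, map_mul, Polynomial.aeval_X, Polynomial.aeval_C] at h0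
    exact h0
  have hdet : M.det = (-1) ^ Fintype.card V * q.coeff 0 := Matrix.det_eq_sign_charpoly_coeff M
  have h2 := congrArg (fun N => N * M.adjugate) h1
  simp only [add_mul, mul_assoc, Matrix.mul_adjugate, zero_mul] at h2
  -- aeval * (det • 1) + c0 • adj = 0
  refine ⟨-(Polynomial.C ((-1) ^ Fintype.card V)) * q.divX, ?_⟩
  have hsq : ((-1 : R) ^ Fintype.card V) * ((-1) ^ Fintype.card V) = 1 := by
    rw [← pow_add, ← two_mul, pow_mul]; simp
  have h3 : M.det • (M.adjugate) = M.det • Polynomial.aeval M (-(Polynomial.C ((-1) ^ Fintype.card V)) * q.divX) := by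
    rw [map_mul, map_neg, Polynomial.aeval_C]
    have h4 : (algebraMap R (Matrix V V R)) (q.coeff 0) * M.adjugate = q.coeff 0 • M.adjugate := by
      rw [Algebra.smul_def]
    rw [h4] at h2
    have h5 : M.det • M.adjugate = ((-1 : R) ^ Fintype.card V) • (q.coeff 0 • M.adjugate) := by
      rw [hdet, smul_smul]
    rw [h5, eq_neg_of_add_eq_zero_right h2]
    simp only [mul_smul_comm, mul_one, smul_neg, neg_mul, Algebra.algebraMap_eq_smul_one,
      smul_mul_assoc, one_mul]
    rw [smul_comm]
  exact smul_right_injective _ hM h3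

/-- the diagonal entry of the adjugate is the determinant of the matrix with row and column
removed -/
theorem adjugate_diag {R : Type*} [CommRing R] (M : Matrix V V R) (a : V) :
    M.adjugate a a = (M.submatrix (fun i : {x // x ≠ a} => i.1) (fun i => i.1)).det := by
  rw [Matrix.adjugate_apply]
  rw [Matrix.twoBlockTriangular_det _ (fun v => v ≠ a)]
  · have h1 : (Matrix.toSquareBlockProp (M.updateRow a (Pi.single a 1)) (fun v => ¬ v ≠ a)).det = 1 := by
      haveI : Unique {v // ¬ v ≠ a} := ⟨⟨⟨a, by simp⟩⟩, by
        rintro ⟨x, hx⟩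
        simp only [ne_eq, not_not] at hx
        subst hx; rfl⟩
      rw [Matrix.det_unique]
      have : (default : {v // ¬ v ≠ a}).1 = a := by
        have := (default : {v // ¬ v ≠ a}).2
        simpa using this
      rw [Matrix.toSquareBlockProp_def, Matrix.of_apply, this]
      simp
    rw [h1, mul_one]
    congr 1
    ext i j
    rw [Matrix.toSquareBlockProp_def, Matrix.of_apply, Matrix.submatrix_apply,
      Matrix.updateRow_ne i.2]
  · intro i hi j hj
    have hi' : i = a := by simpa using hi
    subst hi'
    rw [Matrix.updateRow_self, Pi.single_eq_of_ne hj]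

end Pool.Agent.R29.FR
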