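import Mathlib

/-!
# An inequality for the Perron vector of a graph

`x` is a positive unit eigenvector of the adjacency matrix `g` of a graph.  We show
`∑_v ∑_{w ≁ v} x_w² ≥ ∑_{u,v} (x_u² - x_v²)²` (ordered pairs) when some vertex has degree at least two.
-/

set_option autoImplicit false
set_option linter.unusedSectionVars false
set_option linter.unnecessarySeqFocus false

open Finset

namespace Pool.Agent.R29.Mix

variable {V : Type} [Fintype V] [DecidableEq V]

/-- the data: a symmetric 0/1 matrix with zero diagonal, and a positive unit eigenvector -/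
structure Data (g : V → V → ℝ) (x : V → ℝ) (θ : ℝ) : Prop where
  g01 : ∀ u v, g u v = 0 ∨ g u v = 1
  gs : ∀ u v, g u v = g v u
  g0 : ∀ v, g v v = 0
  xp : ∀ v, 0 < x v
  nrm : ∑ v, x v ^ 2 = 1
  eig : ∀ v, ∑ u, g v u * x u = θ * x v
  tp : 0 < θ

/-- indicator of distinct non-adjacent pairs -/
def nb (g : V → V → ℝ) (v w : V) : ℝ := 1 - g v w - (if v = w then 1 else 0)

/-- the mass of the non-neighbours -/
def nu (g : V → V → ℝ) (x : V → ℝ) (v : V) : ℝ := ∑ w, nb g v w * x w ^ 2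

def sg (g : V → V → ℝ) (x : V → ℝ) (v u : V) : ℝ := ∑ w, g u w * nb g v w * x w

/-- positive part of `x u ^ 2 - x v ^ 2` -/
noncomputable def P (x : V → ℝ) (u v : V) : ℝ := max (x u ^ 2 - x v ^ 2) 0

noncomputable def p (x : V → ℝ) (u v : V) : ℝ := max (x u - x v) 0

variable {g : V → V → ℝ} {x : V → ℝ} {θ : ℝ}

theorem nb_nonneg (D : Data g x θ) (v w : V) : 0 ≤ nb g v w := by
  unfold nb
  by_cases h : v = w
  · subst h
    rw [D.g0]
    simp
  · rw [if_neg h]
    rcases D.g01 v w with h1 | h1 <;> rw [h1] <;> norm_num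

theorem g_nonneg (D : Data g x θ) (v w : V) : 0 ≤ g v w := by
  rcases D.g01 v w with h1 | h1 <;> rw [h1] <;> norm_num

theorem nu_nonneg (D : Data g x θ) (v : V) : 0 ≤ nu g x v :=
  Finset.sum_nonneg fun w _ => mul_nonneg (nb_nonneg D v w) (sq_nonneg _)

theorem sg_nonneg (D : Data g x θ) (v u : V) : 0 ≤ sg g x v u :=
  Finset.sum_nonneg fun w _ => mul_nonneg (mul_nonneg (g_nonneg D _ _) (nb_nonneg D v w))
    (D.xp w).le

/-- identity (I) -/
theorem nu_eq (D : Data g x θ) (v : V) : θ * nu g x v = ∑ u, x u * sg g x v u := by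
  unfold nu sg
  rw [Finset.mul_sum]
  simp_rw [Finset.mul_sum]
  rw [Finset.sum_comm]
  refine Finset.sum_congr rfl fun w _ => ?_
  have h := D.eig w
  have : θ * (nb g v w * x w ^ 2) = nb g v w * x w * (θ * x w) := by ring
  rw [this, ← h, Finset.mul_sum]
  refine Finset.sum_congr rfl fun u _ => ?_
  rw [D.gs w u]
  ring

theorem sg_eq (D : Data g x θ) (v u : V) :
    sg g x v u = θ * x u - ∑ w, g u w * g v w * x w - g u v * x v := by
  unfold sg nb
  rw [← D.eig u]
  have : ∑ w, g u w * (1 - g v w - (if v = w then 1 else 0)) * x w =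
      ∑ w, (g u w * x w - g u w * g v w * x w - (if v = w then g u w * x w else 0)) := by
    refine Finset.sum_congr rfl fun w _ => ?_
    split_ifs <;> ring
  rw [this, Finset.sum_sub_distrib, Finset.sum_sub_distrib, Finset.sum_ite_eq]
  simp

/-- (II) -/
theorem sg_ge (D : Data g x θ) (v u : V) : (θ + g u v) * (x u - x v) ≤ sg g x v u := by
  rw [sg_eq D]
  have h1 : g v u * x u ≤ ∑ w, (1 - g u w) * (g v w * x w) := by
    have := Finset.single_le_sum (f := fun w => (1 - g u w) * (g v w * x w))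
      (fun w _ => mul_nonneg (by rcases D.g01 u w with h | h <;> rw [h] <;> norm_num)
        (mul_nonneg (g_nonneg D v w) (D.xp w).le)) (Finset.mem_univ u)
    simpa [D.g0] using this
  have h2 : ∑ w, (1 - g u w) * (g v w * x w) = θ * x v - ∑ w, g u w * g v w * x w := by
    rw [← D.eig v, ← Finset.sum_sub_distrib]
    refine Finset.sum_congr rfl fun w _ => by ring
  rw [h2] at h1
  have h3 := D.gs u v
  rw [← h3] at h1
  nlinarith

theorem sg_ge' (D : Data g x θ) (v u : V) : (θ + g u v) * p x u v ≤ sg g x v u := by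
  unfold p
  rcases le_total (x u - x v) 0 with h | h
  · rw [max_eq_right h, mul_zero]; exact sg_nonneg D v u
  · rw [max_eq_left h]; exact sg_ge D v u

theorem p_nonneg (u v : V) : 0 ≤ p x u v := le_max_right _ _
theorem P_nonneg (u v : V) : 0 ≤ P x u v := le_max_right _ _

/-- `2 (X²-Y²)² ≤ (64/27) X³ (X-Y)` -/
theorem poly1 (X Y : ℝ) (hX : 0 ≤ X) (hY : 0 ≤ Y) (h : Y ≤ X) :
    2 * (X ^ 2 - Y ^ 2) ^ 2 ≤ 64 / 27 * X ^ 2 * (X * (X - Y)) := by
  have h1 : 0 ≤ (X - 3 * Y) ^ 2 * (5 * X + 3 * Y) * (X - Y) :=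
    mul_nonneg (mul_nonneg (sq_nonneg _) (by positivity)) (by linarith)
  nlinarith

theorem P_le (D : Data g x θ) (u v : V) :
    2 * P x u v ^ 2 ≤ 64 / 27 * x u ^ 2 * (x u * p x u v) := by
  unfold P p
  rcases le_total (x u) (x v) with h | h
  · have h2 := pow_le_pow_left₀ (D.xp u).le h 2
    have e1 : max (x u ^ 2 - x v ^ 2) 0 = 0 := max_eq_right (by linarith)
    have e2 : max (x u - x v) 0 = 0 := max_eq_right (by linarith)
    rw [e1, e2]
    simp
  · have h2 := pow_le_pow_left₀ (D.xp v).le h 2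
    have e1 : max (x u ^ 2 - x v ^ 2) 0 = x u ^ 2 - x v ^ 2 := max_eq_left (by linarith)
    have e2 : max (x u - x v) 0 = x u - x v := max_eq_left (by linarith)
    rw [e1, e2]
    exact poly1 _ _ (D.xp u).le (D.xp v).le h

/-- `∑ g x x = θ` -/
theorem form_eq (D : Data g x θ) : ∑ v, ∑ w, g v w * (x v * x w) = θ := by
  have : ∀ v, ∑ w, g v w * (x v * x w) = θ * x v ^ 2 := by
    intro v
    have : ∑ w, g v w * (x v * x w) = x v * ∑ w, g v w * x w := by
      rw [Finset.mul_sum]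
      exact Finset.sum_congr rfl fun w _ => by ring
    rw [this, D.eig v]
    ring
  simp_rw [this]
  rw [← Finset.mul_sum, D.nrm, mul_one]

theorem row_eq (D : Data g x θ) (v : V) : ∑ w, g v w * (x v * x w) = θ * x v ^ 2 := by
  have : ∑ w, g v w * (x v * x w) = x v * ∑ w, g v w * x w := by
    rw [Finset.mul_sum]
    exact Finset.sum_congr rfl fun w _ => by ring
  rw [this, D.eig v]
  ring

/-- (III): `θ (1 - 2 x_h²) = ∑_{v ≠ h} x_v (θ x_v - g x_h)` -/
theorem hub_eq (D : Data g x θ) (h : V) :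
    θ * (1 - 2 * x h ^ 2) = ∑ v ∈ univ.erase h, x v * (θ * x v - g v h * x h) := by
  have h1 : ∑ v, x v * (θ * x v - g v h * x h) = θ - θ * x h ^ 2 := by
    have : ∀ v, x v * (θ * x v - g v h * x h) = θ * x v ^ 2 - g h v * (x h * x v) := by
      intro v; rw [D.gs v h]; ring
    simp_rw [this]
    rw [Finset.sum_sub_distrib, ← Finset.mul_sum, D.nrm, row_eq D h, mul_one]
  have h2 := Finset.add_sum_erase univ (fun v => x v * (θ * x v - g v h * x h)) (Finset.mem_univ h)
  rw [h1] at h2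
  simp only [D.g0, zero_mul, sub_zero] at h2
  nlinarith

theorem theta_ge (D : Data g x θ) (v h : V) : g v h * x h ≤ θ * x v := by
  rw [← D.eig v]
  exact Finset.single_le_sum (f := fun w => g v w * x w)
    (fun w _ => mul_nonneg (g_nonneg D v w) (D.xp w).le) (Finset.mem_univ h)

theorem le_half (D : Data g x θ) (h : V) : x h ^ 2 ≤ 1 / 2 := by
  have h1 := hub_eq D h
  have h2 : 0 ≤ ∑ v ∈ univ.erase h, x v * (θ * x v - g v h * x h) :=
    Finset.sum_nonneg fun v _ => mul_nonneg (D.xp v).le (by have := theta_ge D v h; linarith)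
  rw [← h1] at h2
  have := D.tp
  by_contra hc
  push Not at hc
  nlinarith

/-- two vertices: `(x_h² + x_u²)(2θ-1) ≤ θ` -/
theorem two_le (D : Data g x θ) (h u : V) (hu : u ≠ h) :
    (x h ^ 2 + x u ^ 2) * (2 * θ - 1) ≤ θ := by
  -- the part of the form outside `{h,u}`
  have key : 0 ≤ ∑ v ∈ (univ.erase h).erase u, ∑ w ∈ (univ.erase h).erase u,
      g v w * (x v * x w) :=
    Finset.sum_nonneg fun v _ => Finset.sum_nonneg fun w _ =>
      mul_nonneg (g_nonneg D v w) (mul_nonneg (D.xp v).le (D.xp w).le)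
  have hin : ∀ v, ∑ w ∈ (univ.erase h).erase u, g v w * (x v * x w) =
      θ * x v ^ 2 - g v h * (x v * x h) - g v u * (x v * x u) := by
    intro v
    have e1 := Finset.add_sum_erase univ (fun w => g v w * (x v * x w)) (Finset.mem_univ h)
    have e2 := Finset.add_sum_erase (univ.erase h) (fun w => g v w * (x v * x w))
      (Finset.mem_erase.mpr ⟨hu, Finset.mem_univ u⟩)
    have e3 := row_eq D v
    beta_reduce at e1 e2
    linarith
  simp_rw [hin] at key
  have s1 : ∑ v, (θ * x v ^ 2 - g v h * (x v * x h) - g v u * (x v * x u)) =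
      θ - θ * x h ^ 2 - θ * x u ^ 2 := by
    rw [Finset.sum_sub_distrib, Finset.sum_sub_distrib, ← Finset.mul_sum, D.nrm]
    have a1 : ∑ v, g v h * (x v * x h) = θ * x h ^ 2 := by
      rw [← row_eq D h]
      exact Finset.sum_congr rfl fun w _ => by rw [D.gs w h]; ring
    have a2 : ∑ v, g v u * (x v * x u) = θ * x u ^ 2 := by
      rw [← row_eq D u]
      exact Finset.sum_congr rfl fun w _ => by rw [D.gs w u]; ring
    rw [a1, a2, mul_one]
  have e1 := Finset.add_sum_erase univ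
    (fun v => θ * x v ^ 2 - g v h * (x v * x h) - g v u * (x v * x u)) (Finset.mem_univ h)
  have e2 := Finset.add_sum_erase (univ.erase h)
    (fun v => θ * x v ^ 2 - g v h * (x v * x h) - g v u * (x v * x u))
      (Finset.mem_erase.mpr ⟨hu, Finset.mem_univ u⟩)
  beta_reduce at e1 e2
  rw [s1] at e1
  rw [D.g0] at e1 e2
  have hs := D.gs u h
  rcases D.g01 u h with h0 | h0
  · rw [h0] at e2 hs
    rw [← hs] at e1
    nlinarith [sq_nonneg (x u), sq_nonneg (x h)]
  · rw [h0] at e2 hs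
    rw [← hs] at e1
    nlinarith [sq_nonneg (x u - x h)]

/-- Case A: all masses at most `27/64` -/
theorem caseA (D : Data g x θ) (v : V) (S : Finset V)
    (hS : ∀ u ∈ S, x u ^ 2 ≤ 27 / 64) : ∑ u ∈ S, 2 * P x u v ^ 2 ≤ ∑ u ∈ S, x u * p x u v := by
  refine Finset.sum_le_sum fun u hu => ?_
  have h1 := P_le D u v
  have h2 := hS u hu
  have h3 : 0 ≤ x u * p x u v := mul_nonneg (D.xp u).le (p_nonneg u v)
  nlinarith

theorem nu_ge (D : Data g x θ) (v : V) : ∑ u, x u * p x u v ≤ nu g x v := by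
  have h1 := nu_eq D v
  have h2 : ∑ u, x u * (θ * p x u v) ≤ ∑ u, x u * sg g x v u := by
    refine Finset.sum_le_sum fun u _ => mul_le_mul_of_nonneg_left ?_ (D.xp u).le
    have h3 := sg_ge' D v u
    have h4 : 0 ≤ g u v * p x u v := mul_nonneg (g_nonneg D u v) (p_nonneg u v)
    nlinarith
  rw [← h1] at h2
  have h5 : ∑ u, x u * (θ * p x u v) = θ * ∑ u, x u * p x u v := by
    rw [Finset.mul_sum]
    exact Finset.sum_congr rfl fun u _ => by ring
  rw [h5] at h2
  exact le_of_mul_le_mul_left h2 D.tp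


theorem poly2 (s : ℝ) (h0 : 0 ≤ s) (h1 : s ≤ 1) : 0 ≤ 3 / 20 - s + 2 * s ^ 2 - s ^ 4 := by
  nlinarith [sq_nonneg (s ^ 2 - 27 / 100 * s), sq_nonneg (s - 27 / 100), mul_nonneg h0 (sub_nonneg.mpr h1),
    mul_nonneg (mul_nonneg h0 h0) (sub_nonneg.mpr h1), mul_nonneg (sub_nonneg.mpr h1) (sq_nonneg (s - 27/100)),
    mul_nonneg h0 (sq_nonneg (s - 27/100)), mul_nonneg (mul_nonneg h0 (sub_nonneg.mpr h1)) (sq_nonneg (s - 27/100))]


/-- `2(α - y²)² ≤ x_h (x_h - x_v) + (3/20) x_h²` when `x_h² ≤ 1/2` -/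
theorem poly3 (X Y : ℝ) (hX : 0 < X) (hY : 0 ≤ Y) (h : Y ≤ X) (hX2 : X ^ 2 ≤ 1 / 2) :
    2 * (X ^ 2 - Y ^ 2) ^ 2 ≤ X * (X - Y) + 3 / 20 * X ^ 2 := by
  have h1 := poly2 (Y / X) (div_nonneg hY hX.le) (by rw [div_le_one hX]; exact h)
  have h2 : 0 ≤ 3 / 20 * X ^ 4 - Y * X ^ 3 + 2 * Y ^ 2 * X ^ 2 - Y ^ 4 := by
    have : 3 / 20 * X ^ 4 - Y * X ^ 3 + 2 * Y ^ 2 * X ^ 2 - Y ^ 4 =
        X ^ 4 * (3 / 20 - Y / X + 2 * (Y / X) ^ 2 - (Y / X) ^ 4) := by
      field_simp
    rw [this]
    positivity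
  -- (X²-Y²)² ≤ X² (X(X-Y) + (3/20) X²)
  have h3 : (X ^ 2 - Y ^ 2) ^ 2 ≤ X ^ 2 * (X * (X - Y) + 3 / 20 * X ^ 2) := by nlinarith
  have h4 : 0 ≤ X * (X - Y) + 3 / 20 * X ^ 2 := by
    have := mul_nonneg hX.le (sub_nonneg.mpr h)
    positivity
  nlinarith

/-- (B1) -/
theorem caseB1 (D : Data g x θ) (ht : 7 / 5 ≤ θ) (h : V) (hh : 27 / 64 ≤ x h ^ 2)
    (hmax : ∀ u, x u ≤ x h) (v : V) (hv : v ≠ h) (hg : g v h = 0) :
    ∑ u, 2 * P x u v ^ 2 ≤ nu g x v := by
  have hle := le_half D h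
  have hthird : ∀ u, u ≠ h → x u ^ 2 ≤ 205 / 576 := by
    intro u hu
    have h1 := two_le D h u hu
    by_contra hc
    push Not at hc
    have h2 : 7 / 9 < x h ^ 2 + x u ^ 2 := by linarith
    nlinarith
  -- lower bounds on sg
  have hsg : ∀ u ∈ univ.erase h, 17 / 20 * (θ * p x u v) + 3 / 20 * (g u h * x h) ≤ sg g x v u := by
    intro u hu
    have h1 := sg_ge' D v u
    have h2 : 0 ≤ g u v * p x u v := mul_nonneg (g_nonneg D u v) (p_nonneg u v)
    have h3 : g u h * x h ≤ sg g x v u := by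
      have h4 := Finset.single_le_sum (f := fun w => g u w * nb g v w * x w)
        (fun w _ => mul_nonneg (mul_nonneg (g_nonneg D _ _) (nb_nonneg D v w)) (D.xp w).le)
        (Finset.mem_univ h)
      have h5 : nb g v h = 1 := by unfold nb; rw [hg, if_neg hv]; ring
      simp only [h5, mul_one] at h4
      exact h4
    nlinarith
  have h1 := nu_eq D v
  have e1 := Finset.add_sum_erase univ (fun u => x u * sg g x v u) (Finset.mem_univ h)
  beta_reduce at e1
  have h2 : x h * (θ * (x h - x v)) ≤ x h * sg g x v h := by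
    apply mul_le_mul_of_nonneg_left _ (D.xp h).le
    have := sg_ge D v h
    rw [D.gs h v, hg, add_zero] at this
    exact this
  have h3 : ∑ u ∈ univ.erase h, x u * (17 / 20 * (θ * p x u v) + 3 / 20 * (g u h * x h)) ≤
      ∑ u ∈ univ.erase h, x u * sg g x v u :=
    Finset.sum_le_sum fun u hu => mul_le_mul_of_nonneg_left (hsg u hu) (D.xp u).le
  have h4 : ∑ u ∈ univ.erase h, x u * (17 / 20 * (θ * p x u v) + 3 / 20 * (g u h * x h)) =
      17 / 20 * θ * ∑ u ∈ univ.erase h, x u * p x u v + 3 / 20 * (θ * x h ^ 2) := by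
    have e2 : ∑ u ∈ univ.erase h, g h u * (x h * x u) = θ * x h ^ 2 := by
      rw [← row_eq D h, ← Finset.add_sum_erase univ (fun u => g h u * (x h * x u)) (Finset.mem_univ h)]
      simp [D.g0]
    rw [← e2, Finset.mul_sum, Finset.mul_sum, ← Finset.sum_add_distrib]
    refine Finset.sum_congr rfl fun u _ => ?_
    rw [D.gs u h]
    ring
  have h5 : ∑ u ∈ univ.erase h, 2 * P x u v ^ 2 ≤ 17 / 20 * ∑ u ∈ univ.erase h, x u * p x u v := by
    rw [Finset.mul_sum]
    refine Finset.sum_le_sum fun u hu => ?_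
    have h6 := P_le D u v
    have h7 := hthird u (Finset.ne_of_mem_erase hu)
    have h8 : 0 ≤ x u * p x u v := mul_nonneg (D.xp u).le (p_nonneg u v)
    nlinarith
  have h6 : 2 * P x h v ^ 2 ≤ x h * (x h - x v) + 3 / 20 * x h ^ 2 := by
    have h7 : P x h v = x h ^ 2 - x v ^ 2 := by
      unfold P
      rw [max_eq_left]
      have := pow_le_pow_left₀ (D.xp v).le (hmax v) 2
      linarith
    rw [h7]
    exact poly3 _ _ (D.xp h) (D.xp v).le (hmax v) hle
  rw [← Finset.add_sum_erase univ (fun u => 2 * P x u v ^ 2) (Finset.mem_univ h)]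
  have h9 : θ * (2 * P x h v ^ 2 + ∑ u ∈ univ.erase h, 2 * P x u v ^ 2) ≤ θ * nu g x v := by
    rw [h1, ← e1]
    have := D.tp
    rw [h4] at h3
    nlinarith [mul_le_mul_of_nonneg_left h5 this.le, mul_le_mul_of_nonneg_left h6 this.le]
  exact le_of_mul_le_mul_left h9 D.tp

/-- (B3): neighbours of the hub, what remains -/
theorem caseB3 (D : Data g x θ) (ht : 7 / 5 ≤ θ) (h : V) (hh : 27 / 64 ≤ x h ^ 2)
    (v : V) (hg : g v h = 1) :
    (1 + 1 / θ) * (x h * (x h - x v)) + ∑ u ∈ univ.erase h, 2 * P x u v ^ 2 ≤ nu g x v := by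
  have hthird : ∀ u, u ≠ h → x u ^ 2 ≤ 27 / 64 := by
    intro u hu
    have h1 := two_le D h u hu
    by_contra hc
    push Not at hc
    have h2 : 7 / 9 < x h ^ 2 + x u ^ 2 := by linarith
    nlinarith
  have h1 := nu_eq D v
  have e1 := Finset.add_sum_erase univ (fun u => x u * sg g x v u) (Finset.mem_univ h)
  beta_reduce at e1
  have h2 : x h * ((θ + 1) * (x h - x v)) ≤ x h * sg g x v h := by
    apply mul_le_mul_of_nonneg_left _ (D.xp h).le
    have := sg_ge D v h
    rw [D.gs h v, hg] at this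
    exact this
  have h3 : ∑ u ∈ univ.erase h, x u * (θ * p x u v) ≤
      ∑ u ∈ univ.erase h, x u * sg g x v u := by
    refine Finset.sum_le_sum fun u hu => mul_le_mul_of_nonneg_left ?_ (D.xp u).le
    have h3 := sg_ge' D v u
    have h4 : 0 ≤ g u v * p x u v := mul_nonneg (g_nonneg D u v) (p_nonneg u v)
    nlinarith
  have h4 : ∑ u ∈ univ.erase h, x u * (θ * p x u v) = θ * ∑ u ∈ univ.erase h, x u * p x u v := by
    rw [Finset.mul_sum]
    exact Finset.sum_congr rfl fun u _ => by ring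
  have h5 := caseA D v (univ.erase h) (fun u hu => hthird u (Finset.ne_of_mem_erase hu))
  have h9 : θ * ((1 + 1 / θ) * (x h * (x h - x v)) + ∑ u ∈ univ.erase h, 2 * P x u v ^ 2) ≤
      θ * nu g x v := by
    rw [h1, ← e1]
    have h6 := D.tp
    rw [h4] at h3
    have h7 : θ * ((1 + 1 / θ) * (x h * (x h - x v))) = x h * ((θ + 1) * (x h - x v)) := by
      field_simp
    nlinarith [mul_le_mul_of_nonneg_left h5 h6.le]
  exact le_of_mul_le_mul_left h9 D.tp


/-- the neighbours of the hub together, large `θ` -/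
theorem hubsum_large (D : Data g x θ) (h : V) (hh : 27 / 64 ≤ x h ^ 2) (ht : 27 / 5 ≤ θ) :
    ∑ v, g v h * (2 * (x h ^ 2 - x v ^ 2) ^ 2) ≤
      ∑ v, g v h * ((1 + 1 / θ) * (x h * (x h - x v))) := by
  have hle := le_half D h
  have htp := D.tp
  have hX := D.xp h
  set δ := 1 - 2 * x h ^ 2 with hδ
  have hδ0 : 0 ≤ δ := by rw [hδ]; linarith
  -- termwise bound
  have hterm : ∀ v, g v h * (-(x h / θ) * (θ * x v - x h) + δ * (x h ^ 2 - 2 * x v ^ 2)) ≤
      g v h * ((1 + 1 / θ) * (x h * (x h - x v)) - 2 * (x h ^ 2 - x v ^ 2) ^ 2) := by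
    intro v
    rcases D.g01 v h with h0 | h0
    · rw [h0]; simp
    · rw [h0, one_mul, one_mul]
      have h1 := theta_ge D v h
      rw [h0, one_mul] at h1
      have h2 : x h / θ ≤ x v := by rw [div_le_iff₀ htp]; linarith
      have hY := D.xp v
      have h3 : x v ^ 2 ≤ 1 / 2 := le_half D v
      have e1 : (1 + 1 / θ) * (x h * (x h - x v)) - 2 * (x h ^ 2 - x v ^ 2) ^ 2 -
          (-(x h / θ) * (θ * x v - x h) + δ * (x h ^ 2 - 2 * x v ^ 2)) =
          2 * x v ^ 2 - (x h / θ) * x v - 2 * x v ^ 4 := by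
        rw [hδ]
        field_simp
        ring
      have h4 : 0 ≤ 2 * x v ^ 2 - (x h / θ) * x v - 2 * x v ^ 4 := by
        have h5 : (x h / θ) * x v ≤ x v * x v := mul_le_mul_of_nonneg_right h2 hY.le
        nlinarith [sq_nonneg (x v)]
      linarith
  have hsum := Finset.sum_le_sum fun v (_ : v ∈ (univ : Finset V)) => hterm v
  -- evaluate
  set F := ∑ v, g v h * (θ * x v - x h) with hF
  have hF0 : 0 ≤ F := by
    rw [hF]
    refine Finset.sum_nonneg fun v _ => ?_
    rcases D.g01 v h with h0 | h0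
    · rw [h0]; simp
    · have h1 := theta_ge D v h
      rw [h0] at h1 ⊢
      linarith
  set d := ∑ v, g v h with hd
  set Nh := ∑ v, g v h * x v ^ 2 with hNh
  have hNh1 : Nh ≤ 1 - x h ^ 2 := by
    have e1 := Finset.add_sum_erase univ (fun v => x v ^ 2) (Finset.mem_univ h)
    have e2 := Finset.add_sum_erase univ (fun v => g v h * x v ^ 2) (Finset.mem_univ h)
    beta_reduce at e1 e2
    rw [D.g0, zero_mul, zero_add] at e2
    rw [D.nrm] at e1
    have : ∑ v ∈ univ.erase h, g v h * x v ^ 2 ≤ ∑ v ∈ univ.erase h, x v ^ 2 := by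
      refine Finset.sum_le_sum fun v _ => ?_
      rcases D.g01 v h with h0 | h0 <;> rw [h0]
      · have := sq_nonneg (x v); linarith
      · linarith
    rw [hNh, ← e2]
    linarith
  have hNh0 : 0 ≤ Nh := Finset.sum_nonneg fun v _ => mul_nonneg (g_nonneg D v h) (sq_nonneg _)
  -- θ² α ≤ d Nh
  have hcs : θ ^ 2 * x h ^ 2 ≤ d * Nh := by
    have e1 : θ * x h = ∑ v, g v h * (g v h * x v) := by
      rw [← D.eig h]
      refine Finset.sum_congr rfl fun v _ => ?_
      rw [D.gs h v]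
      rcases D.g01 v h with h0 | h0 <;> rw [h0] <;> ring
    have e2 := Finset.sum_mul_sq_le_sq_mul_sq univ (fun v => g v h) (fun v => g v h * x v)
    rw [← e1] at e2
    have e3 : ∑ v, g v h ^ 2 = d := Finset.sum_congr rfl fun v _ => by
      rcases D.g01 v h with h0 | h0 <;> rw [h0] <;> ring
    have e4 : ∑ v, (g v h * x v) ^ 2 = Nh := Finset.sum_congr rfl fun v _ => by
      rcases D.g01 v h with h0 | h0 <;> rw [h0] <;> ring
    rw [e3, e4] at e2
    nlinarith
  have hd0 : 0 ≤ d := Finset.sum_nonneg fun v _ => g_nonneg D v h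
  -- θ² δ ≥ x_h F
  have hδF : x h * F ≤ θ ^ 2 * δ := by
    have h1 := hub_eq D h
    have h2 : ∑ v ∈ univ.erase h, g v h * (x h / θ * (θ * x v - x h)) ≤
        ∑ v ∈ univ.erase h, x v * (θ * x v - g v h * x h) := by
      refine Finset.sum_le_sum fun v _ => ?_
      rcases D.g01 v h with h0 | h0
      · rw [h0]; have := D.xp v; simp; positivity
      · have h3 := theta_ge D v h
        rw [h0] at h3 ⊢
        rw [one_mul] at h3 ⊢
        have h4 : x h / θ ≤ x v := by rw [div_le_iff₀ htp]; linarith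
        exact mul_le_mul_of_nonneg_right h4 (by linarith) |>.trans (le_of_eq (by ring))
    have h3 : ∑ v ∈ univ.erase h, g v h * (x h / θ * (θ * x v - x h)) = x h / θ * F := by
      have e2 := Finset.add_sum_erase univ (fun v => g v h * (x h / θ * (θ * x v - x h))) (Finset.mem_univ h)
      beta_reduce at e2
      rw [D.g0, zero_mul, zero_add] at e2
      rw [e2, hF, Finset.mul_sum]
      exact Finset.sum_congr rfl fun v _ => by ring
    rw [h3, ← h1] at h2
    have h4 : x h / θ * F * θ ≤ θ * (1 - 2 * x h ^ 2) * θ := mul_le_mul_of_nonneg_right h2 htp.le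
    have h5 : x h / θ * F * θ = x h * F := by field_simp
    rw [h5] at h4
    rw [hδ]
    nlinarith
  have hev : ∑ v, g v h * (-(x h / θ) * (θ * x v - x h) + δ * (x h ^ 2 - 2 * x v ^ 2)) =
      -(x h / θ) * F + δ * (x h ^ 2 * d - 2 * Nh) := by
    rw [hF, hd, hNh, Finset.mul_sum, Finset.mul_sum, Finset.mul_sum, ← Finset.sum_sub_distrib,
      Finset.mul_sum, ← Finset.sum_add_distrib]
    exact Finset.sum_congr rfl fun v _ => by ring
  rw [hev] at hsum
  have hev2 : ∑ v, g v h * ((1 + 1 / θ) * (x h * (x h - x v)) - 2 * (x h ^ 2 - x v ^ 2) ^ 2) =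
      ∑ v, g v h * ((1 + 1 / θ) * (x h * (x h - x v))) -
        ∑ v, g v h * (2 * (x h ^ 2 - x v ^ 2) ^ 2) := by
    rw [← Finset.sum_sub_distrib]
    exact Finset.sum_congr rfl fun v _ => by ring
  rw [hev2] at hsum
  -- main numeric estimate
  have hα1 : 1 - x h ^ 2 ≤ 37 / 64 := by linarith
  have hkey : θ ≤ x h ^ 2 * d - 2 * Nh := by
    have h1 : θ ^ 2 * x h ^ 2 ≤ d * (37 / 64) := hcs.trans (mul_le_mul_of_nonneg_left (by linarith) hd0)
    have h2 : (27 / 64) * (θ ^ 2 * (27 / 64)) * (64 / 37) ≤ x h ^ 2 * d := by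
      have h3 : θ ^ 2 * (27 / 64) ≤ θ ^ 2 * x h ^ 2 := mul_le_mul_of_nonneg_left hh (sq_nonneg _)
      have h4 : θ ^ 2 * (27 / 64) * (64 / 37) ≤ d := by linarith
      have h5 : (27 / 64) * d ≤ x h ^ 2 * d := mul_le_mul_of_nonneg_right hh hd0
      linarith
    nlinarith
  have hfin : 0 ≤ -(x h / θ) * F + δ * (x h ^ 2 * d - 2 * Nh) := by
    have h1 : δ * θ ≤ δ * (x h ^ 2 * d - 2 * Nh) := mul_le_mul_of_nonneg_left hkey hδ0
    have h2 : (x h / θ) * F ≤ δ * θ := by
      rw [div_mul_eq_mul_div, div_le_iff₀ htp]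
      nlinarith
    linarith
  linarith

/-- the neighbours of the hub together, small `θ` -/
theorem hubsum_small (D : Data g x θ) (h : V) (ht : θ ≤ 27 / 5)
    (hmax : ∀ u, x u ≤ x h) :
    ∑ v, g v h * (2 * (x h ^ 2 - x v ^ 2) ^ 2) ≤
      ∑ v, g v h * ((1 + 1 / θ) * (x h * (x h - x v))) := by
  refine Finset.sum_le_sum fun v _ => mul_le_mul_of_nonneg_left ?_ (g_nonneg D v h)
  have h1 := poly1 (x h) (x v) (D.xp h).le (D.xp v).le (hmax v)
  have h2 := le_half D h
  have h3 : 0 ≤ x h * (x h - x v) := mul_nonneg (D.xp h).le (sub_nonneg.mpr (hmax v))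
  have h4 : 5 / 27 ≤ 1 / θ := by
    rw [le_div_iff₀ D.tp]; linarith
  have h5 : 64 / 27 * x h ^ 2 * (x h * (x h - x v)) ≤ 32 / 27 * (x h * (x h - x v)) := by
    apply mul_le_mul_of_nonneg_right _ h3
    linarith
  have h6 : 32 / 27 * (x h * (x h - x v)) ≤ (1 + 1 / θ) * (x h * (x h - x v)) := by
    apply mul_le_mul_of_nonneg_right _ h3
    linarith
  linarith


theorem sum_P (x : V → ℝ) : ∑ v, ∑ u, 2 * P x u v ^ 2 = ∑ u, ∑ v, (x u ^ 2 - x v ^ 2) ^ 2 := by
  have h1 : ∀ u v, (x u ^ 2 - x v ^ 2) ^ 2 = P x u v ^ 2 + P x v u ^ 2 := by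
    intro u v
    unfold P
    rcases le_total (x u ^ 2) (x v ^ 2) with h | h
    · rw [max_eq_right (a := x u ^ 2 - x v ^ 2) (by linarith),
        max_eq_left (a := x v ^ 2 - x u ^ 2) (by linarith)]
      ring
    · rw [max_eq_left (a := x u ^ 2 - x v ^ 2) (by linarith),
        max_eq_right (a := x v ^ 2 - x u ^ 2) (by linarith)]
      ring
  simp_rw [h1, Finset.sum_add_distrib]
  have h2 : ∑ u, ∑ v, P x u v ^ 2 = ∑ v, ∑ u, P x u v ^ 2 := Finset.sum_comm
  rw [h2]
  simp_rw [← Finset.mul_sum]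
  ring

/-- the main inequality, if `θ ≥ 7/5` -/
theorem main (D : Data g x θ) (ht : 7 / 5 ≤ θ) :
    ∑ u, ∑ v, (x u ^ 2 - x v ^ 2) ^ 2 ≤ ∑ v, nu g x v := by
  rw [← sum_P]
  by_cases hA : ∀ u, x u ^ 2 ≤ 27 / 64
  · refine Finset.sum_le_sum fun v _ => ?_
    exact (caseA D v univ (fun u _ => hA u)).trans (nu_ge D v)
  · push Not at hA
    obtain ⟨h0, hh0⟩ := hA
    obtain ⟨h, -, hmax⟩ := Finset.exists_max_image univ x ⟨h0, Finset.mem_univ h0⟩
    have hmax' : ∀ u, x u ≤ x h := fun u => hmax u (Finset.mem_univ u)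
    have hh : 27 / 64 ≤ x h ^ 2 := by
      have := pow_le_pow_left₀ (D.xp h0).le (hmax' h0) 2
      linarith
    have hub : ∑ v, g v h * (2 * (x h ^ 2 - x v ^ 2) ^ 2) ≤
        ∑ v, g v h * ((1 + 1 / θ) * (x h * (x h - x v))) := by
      rcases le_total θ (27 / 5) with h1 | h1
      · exact hubsum_small D h h1 hmax'
      · exact hubsum_large D h hh h1
    have hP : ∀ v, P x h v = x h ^ 2 - x v ^ 2 := by
      intro v
      unfold P
      rw [max_eq_left]
      have := pow_le_pow_left₀ (D.xp v).le (hmax' v) 2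
      linarith
    have hv : ∀ v, ∑ u, 2 * P x u v ^ 2 ≤ nu g x v + (g v h * (2 * (x h ^ 2 - x v ^ 2) ^ 2) -
        g v h * ((1 + 1 / θ) * (x h * (x h - x v)))) := by
      intro v
      by_cases hvh : v = h
      · subst hvh
        rw [D.g0]
        have h1 : ∑ u, 2 * P x u v ^ 2 = 0 := by
          refine Finset.sum_eq_zero fun u _ => ?_
          unfold P
          rw [max_eq_right]
          · ring
          · have := pow_le_pow_left₀ (D.xp u).le (hmax' u) 2
            linarith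
        rw [h1]
        have := nu_nonneg D v
        linarith
      · rcases D.g01 v h with h0 | h0
        · rw [h0]
          have := caseB1 D ht h hh hmax' v hvh h0
          linarith
        · have h1 := caseB3 D ht h hh v h0
          rw [h0, ← Finset.add_sum_erase univ (fun u => 2 * P x u v ^ 2) (Finset.mem_univ h), hP v]
          linarith
    have hsum := Finset.sum_le_sum fun v (_ : v ∈ (univ : Finset V)) => hv v
    rw [Finset.sum_add_distrib, Finset.sum_sub_distrib] at hsum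
    linarith

theorem deg_le (D : Data g x θ) (v : V) : ∑ u, g v u ≤ θ ^ 2 := by
  have h1 : (∑ u, g v u) * x v ≤ θ ^ 2 * x v := by
    have h2 : θ ^ 2 * x v = ∑ u, g v u * (θ * x u) := by
      have : ∑ u, g v u * (θ * x u) = θ * ∑ u, g v u * x u := by
        rw [Finset.mul_sum]
        exact Finset.sum_congr rfl fun u _ => by ring
      rw [this, D.eig v]
      ring
    rw [h2, Finset.sum_mul]
    refine Finset.sum_le_sum fun u _ => ?_
    rcases D.g01 v u with h0 | h0
    · rw [h0]; simp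
    · have h3 := theta_ge D u v
      rw [D.gs u v, h0] at h3
      rw [h0]
      linarith
  exact le_of_mul_le_mul_right h1 (D.xp v)

/-- Hong's inequality with the remainder -/
theorem hong (D : Data g x θ) (hd : ∀ v, 1 ≤ ∑ u, g v u) :
    ∑ v, nu g x v ≤ ∑ v, ((∑ u, g v u) * (1 - x v ^ 2) - θ ^ 2 * x v ^ 2) := by
  refine Finset.sum_le_sum fun v _ => ?_
  have e1 : θ * x v = ∑ u, g v u * (g v u * x u) := by
    rw [← D.eig v]
    refine Finset.sum_congr rfl fun u _ => ?_
    rcases D.g01 v u with h0 | h0 <;> rw [h0] <;> ring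
  have e2 := Finset.sum_mul_sq_le_sq_mul_sq univ (fun u => g v u) (fun u => g v u * x u)
  rw [← e1] at e2
  have e3 : ∑ u, g v u ^ 2 = ∑ u, g v u := Finset.sum_congr rfl fun u _ => by
    rcases D.g01 v u with h0 | h0 <;> rw [h0] <;> ring
  have e4 : ∑ u, (g v u * x u) ^ 2 = 1 - x v ^ 2 - nu g x v := by
    unfold nu nb
    have : ∀ u, (g v u * x u) ^ 2 = x u ^ 2 - (if v = u then x u ^ 2 else 0) -
        (1 - g v u - (if v = u then 1 else 0)) * x u ^ 2 := by
      intro u
      split_ifs with h <;> rcases D.g01 v u with h0 | h0 <;> rw [h0] <;> ring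
    rw [Finset.sum_congr rfl fun u _ => this u, Finset.sum_sub_distrib, Finset.sum_sub_distrib,
      D.nrm, Finset.sum_ite_eq]
    simp
  rw [e3, e4] at e2
  have h1 := nu_nonneg D v
  have h2 := hd v
  nlinarith

end Pool.Agent.R29.Mix
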