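import Mathlib
import Pool.Agent.R29.Mix
import Pool.Agent.R2.Perron

/-!
# Spectral part: the trace of the average mixing matrix
-/

set_option autoImplicit false
set_option linter.unusedSectionVars false
set_option linter.unnecessarySeqFocus false

open Finset Matrix

namespace Pool.Agent.R29.MixB

variable {V : Type} [Fintype V] [DecidableEq V]

/-- `E` and `θ` form the spectral decomposition of the matrix `A`: the numbers `θ r` are distinct, the
matrices `E r` are symmetric, idempotent, mutually orthogonal, sum to `1`, and `A = ∑ θ r E r`. -/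
structure Spec (A : Matrix V V ℝ) {k : ℕ} (θ : Fin k → ℝ)
    (E : Fin k → Matrix V V ℝ) : Prop where
  distinct : Function.Injective θ
  symm : ∀ r, (E r)ᵀ = E r
  idem : ∀ r, E r * E r = E r
  orth : ∀ r s, r ≠ s → E r * E s = 0
  sum_one : ∑ r, E r = 1
  sum_eq : ∑ r, θ r • E r = A

section
variable {A : Matrix V V ℝ} {k : ℕ} {θ : Fin k → ℝ} {E : Fin k → Matrix V V ℝ}

theorem Spec.mul_E (S : Spec A θ E) (s : Fin k) : A * E s = θ s • E s := by
  rw [← S.sum_eq, Finset.sum_mul, Finset.sum_eq_single s]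
  · rw [smul_mul_assoc, S.idem]
  · intro r _ hr
    rw [smul_mul_assoc, S.orth r s hr, smul_zero]
  · intro h; exact absurd (Finset.mem_univ s) h

theorem Spec.E_mul (S : Spec A θ E) (s : Fin k) : E s * A = θ s • E s := by
  rw [← S.sum_eq, Finset.mul_sum, Finset.sum_eq_single s]
  · rw [mul_smul_comm, S.idem]
  · intro r _ hr
    rw [mul_smul_comm, S.orth s r hr.symm, smul_zero]
  · intro h; exact absurd (Finset.mem_univ s) h

theorem Spec.sq (S : Spec A θ E) : ∑ r, θ r ^ 2 • E r = A * A := by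
  conv_rhs => rw [← S.sum_eq, Finset.sum_mul]
  refine Finset.sum_congr rfl fun r _ => ?_
  rw [smul_mul_assoc, Finset.mul_sum, Finset.sum_eq_single r]
  · rw [mul_smul_comm, S.idem, smul_smul, pow_two]
  · intro s _ hs
    rw [mul_smul_comm, S.orth r s hs.symm, smul_zero]
  · intro h; exact absurd (Finset.mem_univ r) h

theorem Spec.diag_nonneg (S : Spec A θ E) (r : Fin k) (v : V) : 0 ≤ E r v v := by
  have h := congrFun (congrFun (S.idem r) v) v
  rw [Matrix.mul_apply] at h
  rw [← h]
  refine Finset.sum_nonneg fun u _ => ?_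
  have h2 := congrFun (congrFun (S.symm r) v) u
  rw [Matrix.transpose_apply] at h2
  rw [h2]
  exact mul_self_nonneg _

theorem Spec.diag_sum (S : Spec A θ E) (v : V) : ∑ r, E r v v = 1 := by
  have h := congrFun (congrFun S.sum_one v) v
  rw [Matrix.sum_apply] at h
  simpa using h

theorem Spec.diag_le (S : Spec A θ E) (r : Fin k) (v : V) : E r v v ≤ 1 := by
  rw [← S.diag_sum v]
  exact Finset.single_le_sum (f := fun r => E r v v) (fun r _ => S.diag_nonneg r v) (Finset.mem_univ r)

/-- a nonzero projection has trace at least one -/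
theorem Spec.trace_ge (S : Spec A θ E) (r : Fin k) (v : V) (hv : E r v v ≠ 0) :
    1 ≤ ∑ u, E r u u := by
  -- c = column v; c^T E c = c^T c ; Cauchy-Schwarz
  have hs : ∀ a b, E r a b = E r b a := by
    intro a b
    have h2 := congrFun (congrFun (S.symm r) b) a
    rw [Matrix.transpose_apply] at h2
    exact h2
  have hid : ∀ a b, ∑ c, E r a c * E r c b = E r a b := by
    intro a b
    have h := congrFun (congrFun (S.idem r) a) b
    rw [Matrix.mul_apply] at h
    exact h
  set t := E r v v with ht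
  have htp : 0 < t := lt_of_le_of_ne (S.diag_nonneg r v) (Ne.symm hv)
  have h1 : ∑ u, E r u v ^ 2 = t := by
    rw [ht, ← hid v v]
    refine Finset.sum_congr rfl fun u _ => ?_
    rw [hs v u]; ring
  have h2 : ∀ u, E r u v ^ 2 ≤ E r u u * t := by
    intro u
    -- Cauchy-Schwarz
    have h3 := Finset.sum_mul_sq_le_sq_mul_sq univ (fun c => E r u c) (fun c => E r c v)
    rw [hid u v] at h3
    have h4 : ∑ c, E r u c ^ 2 = E r u u := by
      rw [← hid u u]
      refine Finset.sum_congr rfl fun c _ => ?_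
      rw [hs c u]; ring
    rw [h4, h1] at h3
    exact h3
  have h3 := Finset.sum_le_sum fun u (_ : u ∈ (univ : Finset V)) => h2 u
  rw [h1, ← Finset.sum_mul] at h3
  by_contra hc
  push Not at hc
  nlinarith

end

section Graph
variable (G : SimpleGraph V) [DecidableRel G.Adj]

/-- the largest eigenvalue of a connected graph is simple -/
theorem simple (hG : G.Connected) (x z : V → ℝ) (lam : ℝ) (hx : ∀ v, 0 < x v)
    (hAx : (G.adjMatrix ℝ) *ᵥ x = lam • x) (hAz : (G.adjMatrix ℝ) *ᵥ z = lam • z) :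
    ∃ t : ℝ, z = t • x := by
  obtain ⟨v1⟩ := hG.nonempty
  obtain ⟨v0, -, hv0⟩ := Finset.exists_min_image univ (fun v => z v / x v) ⟨v1, Finset.mem_univ v1⟩
  set t := z v0 / x v0 with ht
  set w : V → ℝ := fun v => z v - t * x v with hw
  have hw0 : ∀ v, 0 ≤ w v := by
    intro v
    have h1 := hv0 v (Finset.mem_univ v)
    beta_reduce at h1
    rw [le_div_iff₀ (hx v)] at h1
    rw [hw]; simp only; linarith
  have hAw : ∀ v, ∑ u, (if G.Adj v u then w u else 0) = lam * w v := by
    intro v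
    have h1 := congrFun hAx v
    have h2 := congrFun hAz v
    rw [SimpleGraph.adjMatrix_mulVec_apply, Pi.smul_apply, smul_eq_mul] at h1 h2
    have h3 : ∑ u, (if G.Adj v u then w u else 0) = ∑ u ∈ G.neighborFinset v, w u := by
      rw [SimpleGraph.neighborFinset_eq_filter, Finset.sum_filter]
    rw [h3, hw]
    simp only [Finset.sum_sub_distrib, ← Finset.mul_sum]
    rw [h1, h2]
    ring
  have hw_v0 : w v0 = 0 := by
    rw [hw]; simp only; rw [ht]
    field_simp [(hx v0).ne']
    ring
  have hstep : ∀ u v, G.Adj u v → w u = 0 → w v = 0 := by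
    intro u v huv hu
    have h1 := hAw u
    rw [hu, mul_zero] at h1
    have h2 := (Finset.sum_eq_zero_iff_of_nonneg (fun a _ => by
      split_ifs
      · exact hw0 a
      · exact le_rfl)).mp h1 v (Finset.mem_univ v)
    rw [if_pos huv] at h2
    exact h2
  have hall : ∀ v, w v = 0 := by
    intro v
    obtain ⟨p⟩ := hG.preconnected v0 v
    have : ∀ (a b : V) (p : G.Walk a b), w a = 0 → w b = 0 := by
      intro a b p
      induction p with
      | nil => exact id
      | cons hab p ih => exact fun ha => ih (hstep _ _ hab ha)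
    exact this _ _ p hw_v0
  refine ⟨t, ?_⟩
  ext v
  have := hall v
  rw [hw] at this
  simp only at this
  rw [Pi.smul_apply, smul_eq_mul]
  linarith

/-- normalised Perron vector and its place in the spectral decomposition -/
theorem exists_top (hG : G.Connected) {k : ℕ} {θ : Fin k → ℝ} {E : Fin k → Matrix V V ℝ}
    (S : Spec (G.adjMatrix ℝ) θ E) (lam : ℝ) (x : V → ℝ) (hx : ∀ v, 0 < x v)
    (hn : ∑ v, x v ^ 2 = 1) (hAx : (G.adjMatrix ℝ) *ᵥ x = lam • x) :
    ∃ r, θ r = lam ∧ ∀ v, E r v v = x v ^ 2 := by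
  have h0 : ∀ r, (θ r - lam) • (E r *ᵥ x) = 0 := by
    intro r
    have h1 : E r *ᵥ ((G.adjMatrix ℝ) *ᵥ x) = lam • (E r *ᵥ x) := by
      rw [hAx, Matrix.mulVec_smul]
    rw [Matrix.mulVec_mulVec, S.E_mul, Matrix.smul_mulVec] at h1
    rw [sub_smul, h1, sub_self]
  have hxne : x ≠ 0 := by
    obtain ⟨v⟩ := hG.nonempty
    intro h
    have := hx v
    rw [h] at this
    exact lt_irrefl _ this
  have hsum : ∑ r, E r *ᵥ x = x := by
    rw [← Matrix.sum_mulVec, S.sum_one, Matrix.one_mulVec]
  obtain ⟨r, hr⟩ : ∃ r, E r *ᵥ x ≠ 0 := by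
    by_contra hc
    push Not at hc
    apply hxne
    rw [← hsum]
    exact Finset.sum_eq_zero fun r _ => hc r
  have hθ : θ r = lam := by
    rcases smul_eq_zero.mp (h0 r) with h | h
    · linarith
    · exact absurd h hr
  have hEx : E r *ᵥ x = x := by
    conv_rhs => rw [← hsum]
    rw [Finset.sum_eq_single r]
    · intro s _ hs
      rcases smul_eq_zero.mp (h0 s) with h | h
      · exfalso
        apply hs
        apply S.distinct
        rw [hθ]; linarith
      · exact h
    · intro h; exact absurd (Finset.mem_univ r) h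
  refine ⟨r, hθ, ?_⟩
  -- columns
  have hcol : ∀ v, ∃ t : ℝ, ∀ u, E r u v = t * x u := by
    intro v
    have h1 : (G.adjMatrix ℝ) *ᵥ (fun u => E r u v) = lam • (fun u => E r u v) := by
      ext u
      have h2 := congrFun (congrFun (S.mul_E r) u) v
      rw [Matrix.mul_apply, Matrix.smul_apply, hθ] at h2
      rw [Pi.smul_apply, ← h2]
      rfl
    obtain ⟨t, ht⟩ := simple G hG x _ lam hx hAx h1
    exact ⟨t, fun u => congrFun ht u⟩
  choose t ht using hcol
  have hs : ∀ a b, E r a b = E r b a := by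
    intro a b
    have h2 := congrFun (congrFun (S.symm r) b) a
    rw [Matrix.transpose_apply] at h2
    exact h2
  have h1 : ∑ v, t v * x v = 1 := by
    obtain ⟨u⟩ := hG.nonempty
    have h2 := congrFun hEx u
    unfold Matrix.mulVec dotProduct at h2
    have h3 : ∑ v, E r u v * x v = (∑ v, t v * x v) * x u := by
      rw [Finset.sum_mul]
      exact Finset.sum_congr rfl fun v _ => by rw [ht v u]; ring
    rw [h3] at h2
    have := hx u
    have h4 : (∑ v, t v * x v - 1) * x u = 0 := by linarith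
    rcases mul_eq_zero.mp h4 with h | h
    · linarith
    · exact absurd h this.ne'
  intro v
  have h2 : ∀ u, t u * x v = t v * x u := by
    intro u
    rw [← ht u v, ← ht v u, hs]
  have h3 : t v = x v := by
    have h4 : ∑ u, (t u * x v) * x u = ∑ u, (t v * x u) * x u :=
      Finset.sum_congr rfl fun u _ => by rw [h2 u]
    have h5 : ∑ u, (t u * x v) * x u = x v * ∑ u, t u * x u := by
      rw [Finset.mul_sum]; exact Finset.sum_congr rfl fun u _ => by ring
    have h6 : ∑ u, (t v * x u) * x u = t v * ∑ u, x u ^ 2 := by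
      rw [Finset.mul_sum]; exact Finset.sum_congr rfl fun u _ => by ring
    rw [h5, h6, h1, hn] at h4
    linarith
  rw [ht v v, h3]
  ring

/-- the bound, pure real-number form at a single vertex -/
theorem vertex_bound {k : ℕ} (y t : Fin k → ℝ) (r0 : Fin k) (d a θ D : ℝ) (hD : 0 < D)
    (hy : ∀ r, 0 ≤ y r) (h1 : ∑ r, y r = 1) (h2 : ∑ r, t r * y r = 0)
    (h3 : ∑ r, t r ^ 2 * y r = d) (ha : y r0 = a) (ht : t r0 = θ)
    (hDs : ∀ r s, r ≠ s → r ≠ r0 → s ≠ r0 → y r ≠ 0 → y s ≠ 0 → t r ^ 2 + t s ^ 2 ≤ D) :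
    ∑ r, y r ^ 2 ≤ 1 - 2 * a + 2 * a ^ 2 - (d * (1 - a) - θ ^ 2 * a) / D := by
  classical
  set U : Finset (Fin k) := univ.erase r0 with hU
  have e1 : a + ∑ r ∈ U, y r = 1 := by
    rw [← h1, ← ha]; exact Finset.add_sum_erase univ y (Finset.mem_univ r0)
  have e2 : θ * a + ∑ r ∈ U, t r * y r = 0 := by
    rw [← h2, ← ha, ← ht]; exact Finset.add_sum_erase univ (fun r => t r * y r) (Finset.mem_univ r0)
  have e3 : θ ^ 2 * a + ∑ r ∈ U, t r ^ 2 * y r = d := by
    rw [← h3, ← ha, ← ht]; exact Finset.add_sum_erase univ (fun r => t r ^ 2 * y r) (Finset.mem_univ r0)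
  have e4 : a ^ 2 + ∑ r ∈ U, y r ^ 2 = ∑ r, y r ^ 2 := by
    rw [← ha]; exact Finset.add_sum_erase univ (fun r => y r ^ 2) (Finset.mem_univ r0)
  -- double sum
  have hpair : ∑ r ∈ U, ∑ s ∈ U, y r * y s * (t r - t s) ^ 2 ≤
      ∑ r ∈ U, ∑ s ∈ U, (if r = s then 0 else 2 * D * (y r * y s)) := by
    refine Finset.sum_le_sum fun r hr => Finset.sum_le_sum fun s hs => ?_
    split_ifs with h
    · rw [h]; simp
    · have hr' := Finset.ne_of_mem_erase hr
      have hs' := Finset.ne_of_mem_erase hs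
      by_cases h5 : y r = 0
      · rw [h5]; simp
      by_cases h6 : y s = 0
      · rw [h6]; simp
      have h7 := hDs r s h hr' hs' h5 h6
      have h8 : 0 ≤ y r * y s := mul_nonneg (hy r) (hy s)
      have h9 : (t r - t s) ^ 2 ≤ 2 * D := by nlinarith [sq_nonneg (t r + t s)]
      nlinarith
  have hL : ∑ r ∈ U, ∑ s ∈ U, y r * y s * (t r - t s) ^ 2 =
      2 * ((∑ r ∈ U, y r) * (∑ r ∈ U, t r ^ 2 * y r) - (∑ r ∈ U, t r * y r) ^ 2) := by
    have : ∀ r ∈ U, ∑ s ∈ U, y r * y s * (t r - t s) ^ 2 =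
        (t r ^ 2 * y r) * (∑ s ∈ U, y s) - 2 * (t r * y r) * (∑ s ∈ U, t s * y s) +
          y r * (∑ s ∈ U, t s ^ 2 * y s) := by
      intro r _
      rw [Finset.mul_sum, Finset.mul_sum, Finset.mul_sum, ← Finset.sum_sub_distrib,
        ← Finset.sum_add_distrib]
      exact Finset.sum_congr rfl fun s _ => by ring
    rw [Finset.sum_congr rfl this, Finset.sum_add_distrib, Finset.sum_sub_distrib,
      ← Finset.sum_mul, ← Finset.sum_mul, ← Finset.sum_mul]
    have h5 : ∑ i ∈ U, 2 * (t i * y i) = 2 * ∑ i ∈ U, t i * y i := by rw [Finset.mul_sum]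
    rw [h5]
    ring
  have hR : ∑ r ∈ U, ∑ s ∈ U, (if r = s then 0 else 2 * D * (y r * y s)) =
      2 * D * ((∑ r ∈ U, y r) ^ 2 - ∑ r ∈ U, y r ^ 2) := by
    have : ∀ r ∈ U, ∑ s ∈ U, (if r = s then 0 else 2 * D * (y r * y s)) =
        2 * D * (y r * (∑ s ∈ U, y s) - y r ^ 2) := by
      intro r hr
      have h5 : ∀ s, (if r = s then 0 else 2 * D * (y r * y s)) =
          2 * D * (y r * y s) - (if r = s then 2 * D * (y r * y s) else 0) := by
        intro s; split_ifs <;> ring
      rw [Finset.sum_congr rfl fun s _ => h5 s, Finset.sum_sub_distrib, Finset.sum_ite_eq, if_pos hr,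
        Finset.mul_sum, mul_sub, Finset.mul_sum]
      ring
    rw [Finset.sum_congr rfl this, ← Finset.mul_sum, Finset.sum_sub_distrib, ← Finset.sum_mul]
    ring
  rw [hL, hR] at hpair
  set Y1 := ∑ r ∈ U, y r
  set Y2 := ∑ r ∈ U, t r * y r
  set Y3 := ∑ r ∈ U, t r ^ 2 * y r
  set Y4 := ∑ r ∈ U, y r ^ 2
  have f1 : Y1 = 1 - a := by linarith
  have f2 : Y2 = - (θ * a) := by linarith
  have f3 : Y3 = d - θ ^ 2 * a := by linarith
  rw [f1, f2, f3] at hpair
  rw [← e4]
  have h5 : (d * (1 - a) - θ ^ 2 * a) / D ≤ (1 - a) ^ 2 - Y4 := by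
    rw [div_le_iff₀ hD]
    nlinarith
  linarith

end Graph

end Pool.Agent.R29.MixB
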