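import Mathlib
import Pool.Agent.R29.FRRel
import Pool.Agent.R29.MixB

/-!
# Cospectral vertices from closed walks; sign flips; Perron vector over the field it generates
-/

set_option autoImplicit false
set_option linter.unusedSectionVars false

open Matrix Finset

namespace Pool.Agent.R29.FR

section Cosp
variable {V : Type*} [Fintype V] [DecidableEq V]

theorem adjoin_diag {R : Type*} [CommRing R] (A : Matrix V V R) (a b : V)
    (h : ∀ k : ℕ, (A ^ k) a a = (A ^ k) b b) (N : Matrix V V (Polynomial R))
    (hN : N ∈ Algebra.adjoin (Polynomial R) {A.map Polynomial.C}) : N a a = N b b := by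
  rw [Algebra.adjoin_singleton_eq_range_aeval] at hN
  obtain ⟨q, rfl⟩ := hN
  have hq : ∀ u : V, ((Polynomial.aeval (A.map Polynomial.C)) q) u u
      = ∑ k ∈ q.support, q.coeff k * Polynomial.C ((A ^ k) u u) := by
    intro u
    rw [Polynomial.aeval_eq_sum_range' (n := q.natDegree + 1) (Nat.lt_succ_self _)]
    rw [Matrix.sum_apply]
    have hpow : ∀ k : ℕ, (A.map Polynomial.C) ^ k = (A ^ k).map Polynomial.C := by
      intro k
      have := (RingHom.mapMatrix (m := V) (Polynomial.C : R →+* Polynomial R)).map_pow A k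
      exact this.symm
    symm
    apply Finset.sum_subset_zero_on_sdiff
    · intro k hk
      rw [Finset.mem_range]
      exact Nat.lt_succ_of_le (Polynomial.le_natDegree_of_mem_supp k hk)
    · intro k hk
      rw [Finset.mem_sdiff, Polynomial.mem_support_iff, not_not] at hk
      rw [hk.2, zero_smul]; rfl
    · intro k _
      rw [hpow, Matrix.smul_apply, Matrix.map_apply, smul_eq_mul]
  change ((Polynomial.aeval (A.map Polynomial.C)) q) a a = ((Polynomial.aeval (A.map Polynomial.C)) q) b b
  rw [hq, hq]
  exact Finset.sum_congr rfl fun k _ => by rw [h k]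

theorem aeval_mem_adj {R S : Type*} [CommRing R] [Ring S] [Algebra R S] (B : Subalgebra R S) (x : S)
    (hx : x ∈ B) (p : Polynomial R) : Polynomial.aeval x p ∈ B := by
  rw [Polynomial.aeval_eq_sum_range]
  exact Subalgebra.sum_mem _ fun i _ => Subalgebra.smul_mem _ (Subalgebra.pow_mem _ hx i) _

theorem charmatrix_mem {R : Type*} [CommRing R] (A : Matrix V V R) :
    charmatrix A ∈ Algebra.adjoin (Polynomial R) {A.map Polynomial.C} := by
  have : charmatrix A = algebraMap (Polynomial R) _ Polynomial.X - A.map Polynomial.C := by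
    ext i j
    rw [charmatrix_apply, Matrix.sub_apply, Matrix.algebraMap_eq_diagonal, Matrix.map_apply]
    rfl
  rw [this]
  exact Subalgebra.sub_mem _ (Subalgebra.algebraMap_mem _ _)
    (Algebra.subset_adjoin (Set.mem_singleton _))

theorem charpoly_del {R : Type*} [CommRing R] [IsDomain R] (A : Matrix V V R) (a b : V)
    (h : ∀ k : ℕ, (A ^ k) a a = (A ^ k) b b) :
    (A.submatrix (fun i : {x // x ≠ a} => i.1) (fun i => i.1)).charpoly =
    (A.submatrix (fun i : {x // x ≠ b} => i.1) (fun i => i.1)).charpoly := by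
  have hM : (charmatrix A).det ≠ 0 := (Matrix.charpoly_monic A).ne_zero
  obtain ⟨p, hp⟩ := adjugate_eq_aeval (charmatrix A) hM
  have hsub : ∀ c : V, (A.submatrix (fun i : {x // x ≠ c} => i.1) (fun i => i.1)).charpoly
      = (charmatrix A).adjugate c c := by
    intro c
    rw [adjugate_diag, Matrix.charpoly]
    congr 1
    ext i j
    rw [Matrix.submatrix_apply, charmatrix_apply, charmatrix_apply, Matrix.submatrix_apply]
    congr 2
    by_cases hij : i = j
    · subst hij; simp
    · rw [Matrix.diagonal_apply_ne _ hij, Matrix.diagonal_apply_ne]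
      intro hc
      exact hij (Subtype.ext hc)
  rw [hsub a, hsub b]
  apply adjoin_diag A a b h
  rw [hp]
  exact aeval_mem_adj _ _ (charmatrix_mem A) p

end Cosp

section Tree
variable {V : Type} [Fintype V] [DecidableEq V] (T : SimpleGraph V) [DecidableRel T.Adj]

/-- the sign function of a rooted tree -/
noncomputable def sg (F : Type*) [CommRing F] (a v : V) : F := (-1) ^ (T.dist a v)

theorem sg_adj (hT : T.IsTree) (F : Type*) [CommRing F] (a : V) {u v : V} (huv : T.Adj u v) :
    sg T F a u = - sg T F a v := by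
  unfold sg
  rcases hT.dist_eq_dist_add_one_of_adj a huv with h | h
  · rw [h, pow_succ]; ring
  · rw [h, pow_succ]; ring

theorem sg_self (F : Type*) [CommRing F] (a : V) : sg T F a a = 1 := by
  simp [sg]

theorem sg_sq (F : Type*) [CommRing F] (a v : V) : sg T F a v * sg T F a v = 1 := by
  unfold sg
  rw [← pow_add, ← two_mul, pow_mul]; simp

theorem flip_eig (hT : T.IsTree) {F : Type*} [CommRing F] (a : V) (x : V → F) (θ : F)
    (h : (T.adjMatrix F) *ᵥ x = θ • x) :
    (T.adjMatrix F) *ᵥ (fun v => sg T F a v * x v) = (-θ) • (fun v => sg T F a v * x v) := by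
  ext v
  have h1 := congrFun h v
  rw [SimpleGraph.adjMatrix_mulVec_apply, Pi.smul_apply, smul_eq_mul] at h1
  rw [SimpleGraph.adjMatrix_mulVec_apply, Pi.smul_apply, smul_eq_mul]
  have h2 : ∑ u ∈ T.neighborFinset v, sg T F a u * x u
      = - sg T F a v * ∑ u ∈ T.neighborFinset v, x u := by
    rw [Finset.mul_sum]
    refine Finset.sum_congr rfl fun u hu => ?_
    rw [SimpleGraph.mem_neighborFinset] at hu
    rw [sg_adj T hT F a hu.symm]
  rw [h2, h1]; ring

theorem odd_diag (hT : T.IsTree) (F : Type*) [CommRing F] (a : V) (k : ℕ) (u v : V) :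
    sg T F a u * ((T.adjMatrix F) ^ k) u v * sg T F a v = (-1) ^ k * ((T.adjMatrix F) ^ k) u v := by
  induction k generalizing v with
  | zero =>
    by_cases huv : u = v
    · subst huv; simp only [pow_zero, Matrix.one_apply_eq, mul_one]; exact sg_sq T F a u
    · simp [Matrix.one_apply_ne huv]
  | succ k ih =>
    rw [pow_succ, Matrix.mul_apply, Finset.mul_sum, Finset.sum_mul, Finset.mul_sum]
    refine Finset.sum_congr rfl fun w _ => ?_
    have h1 := ih w
    rw [SimpleGraph.adjMatrix_apply]
    split_ifs with hwv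
    · have h2 := sg_adj T hT F a hwv
      have h3 : sg T F a v = - sg T F a w := by rw [h2]; ring
      rw [h3, mul_one]
      rw [pow_succ]
      linear_combination -h1
    · simp

theorem walk_one (hT : T.IsTree) (F : Type*) [CommRing F] (a b : V) :
    ((T.adjMatrix F) ^ (T.dist a b)) a b = 1 := by
  classical
  rw [SimpleGraph.adjMatrix_pow_apply_eq_card_walk]
  have h : Fintype.card {p : T.Walk a b | p.length = T.dist a b} = 1 := by
    rw [Fintype.card_eq_one_iff]
    obtain ⟨p, hp⟩ := (hT.connected.preconnected a b).exists_walk_length_eq_dist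
    refine ⟨⟨p, hp⟩, ?_⟩
    rintro ⟨q, hq⟩
    have h1 : p.IsPath := p.isPath_of_length_eq_dist hp
    have h2 : q.IsPath := q.isPath_of_length_eq_dist hq
    have h3 := hT.isAcyclic.path_unique ⟨p, h1⟩ ⟨q, h2⟩
    have h4 : p = q := congrArg Subtype.val h3
    exact Subtype.ext h4.symm
  rw [h]; simp

end Tree

end Pool.Agent.R29.FR
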