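import Mathlib
import Pool.Agent.R29.FRCosp

/-!
# Fractional revival in trees
-/

set_option autoImplicit false
set_option linter.unusedSectionVars false

open Matrix Finset

namespace Pool.Agent.R29.FR

variable {V : Type} [Fintype V] [DecidableEq V] (T : SimpleGraph V) [DecidableRel T.Adj]

theorem map_eig {K L : Type*} [CommRing K] [CommRing L] (f : K →+* L) (x : V → K) (θ : K)
    (h : (T.adjMatrix K) *ᵥ x = θ • x) :
    (T.adjMatrix L) *ᵥ (fun v => f (x v)) = f θ • (fun v => f (x v)) := by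
  ext v
  have h1 := congrFun h v
  rw [SimpleGraph.adjMatrix_mulVec_apply, Pi.smul_apply, smul_eq_mul] at h1 ⊢
  rw [← map_sum, h1, map_mul]

theorem simple_complex (hG : T.Connected) (q : V → ℝ) (lam : ℝ) (hq : ∀ v, 0 < q v)
    (hAq : (T.adjMatrix ℝ) *ᵥ q = lam • q) (z : V → ℂ)
    (hz : (T.adjMatrix ℂ) *ᵥ z = (lam : ℂ) • z)
    (a b : V) (hza : z a = 1) : z b = ((q b / q a : ℝ) : ℂ) := by
  have hre : (T.adjMatrix ℝ) *ᵥ (fun v => (z v).re) = lam • (fun v => (z v).re) := by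
    ext v
    have h1 := congrFun hz v
    rw [SimpleGraph.adjMatrix_mulVec_apply, Pi.smul_apply, smul_eq_mul] at h1 ⊢
    have h2 := congrArg Complex.re h1
    rw [Complex.re_sum, Complex.re_ofReal_mul] at h2
    exact h2
  have him : (T.adjMatrix ℝ) *ᵥ (fun v => (z v).im) = lam • (fun v => (z v).im) := by
    ext v
    have h1 := congrFun hz v
    rw [SimpleGraph.adjMatrix_mulVec_apply, Pi.smul_apply, smul_eq_mul] at h1 ⊢
    have h2 := congrArg Complex.im h1
    rw [Complex.im_sum, Complex.im_ofReal_mul] at h2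
    exact h2
  obtain ⟨t, ht⟩ := MixB.simple T hG q _ lam hq hAq hre
  obtain ⟨s, hs⟩ := MixB.simple T hG q _ lam hq hAq him
  have hta := congrFun ht a
  have hsa := congrFun hs a
  have htb := congrFun ht b
  have hsb := congrFun hs b
  simp only [Pi.smul_apply, smul_eq_mul, hza, Complex.one_re, Complex.one_im] at hta hsa htb hsb
  have hqa := (hq a).ne'
  have hs0 : s = 0 := by
    rcases mul_eq_zero.1 hsa.symm with h | h
    · exact h
    · exact absurd h hqa
  have ht1 : t = 1 / q a := by field_simp; linarith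
  apply Complex.ext
  · rw [htb, ht1, Complex.ofReal_re]; ring
  · rw [hsb, hs0, Complex.ofReal_im]; ring

theorem exists_field_vector (hG : T.Connected) (q : V → ℝ) (lam : ℝ) (hq : ∀ v, 0 < q v)
    (hAq : (T.adjMatrix ℝ) *ᵥ q = lam • q) {K : Type*} [Field K] (i : K →+* ℝ) (ρ : K)
    (hρ : i ρ = lam) (a : V) :
    ∃ x : V → K, (T.adjMatrix K) *ᵥ x = ρ • x ∧ ∀ v, i (x v) = q v / q a := by
  have hdet : (ρ • (1 : Matrix V V K) - T.adjMatrix K).det = 0 := by
    apply i.injective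
    rw [map_zero, RingHom.map_det]
    have : i.mapMatrix (ρ • (1 : Matrix V V K) - T.adjMatrix K)
        = lam • (1 : Matrix V V ℝ) - T.adjMatrix ℝ := by
      ext u v
      rw [RingHom.mapMatrix_apply, Matrix.map_apply, Matrix.sub_apply, Matrix.sub_apply, map_sub,
        Matrix.smul_apply, Matrix.smul_apply, smul_eq_mul, smul_eq_mul, map_mul, hρ,
        SimpleGraph.adjMatrix_apply, SimpleGraph.adjMatrix_apply, Matrix.one_apply,
        Matrix.one_apply]
      split_ifs <;> simp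
    rw [this, ← Matrix.exists_mulVec_eq_zero_iff]
    refine ⟨q, ?_, ?_⟩
    · intro h
      have := congrFun h a
      simp only [Pi.zero_apply] at this
      exact (hq a).ne' this
    · rw [Matrix.sub_mulVec, Matrix.smul_mulVec, Matrix.one_mulVec, hAq, sub_self]
  obtain ⟨x', hx', h⟩ := Matrix.exists_mulVec_eq_zero_iff.2 hdet
  have hAx' : (T.adjMatrix K) *ᵥ x' = ρ • x' := by
    rw [Matrix.sub_mulVec, Matrix.smul_mulVec, Matrix.one_mulVec] at h
    exact (sub_eq_zero.1 h).symm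
  have hreal := map_eig T i x' ρ hAx'
  rw [hρ] at hreal
  obtain ⟨t, ht⟩ := MixB.simple T hG q _ lam hq hAq hreal
  have ht' : ∀ v, i (x' v) = t * q v := by
    intro v
    have := congrFun ht v
    simpa using this
  have ht0 : t ≠ 0 := by
    rintro rfl
    apply hx'
    ext v
    apply i.injective
    rw [ht' v]; simp
  have hxa : x' a ≠ 0 := by
    intro h0
    have := ht' a
    rw [h0, map_zero] at this
    exact (mul_ne_zero ht0 (hq a).ne') this.symm
  refine ⟨(x' a)⁻¹ • x', ?_, ?_⟩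
  · rw [Matrix.mulVec_smul, hAx', smul_comm]
  · intro v
    have hqa := (hq a).ne'
    rw [Pi.smul_apply, smul_eq_mul, map_mul, map_inv₀, ht', ht']
    field_simp

theorem lam_integral (q : V → ℝ) (lam : ℝ) (a : V) (hqa : q a ≠ 0)
    (hAq : (T.adjMatrix ℝ) *ᵥ q = lam • q) : IsIntegral ℚ lam := by
  refine ⟨(T.adjMatrix ℚ).charpoly, Matrix.charpoly_monic _, ?_⟩
  have hdet : (lam • (1 : Matrix V V ℝ) - T.adjMatrix ℝ).det = 0 := by
    rw [← Matrix.exists_mulVec_eq_zero_iff]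
    refine ⟨q, ?_, ?_⟩
    · intro h
      have := congrFun h a
      exact hqa this
    · rw [Matrix.sub_mulVec, Matrix.smul_mulVec, Matrix.one_mulVec, hAq, sub_self]
  rw [Polynomial.eval₂_eq_eval_map, ← Matrix.charpoly_map]
  have hmap : (T.adjMatrix ℚ).map (algebraMap ℚ ℝ) = T.adjMatrix ℝ := by
    ext u v
    rw [Matrix.map_apply, SimpleGraph.adjMatrix_apply, SimpleGraph.adjMatrix_apply]
    split_ifs <;> simp
  rw [hmap, Matrix.eval_charpoly]
  rw [← hdet]
  congr 1
  ext u v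
  simp [Matrix.one_apply, Matrix.diagonal_apply]

/-- In the even case the Perron ratio is rational. -/
theorem ratio_rational (hT : T.IsTree) (q : V → ℝ) (lam : ℝ) (hq : ∀ v, 0 < q v)
    (hlam : 0 < lam)
    (hAq : (T.adjMatrix ℝ) *ᵥ q = lam • q) (a b : V) (hb : sg T ℂ a b = 1)
    (τ : ℝ) (hτ : 0 < τ) (α β : ℂ)
    (H : ∀ (y : V → ℂ) (θ : ℂ), (T.adjMatrix ℂ) *ᵥ y = θ • y →
        α * y a + β * y b = Complex.exp ((τ : ℂ) * Complex.I * θ) * y a) :
    ∃ c : ℚ, q b / q a = c := by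
  have hG := hT.connected
  have hint : IsIntegral ℚ lam := lam_integral T q lam a (hq a).ne' hAq
  set K := IntermediateField.adjoin ℚ {lam} with hK
  haveI : FiniteDimensional ℚ K := IntermediateField.adjoin.finiteDimensional hint
  set ρ : K := IntermediateField.AdjoinSimple.gen ℚ lam with hρdef
  set i : K →+* ℝ := K.val.toRingHom with hi
  have hρ : i ρ = lam := rfl
  obtain ⟨x, hAx, hx⟩ := exists_field_vector T hG q lam hq hAq i ρ hρ a
  have hxa : x a = 1 := by
    apply i.injective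
    rw [hx, map_one, div_self (hq a).ne']
  -- each embedding
  have key : ∀ σ : K →ₐ[ℚ] ℂ, (T.adjMatrix ℂ) *ᵥ (fun v => σ (x v)) = σ ρ • (fun v => σ (x v)) := by
    intro σ
    exact map_eig T σ.toRingHom x ρ hAx
  have hn : ∀ σ : K →ₐ[ℚ] ℂ, ∃ n : ℤ, σ ρ = n * ((Real.pi : ℂ) / τ) := by
    intro σ
    have h1 := H _ _ (key σ)
    have h2 := H _ _ (flip_eig T hT a _ _ (key σ))
    simp only [hxa, map_one, sg_self, hb, mul_one, one_mul] at h1 h2
    have h3 : Complex.exp ((τ : ℂ) * Complex.I * σ ρ) = Complex.exp ((τ : ℂ) * Complex.I * (-σ ρ)) := by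
      rw [← h1, ← h2]
    have h4 : Complex.exp (2 * ((τ : ℂ) * Complex.I * σ ρ)) = 1 := by
      have : 2 * ((τ : ℂ) * Complex.I * σ ρ) = (τ : ℂ) * Complex.I * σ ρ - (τ : ℂ) * Complex.I * (-σ ρ) := by ring
      rw [this, Complex.exp_sub, h3, div_self (Complex.exp_ne_zero _)]
    obtain ⟨n, hn⟩ := Complex.exp_eq_one_iff.1 h4
    refine ⟨n, ?_⟩
    have hτc : (τ : ℂ) ≠ 0 := by exact_mod_cast hτ.ne'
    have hI := Complex.I_ne_zero
    field_simp
    have h5 : (2 * Complex.I) * ((τ : ℂ) * σ ρ - n * Real.pi) = 0 := by linear_combination hn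
    rcases mul_eq_zero.1 h5 with h6 | h6
    · simp at h6
    · linear_combination h6
  choose n hn using hn
  -- inclusion
  set σ0 : K →ₐ[ℚ] ℂ := (Complex.ofRealAm.restrictScalars ℚ).comp K.val with hσ0
  have hσ0v : ∀ k : K, σ0 k = ((i k : ℝ) : ℂ) := fun k => rfl
  -- traces
  have htr := trace_eq_sum_embeddings (K := ℚ) (L := K) ℂ (x := ρ ^ 2)
  set r : ℚ := Algebra.trace ℚ K (ρ ^ 2) with hr
  set m : ℤ := ∑ σ : K →ₐ[ℚ] ℂ, n σ ^ 2 with hm
  have h1 : (r : ℂ) = m * ((Real.pi : ℂ) / τ) ^ 2 := by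
    have : (algebraMap ℚ ℂ) r = (r : ℂ) := rfl
    rw [← this, htr, hm]
    push_cast
    rw [Finset.sum_mul]
    refine Finset.sum_congr rfl fun σ _ => ?_
    rw [map_pow, hn σ]; ring
  have h2 : (lam : ℂ) = n σ0 * ((Real.pi : ℂ) / τ) := by
    rw [← hn σ0, hσ0v, hρ]
  have hn0 : n σ0 ≠ 0 := by
    intro h0
    rw [h0] at h2
    simp only [Int.cast_zero, zero_mul] at h2
    exact hlam.ne' (by exact_mod_cast h2)
  have hm0 : m ≠ 0 := by
    have : 0 < m := by
      rw [hm]
      refine lt_of_lt_of_le (pow_pos (abs_pos.2 hn0) 2) ?_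
      rw [sq_abs]
      exact Finset.single_le_sum (f := fun σ => n σ ^ 2) (fun σ _ => sq_nonneg _) (Finset.mem_univ σ0)
    exact this.ne'
  set N : ℚ := n σ0 ^ 2 * r / m with hN
  have hlamN : (lam : ℂ) ^ 2 = (N : ℂ) := by
    rw [hN]
    push_cast
    rw [h1, h2]
    have hmc : (m : ℂ) ≠ 0 := by exact_mod_cast hm0
    field_simp
  have hρN : ρ ^ 2 = algebraMap ℚ K N := by
    apply i.injective
    have h3 : i (algebraMap ℚ K N) = (N : ℝ) := rfl
    rw [map_pow, hρ, h3]
    exact_mod_cast hlamN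
  -- all embeddings fix x b
  have hfix : ∀ σ : K →ₐ[ℚ] ℂ, σ (x b) = ((q b / q a : ℝ) : ℂ) := by
    intro σ
    have h3 : (σ ρ) ^ 2 = (lam : ℂ) ^ 2 := by
      rw [← map_pow, hρN, AlgHom.commutes, hlamN]; rfl
    rcases sq_eq_sq_iff_eq_or_eq_neg.1 h3 with h4 | h4
    · have h5 := key σ
      rw [h4] at h5
      exact simple_complex T hG q lam hq hAq _ h5 a b (by simp [hxa])
    · have h5 := flip_eig T hT a _ _ (key σ)
      rw [h4, neg_neg] at h5
      have h6 := simple_complex T hG q lam hq hAq _ h5 a b (by simp [hxa, sg_self])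
      simpa [hb] using h6
  have htr2 := trace_eq_sum_embeddings (K := ℚ) (L := K) ℂ (x := x b)
  rw [Finset.sum_congr rfl fun σ _ => hfix σ, Finset.sum_const, nsmul_eq_mul] at htr2
  set M : ℕ := (Finset.univ : Finset (K →ₐ[ℚ] ℂ)).card with hM
  have hM0 : M ≠ 0 := by
    rw [hM]
    exact (Finset.card_pos.2 ⟨σ0, Finset.mem_univ _⟩).ne'
  refine ⟨Algebra.trace ℚ K (x b) / M, ?_⟩
  have h7 : ((Algebra.trace ℚ K (x b) : ℚ) : ℂ) = (M : ℂ) * ((q b / q a : ℝ) : ℂ) := htr2
  have h8 : ((Algebra.trace ℚ K (x b) : ℚ) : ℝ) = (M : ℝ) * (q b / q a : ℝ) := by exact_mod_cast h7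
  push_cast
  rw [h8]
  have : (M : ℝ) ≠ 0 := by exact_mod_cast hM0
  field_simp

end Pool.Agent.R29.FR
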