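import Mathlib
import Pool.Agent.R29.FRTree
import Pool.Agent.R29.FRGraph

/-!
# Fractional revival from a pair of cyclic modules with cubic relations
-/

set_option autoImplicit false
set_option linter.unusedSectionVars false

open Matrix Finset

namespace Pool.Agent.R29.FRM

open Pool.Agent.R29.FR

variable {V : Type} [Fintype V] [DecidableEq V]

/-- decomposition of `w` into eigenvectors for `p, p + s, p - s` -/
structure Decomp (A : Matrix V V ℝ) (w : V → ℝ) (p s : ℝ) (w0 w1 w2 : V → ℝ) : Prop where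
  sum : w = w0 + w1 + w2
  e0 : A *ᵥ w0 = p • w0
  e1 : A *ᵥ w1 = (p + s) • w1
  e2 : A *ᵥ w2 = (p - s) • w2

theorem decomp_of_cubic (A : Matrix V V ℝ) (w v1 v2 : V → ℝ) (p s : ℝ) (hs : s ≠ 0)
    (h1 : A *ᵥ w = p • w + v1) (h2 : A *ᵥ v1 = p • v1 + v2) (h3 : A *ᵥ v2 = p • v2 + s ^ 2 • v1) :
    Decomp A w p s (w - (1 / s ^ 2) • v2) ((1 / 2 : ℝ) • ((1 / s ^ 2) • v2 + (1 / s) • v1))
      ((1 / 2 : ℝ) • ((1 / s ^ 2) • v2 - (1 / s) • v1)) := by
  constructor
  · ext v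
    simp only [Pi.add_apply, Pi.sub_apply, Pi.smul_apply, smul_eq_mul]
    ring
  · rw [Matrix.mulVec_sub, Matrix.mulVec_smul, h1, h3]
    ext v
    simp only [Pi.add_apply, Pi.sub_apply, Pi.smul_apply, smul_eq_mul]
    field_simp
    ring
  · rw [Matrix.mulVec_smul, Matrix.mulVec_add, Matrix.mulVec_smul, Matrix.mulVec_smul, h2, h3]
    ext v
    simp only [Pi.add_apply, Pi.smul_apply, smul_eq_mul]
    field_simp
    ring
  · rw [Matrix.mulVec_smul, Matrix.mulVec_sub, Matrix.mulVec_smul, Matrix.mulVec_smul, h2, h3]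
    ext v
    simp only [Pi.add_apply, Pi.sub_apply, Pi.smul_apply, smul_eq_mul]
    field_simp
    ring

/-- complexification of a vector -/
def cx (w : V → ℝ) : V → ℂ := fun v => (w v : ℂ)

theorem U_apply (X : SimpleGraph V) [DecidableRel X.Adj] (w w0 w1 w2 : V → ℝ) (p s τ : ℝ)
    (D : Decomp (X.adjMatrix ℝ) w p s w0 w1 w2) (j : ℤ) (hτ : τ * s = 2 * Real.pi * j) :
    U (X.adjMatrix ℂ) τ *ᵥ (cx w) = Complex.exp ((τ : ℂ) * Complex.I * p) • cx w := by
  have hc : cx w = cx w0 + cx w1 + cx w2 := by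
    ext v
    have := congrFun D.sum v
    simp only [cx, this, Pi.add_apply]
    push_cast; rfl
  have hmap : ∀ (y : V → ℝ) (θ : ℝ), (X.adjMatrix ℝ) *ᵥ y = θ • y →
      U (X.adjMatrix ℂ) τ *ᵥ (cx y) = Complex.exp ((τ : ℂ) * Complex.I * (θ : ℝ)) • cx y := by
    intro y θ hy
    apply U_eig
    exact map_eig X Complex.ofRealHom y θ hy
  have h0 := hmap _ _ D.e0
  have h1 := hmap _ _ D.e1
  have h2 := hmap _ _ D.e2
  have hτc : (τ : ℂ) * s = 2 * Real.pi * j := by exact_mod_cast hτ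
  have e1 : Complex.exp ((τ : ℂ) * Complex.I * ((p + s : ℝ) : ℂ))
      = Complex.exp ((τ : ℂ) * Complex.I * p) := by
    have : (τ : ℂ) * Complex.I * ((p + s : ℝ) : ℂ)
        = (τ : ℂ) * Complex.I * p + j * (2 * Real.pi * Complex.I) := by
      push_cast
      linear_combination Complex.I * hτc
    rw [this, Complex.exp_add, Complex.exp_int_mul_two_pi_mul_I, mul_one]
  have e2 : Complex.exp ((τ : ℂ) * Complex.I * ((p - s : ℝ) : ℂ))
      = Complex.exp ((τ : ℂ) * Complex.I * p) := by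
    have : (τ : ℂ) * Complex.I * ((p - s : ℝ) : ℂ)
        = (τ : ℂ) * Complex.I * p + ((-j : ℤ) : ℂ) * (2 * Real.pi * Complex.I) := by
      push_cast
      linear_combination -Complex.I * hτc
    rw [this, Complex.exp_add, Complex.exp_int_mul_two_pi_mul_I, mul_one]
  rw [e1] at h1
  rw [e2] at h2
  rw [hc, Matrix.mulVec_add, Matrix.mulVec_add, h0, h1, h2, smul_add, smul_add]

/-- Fractional revival. -/
theorem revival (X : SimpleGraph V) [DecidableRel X.Adj] (a b : V) (c c' : ℝ) (hc : c ≠ c')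
    (wp wm : V → ℝ) (hwp : wp = Pi.single a 1 + c • Pi.single b 1)
    (hwm : wm = Pi.single a 1 + c' • Pi.single b 1) (τ : ℝ) (l l' : ℂ)
    (hp : U (X.adjMatrix ℂ) τ *ᵥ (cx wp) = l • cx wp)
    (hm : U (X.adjMatrix ℂ) τ *ᵥ (cx wm) = l' • cx wm) :
    U (X.adjMatrix ℂ) τ *ᵥ (Pi.single a 1) =
      (((c : ℂ) * l' - c' * l) / (c - c')) • Pi.single a (1 : ℂ)
        + ((c : ℂ) * c' * (l' - l) / (c - c')) • Pi.single b (1 : ℂ) := by
  have hcc : (c : ℂ) - c' ≠ 0 := by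
    rw [sub_ne_zero]; exact_mod_cast hc
  have hcp : cx wp = Pi.single a (1 : ℂ) + (c : ℂ) • Pi.single b (1 : ℂ) := by
    ext v
    simp only [cx, hwp, Pi.add_apply, Pi.smul_apply, smul_eq_mul, Pi.single_apply]
    split_ifs <;> simp
  have hcm : cx wm = Pi.single a (1 : ℂ) + (c' : ℂ) • Pi.single b (1 : ℂ) := by
    ext v
    simp only [cx, hwm, Pi.add_apply, Pi.smul_apply, smul_eq_mul, Pi.single_apply]
    split_ifs <;> simp
  have ha : (Pi.single a (1 : ℂ) : V → ℂ)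
      = ((c : ℂ) / (c - c')) • cx wm - ((c' : ℂ) / (c - c')) • cx wp := by
    rw [hcp, hcm]
    ext v
    simp only [Pi.add_apply, Pi.sub_apply, Pi.smul_apply, smul_eq_mul]
    field_simp
    ring
  rw [ha, Matrix.mulVec_sub, Matrix.mulVec_smul, Matrix.mulVec_smul, hp, hm, ← ha]
  rw [hcp, hcm]
  ext v
  simp only [Pi.add_apply, Pi.sub_apply, Pi.smul_apply, smul_eq_mul]
  field_simp
  ring

/-- Orthogonal projection onto the eigenspace of `A` for `θ`. -/
noncomputable def eproj (A : Matrix V V ℝ) (θ : ℝ) :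
    EuclideanSpace ℝ V →L[ℝ] EuclideanSpace ℝ V :=
  (Module.End.eigenspace (Matrix.toEuclideanLin A) θ).starProjection

theorem mem_eigenspace (A : Matrix V V ℝ) (θ : ℝ) (y : V → ℝ) (h : A *ᵥ y = θ • y) :
    WithLp.toLp 2 y ∈ Module.End.eigenspace (Matrix.toEuclideanLin A) θ := by
  rw [Module.End.mem_eigenspace_iff]
  rw [Matrix.toEuclideanLin_apply]
  ext v
  have := congrFun h v
  simpa using this

theorem eproj_self (A : Matrix V V ℝ) (θ : ℝ) (y : V → ℝ) (h : A *ᵥ y = θ • y) :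
    eproj A θ (WithLp.toLp 2 y) = WithLp.toLp 2 y :=
  Submodule.starProjection_eq_self_iff.2 (mem_eigenspace A θ y h)

theorem eproj_ne (A : Matrix V V ℝ) (hA : A.IsSymm) (θ θ' : ℝ) (hθ : θ' ≠ θ) (y : V → ℝ)
    (h : A *ᵥ y = θ' • y) : eproj A θ (WithLp.toLp 2 y) = 0 := by
  unfold eproj
  rw [Submodule.starProjection_apply_eq_zero_iff, Submodule.mem_orthogonal]
  intro z hz
  rw [Module.End.mem_eigenspace_iff, Matrix.toEuclideanLin_apply] at hz
  have hz' : A *ᵥ (WithLp.ofLp z) = θ • WithLp.ofLp z := by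
    have := congrArg WithLp.ofLp hz
    simpa using this
  rw [EuclideanSpace.inner_eq_star_dotProduct]
  simp only [star_trivial]
  have h1 : y ⬝ᵥ (A *ᵥ WithLp.ofLp z) = (A *ᵥ y) ⬝ᵥ WithLp.ofLp z := by
    rw [Matrix.dotProduct_mulVec, ← Matrix.mulVec_transpose, hA]
  rw [hz', h, dotProduct_smul, smul_dotProduct, smul_eq_mul, smul_eq_mul] at h1
  have h2 : (θ - θ') * (y ⬝ᵥ WithLp.ofLp z) = 0 := by linear_combination h1
  rcases mul_eq_zero.1 h2 with h3 | h3
  · exact absurd (sub_eq_zero.1 h3).symm hθ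
  · exact h3

/-- the projection of a combination of `wp` and `wm` -/
theorem eproj_comb (A : Matrix V V ℝ) (hA : A.IsSymm) (p p' s x y : ℝ) (hs : s ≠ 0)
    (h1 : p' ≠ p) (h2 : p' + s ≠ p) (h3 : p' - s ≠ p)
    (wp w0 w1 w2 wm u0 u1 u2 z : V → ℝ) (D : Decomp A wp p s w0 w1 w2)
    (D' : Decomp A wm p' s u0 u1 u2) (hz : z = x • wp + y • wm) :
    eproj A p (WithLp.toLp 2 z) = WithLp.toLp 2 (x • w0) := by
  have hz' : WithLp.toLp 2 z = x • (WithLp.toLp 2 w0 + WithLp.toLp 2 w1 + WithLp.toLp 2 w2)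
      + y • (WithLp.toLp 2 u0 + WithLp.toLp 2 u1 + WithLp.toLp 2 u2) := by
    rw [hz, D.sum, D'.sum]; rfl
  rw [hz']
  simp only [map_add, map_smul]
  rw [eproj_self A p w0 D.e0, eproj_ne A hA p (p + s) (by simpa using hs) w1 D.e1,
    eproj_ne A hA p (p - s) (by simpa using hs) w2 D.e2, eproj_ne A hA p p' h1 u0 D'.e0,
    eproj_ne A hA p (p' + s) h2 u1 D'.e1, eproj_ne A hA p (p' - s) h3 u2 D'.e2]
  simp

end Pool.Agent.R29.FRM
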