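import Mathlib
import Pool.Agent.R29.FRMain

/-!
# A graph with fractional revival between `a` and `b` for which the eigenvector ratio is irrational
(2818 vertices, support eigenvalues `36 ± 4√37`, `36 ± 4√37 ± √5536`)
-/

set_option autoImplicit false
set_option linter.unusedSectionVars false

open Matrix Finset

namespace Pool.Agent.R29.FREx

open Pool.Agent.R29.FR Pool.Agent.R29.FRG Pool.Agent.R29.FRM

theorem lift_lin {m : ℕ} (d : Data m) (p : ℝ) (g g' : Bool → ℝ) (f f' : Fin m → ℝ) :
    p • d.lift g f + d.lift g' f' = d.lift (fun e => p * g e + g' e) (fun i => p * f i + f' i) := by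
  ext v
  rcases v with e | x <;> rfl

theorem lift_lin2 {m : ℕ} (d : Data m) (p r : ℝ) (g g' : Bool → ℝ) (f f' : Fin m → ℝ) :
    p • d.lift g f + r • d.lift g' f'
      = d.lift (fun e => p * g e + r * g' e) (fun i => p * f i + r * f' i) := by
  ext v
  rcases v with e | x <;> rfl

theorem lift_congr {m : ℕ} (d : Data m) (g g' : Bool → ℝ) (f f' : Fin m → ℝ)
    (h : ∀ e, g e = g' e) (h' : ∀ i, f i = f' i) : d.lift g f = d.lift g' f' := by
  rw [funext h, funext h']

/-- the data of the graph -/
def d37 : Data 4 where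
  n := 352
  c := ![1, 1, 3, 3]
  k := ![![51, 9, 5, 3], ![9, 48, 3, 4], ![5, 3, 3, 9], ![3, 4, 9, 0]]
  s := fun e => if e then ![false, true, false, true] else ![true, false, true, false]
  n_pos := ⟨by norm_num⟩
  k_symm := by decide
  k_lt := by decide

/-- the functions `(g, f)` of the form `(x, c x)` on the pairs of cells -/
def pg (c x : ℝ) : Bool → ℝ := fun e => if e then c * x else x

def pf (c x y : ℝ) : Fin 4 → ℝ := ![x, c * x, y, c * y]

theorem mulVec37 (c x0 x1 x2 : ℝ) (hc : c ^ 2 = 1 - c / 3) :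
    (d37.graph.adjMatrix ℝ) *ᵥ (d37.lift (pg c x0) (pf c x1 x2)) =
      d37.lift (pg c (352 * x1 + 352 * 3 * x2))
        (pf c (x0 + (102 + 18 * c) * x1 + (30 + 18 * c) * x2)
          (x0 + (10 + 6 * c) * x1 + (18 + 54 * c) * x2)) := by
  rw [Data.mulVec_lift]
  apply lift_congr
  · intro e
    cases e <;> simp [Fin.sum_univ_four, d37, pg, pf]
    ring
  · intro i
    fin_cases i <;> simp [Fin.sum_univ_four, d37, pg, pf]
    · ring
    · linear_combination (-18 * x1 - 18 * x2) * hc
    · ring
    · linear_combination (-6 * x1 - 54 * x2) * hc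

/-- The cubic relation. -/
theorem decomp37 (c : ℝ) (hc : c ^ 2 = 1 - c / 3) (s : ℝ) (hs : s ^ 2 = 5536) :
    Decomp (d37.graph.adjMatrix ℝ) (d37.lift (pg c 1) (pf c 0 0)) (40 + 24 * c) s
      (d37.lift (pg c 1) (pf c 0 0) - (1 / s ^ 2) • d37.lift (pg c (3584 + 1728 * c)) (pf c (52 - 12 * c) (-52 + 12 * c)))
      ((1 / 2 : ℝ) • ((1 / s ^ 2) • d37.lift (pg c (3584 + 1728 * c)) (pf c (52 - 12 * c) (-52 + 12 * c)) + (1 / s) • d37.lift (pg c (-(40 + 24 * c))) (pf c 1 1)))
      ((1 / 2 : ℝ) • ((1 / s ^ 2) • d37.lift (pg c (3584 + 1728 * c)) (pf c (52 - 12 * c) (-52 + 12 * c)) - (1 / s) • d37.lift (pg c (-(40 + 24 * c))) (pf c 1 1))) := by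
  have hs0 : s ≠ 0 := by
    rintro rfl; norm_num at hs
  apply decomp_of_cubic _ _ _ _ _ _ hs0
  · rw [mulVec37 c _ _ _ hc, lift_lin]
    apply lift_congr
    · intro e; cases e <;> simp [pg] <;> ring
    · intro i; fin_cases i <;> simp [pf]
  · rw [mulVec37 c _ _ _ hc, lift_lin]
    apply lift_congr
    · intro e
      cases e <;> simp [pg]
      · linear_combination (576 : ℝ) * hc
      · linear_combination (576 * c : ℝ) * hc
    · intro i; fin_cases i <;> simp [pf] <;> ring
  · rw [mulVec37 c _ _ _ hc, hs, lift_lin2]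
    apply lift_congr
    · intro e
      cases e <;> simp [pg]
      · linear_combination (-41472 : ℝ) * hc
      · linear_combination (-41472 * c : ℝ) * hc
    · intro i
      fin_cases i <;> simp [pf]
      · linear_combination (288 : ℝ) * hc
      · linear_combination (288 * c : ℝ) * hc
      · linear_combination (288 : ℝ) * hc
      · linear_combination (288 * c : ℝ) * hc

end Pool.Agent.R29.FREx
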