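import Mathlib
import Pool.Agent.R29.FREx37

/-!
# A graph with balanced fractional revival between two vertices which are not cospectral
-/

set_option autoImplicit false
set_option linter.unusedSectionVars false

open Matrix Finset

namespace Pool.Agent.R29.FRBal

open Pool.Agent.R29.FR Pool.Agent.R29.FRG Pool.Agent.R29.FRM Pool.Agent.R29.FREx

section Abstract
variable {V : Type} [Fintype V] [DecidableEq V]

/-- decomposition of `w` into eigenvectors for `p, p + x, p + y` -/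
structure Decomp3 (A : Matrix V V ℝ) (w : V → ℝ) (p x y : ℝ) (w0 w1 w2 : V → ℝ) : Prop where
  sum : w = w0 + w1 + w2
  e0 : A *ᵥ w0 = p • w0
  e1 : A *ᵥ w1 = (p + x) • w1
  e2 : A *ᵥ w2 = (p + y) • w2

theorem decomp3_of_cubic (A : Matrix V V ℝ) (w v1 v2 : V → ℝ) (p x y : ℝ) (hx : x ≠ 0)
    (hy : y ≠ 0) (hxy : x - y ≠ 0)
    (h1 : A *ᵥ w = p • w + v1) (h2 : A *ᵥ v1 = p • v1 + v2)
    (h3 : A *ᵥ v2 = p • v2 + ((x + y) • v2 - (x * y) • v1)) :
    Decomp3 A w p x y (w - ((x + y) / (x * y)) • v1 + (1 / (x * y)) • v2)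
      ((1 / (x * (x - y))) • (v2 - y • v1)) ((-1 / (y * (x - y))) • (v2 - x • v1)) := by
  constructor
  · ext v
    simp only [Pi.add_apply, Pi.sub_apply, Pi.smul_apply, smul_eq_mul]
    field_simp
    ring
  · rw [Matrix.mulVec_add, Matrix.mulVec_sub, Matrix.mulVec_smul, Matrix.mulVec_smul, h1, h2, h3]
    ext v
    simp only [Pi.add_apply, Pi.sub_apply, Pi.smul_apply, smul_eq_mul]
    field_simp
    ring
  · rw [Matrix.mulVec_smul, Matrix.mulVec_sub, Matrix.mulVec_smul, h2, h3]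
    ext v
    simp only [Pi.add_apply, Pi.sub_apply, Pi.smul_apply, smul_eq_mul]
    field_simp
    ring
  · rw [Matrix.mulVec_smul, Matrix.mulVec_sub, Matrix.mulVec_smul, h2, h3]
    ext v
    simp only [Pi.add_apply, Pi.sub_apply, Pi.smul_apply, smul_eq_mul]
    field_simp
    ring

theorem phase_eq (τ p x : ℝ) (j : ℤ) (hτ : τ * x = 2 * Real.pi * j) :
    Complex.exp ((τ : ℂ) * Complex.I * ((p + x : ℝ) : ℂ))
      = Complex.exp ((τ : ℂ) * Complex.I * p) := by
  have hτc : (τ : ℂ) * x = 2 * Real.pi * j := by exact_mod_cast hτ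
  have : (τ : ℂ) * Complex.I * ((p + x : ℝ) : ℂ)
      = (τ : ℂ) * Complex.I * p + j * (2 * Real.pi * Complex.I) := by
    push_cast
    linear_combination Complex.I * hτc
  rw [this, Complex.exp_add, Complex.exp_int_mul_two_pi_mul_I, mul_one]

theorem U_apply3 (X : SimpleGraph V) [DecidableRel X.Adj] (w w0 w1 w2 : V → ℝ) (p x y τ : ℝ)
    (D : Decomp3 (X.adjMatrix ℝ) w p x y w0 w1 w2) (j j' : ℤ) (hτ : τ * x = 2 * Real.pi * j)
    (hτ' : τ * y = 2 * Real.pi * j') :
    U (X.adjMatrix ℂ) τ *ᵥ (cx w) = Complex.exp ((τ : ℂ) * Complex.I * p) • cx w := by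
  have hc : cx w = cx w0 + cx w1 + cx w2 := by
    ext v
    have := congrFun D.sum v
    simp only [cx, this, Pi.add_apply]
    push_cast; rfl
  have hmap : ∀ (y : V → ℝ) (θ : ℝ), (X.adjMatrix ℝ) *ᵥ y = θ • y →
      U (X.adjMatrix ℂ) τ *ᵥ (cx y) = Complex.exp ((τ : ℂ) * Complex.I * (θ : ℝ)) • cx y := by
    intro y θ hy
    apply U_eig
    exact map_eig X Complex.ofRealHom y θ hy
  have h0 := hmap _ _ D.e0
  have h1 := hmap _ _ D.e1
  have h2 := hmap _ _ D.e2
  rw [phase_eq τ p x j hτ] at h1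
  rw [phase_eq τ p y j' hτ'] at h2
  rw [hc, Matrix.mulVec_add, Matrix.mulVec_add, h0, h1, h2, smul_add, smul_add]

/-- the projection of a combination of `wp` and `wm` -/
theorem eproj_comb3 (A : Matrix V V ℝ) (hA : A.IsSymm) (p p' s t s' t' x y : ℝ) (hs : s ≠ 0)
    (ht : t ≠ 0) (h1 : p' ≠ p) (h2 : p' + s' ≠ p) (h3 : p' + t' ≠ p)
    (wp w0 w1 w2 wm u0 u1 u2 z : V → ℝ) (D : Decomp3 A wp p s t w0 w1 w2)
    (D' : Decomp3 A wm p' s' t' u0 u1 u2) (hz : z = x • wp + y • wm) :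
    eproj A p (WithLp.toLp 2 z) = WithLp.toLp 2 (x • w0) := by
  have hz' : WithLp.toLp 2 z = x • (WithLp.toLp 2 w0 + WithLp.toLp 2 w1 + WithLp.toLp 2 w2)
      + y • (WithLp.toLp 2 u0 + WithLp.toLp 2 u1 + WithLp.toLp 2 u2) := by
    rw [hz, D.sum, D'.sum]; rfl
  rw [hz']
  simp only [map_add, map_smul]
  rw [eproj_self A p w0 D.e0, eproj_ne A hA p (p + s) (by simpa using hs) w1 D.e1,
    eproj_ne A hA p (p + t) (by simpa using ht) w2 D.e2, eproj_ne A hA p p' h1 u0 D'.e0,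
    eproj_ne A hA p (p' + s') h2 u1 D'.e1, eproj_ne A hA p (p' + t') h3 u2 D'.e2]
  simp

end Abstract

/-- the data of the graph -/
def dB : Data 4 where
  n := 49563500
  c := ![2, 2, 17, 17]
  k := ![![7123, 3315, 816, 0], ![3315, 493, 0, 816], ![816, 0, 1297, 65], ![0, 816, 65, 1167]]
  s := fun e => if e then ![false, true, false, false] else ![true, false, false, false]
  n_pos := ⟨by norm_num⟩
  k_symm := by decide
  k_lt := by decide

theorem mulVecB (c x0 x1 x2 : ℝ) (hc : c ^ 2 = 1 - 2 * c) :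
    (dB.graph.adjMatrix ℝ) *ᵥ (dB.lift (pg c x0) (pf c x1 x2)) =
      dB.lift (pg c (49563500 * 2 * x1))
        (pf c (x0 + (28492 + 13260 * c) * x1 + 27744 * x2)
          (3264 * x1 + (44098 + 2210 * c) * x2)) := by
  rw [Data.mulVec_lift]
  apply lift_congr
  · intro e
    cases e <;> simp [Fin.sum_univ_four, dB, pg, pf]
    ring
  · intro i
    fin_cases i <;> simp [Fin.sum_univ_four, dB, pg, pf]
    · ring
    · linear_combination (-13260 * x1) * hc
    · ring
    · linear_combination (-2210 * x2) * hc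

noncomputable def wB (c : ℝ) : dB.V → ℝ := dB.lift (pg c 1) (pf c 0 0)
noncomputable def v1B (c : ℝ) : dB.V → ℝ := dB.lift (pg c (-(27370 + 8330 * c))) (pf c 1 0)
noncomputable def v2B (c : ℝ) : dB.V → ℝ :=
  dB.lift (pg c (917632800 + 317206400 * c)) (pf c (-26248 - 3400 * c) 3264)
noncomputable def pB (c : ℝ) : ℝ := 27370 + 8330 * c
noncomputable def xB (c : ℝ) : ℝ := 14280 * (1 + c)
noncomputable def yB (c : ℝ) : ℝ := -23800 * (1 + c)

theorem lift_lin3 {m : ℕ} (d : Data m) (p q r : ℝ) (g g' : Bool → ℝ) (f f' : Fin m → ℝ) :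
    p • d.lift g f + (q • d.lift g f - r • d.lift g' f')
      = d.lift (fun e => p * g e + (q * g e - r * g' e)) (fun i => p * f i + (q * f i - r * f' i)) := by
  ext v
  rcases v with e | x <;> rfl

theorem one_add_ne (c : ℝ) (hc : c ^ 2 = 1 - 2 * c) : 1 + c ≠ 0 := by
  intro h
  have h2 : c = -1 := by linarith
  rw [h2] at hc; norm_num at hc

/-- The cubic relation. -/
theorem cubicB (c : ℝ) (hc : c ^ 2 = 1 - 2 * c) :
    Decomp3 (dB.graph.adjMatrix ℝ) (wB c) (pB c) (xB c) (yB c)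
      (wB c - ((xB c + yB c) / (xB c * yB c)) • v1B c + (1 / (xB c * yB c)) • v2B c)
      ((1 / (xB c * (xB c - yB c))) • (v2B c - yB c • v1B c))
      ((-1 / (yB c * (xB c - yB c))) • (v2B c - xB c • v1B c)) := by
  have h0 := one_add_ne c hc
  apply decomp3_of_cubic
  · unfold xB; simpa using h0
  · unfold yB; simpa using h0
  · unfold xB yB
    intro h
    apply h0
    linarith
  · unfold wB v1B pB
    rw [mulVecB c _ _ _ hc, lift_lin]
    apply lift_congr
    · intro e; cases e <;> simp [pg] <;> ring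
    · intro i; fin_cases i <;> simp [pf]
  · unfold v1B v2B pB
    rw [mulVecB c _ _ _ hc, lift_lin]
    apply lift_congr
    · intro e
      cases e <;> simp [pg]
      · linear_combination (69388900 : ℝ) * hc
      · linear_combination (69388900 * c : ℝ) * hc
    · intro i
      fin_cases i <;> simp [pf] <;> ring
  · have hxy1 : xB c + yB c = -9520 * (1 + c) := by unfold xB yB; ring
    have hxy2 : xB c * yB c = -679728000 := by
      unfold xB yB; linear_combination (-339864000 : ℝ) * hc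
    rw [hxy1, hxy2]
    unfold v1B v2B pB
    rw [mulVecB c _ _ _ hc, lift_lin3]
    apply lift_congr
    · intro e
      cases e <;> simp [pg]
      · linear_combination (377475616000 : ℝ) * hc
      · linear_combination (377475616000 * c : ℝ) * hc
    · intro i
      fin_cases i <;> simp [pf]
      · linear_combination (-49130000 : ℝ) * hc
      · linear_combination (-49130000 * c : ℝ) * hc
      · ring
      · ring

/-- the two roots `√2 - 1`, `-√2 - 1` -/
noncomputable def q1 : ℝ := √2 - 1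
noncomputable def q2 : ℝ := -√2 - 1

theorem sq2 : (√2 : ℝ) ^ 2 = 2 := Real.sq_sqrt (by norm_num)

theorem sqrt2_pos : (0 : ℝ) < √2 := Real.sqrt_pos.2 (by norm_num)

theorem hq1 : q1 ^ 2 = 1 - 2 * q1 := by unfold q1; linear_combination sq2
theorem hq2 : q2 ^ 2 = 1 - 2 * q2 := by unfold q2; linear_combination sq2

theorem q12 : q1 ≠ q2 := by
  unfold q1 q2; intro h
  have := sqrt2_pos
  linarith

/-- the time `π / (2380 √2)` -/
noncomputable def tB : ℝ := Real.pi / (2380 * √2)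

theorem tB_pos : 0 < tB := by
  have := sqrt2_pos
  unfold tB; positivity

theorem tB_x1 : tB * xB q1 = 2 * Real.pi * ((3 : ℤ) : ℝ) := by
  unfold tB xB q1; have := sqrt2_pos; field_simp; norm_num; ring

theorem tB_y1 : tB * yB q1 = 2 * Real.pi * ((-5 : ℤ) : ℝ) := by
  unfold tB yB q1; have := sqrt2_pos; field_simp; norm_num; ring

theorem tB_x2 : tB * xB q2 = 2 * Real.pi * ((-3 : ℤ) : ℝ) := by
  unfold tB xB q2; have := sqrt2_pos; field_simp; norm_num; ring

theorem tB_y2 : tB * yB q2 = 2 * Real.pi * ((5 : ℤ) : ℝ) := by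
  unfold tB yB q2; have := sqrt2_pos; field_simp; norm_num; ring

/-- the two phases are opposite -/
theorem phaseB : Complex.exp ((tB : ℂ) * Complex.I * (pB q1 : ℝ))
    = -Complex.exp ((tB : ℂ) * Complex.I * (pB q2 : ℝ)) := by
  have h1 : tB * pB q1 = tB * pB q2 + 7 * Real.pi := by
    unfold tB pB q1 q2; have := sqrt2_pos; field_simp; ring
  have h2 : (tB : ℂ) * Complex.I * (pB q1 : ℝ)
      = (tB : ℂ) * Complex.I * (pB q2 : ℝ) + (Real.pi * Complex.I + 3 * (2 * Real.pi * Complex.I)) := by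
    have h3 : (tB : ℂ) * (pB q1 : ℝ) = tB * (pB q2 : ℝ) + 7 * Real.pi := by exact_mod_cast h1
    linear_combination Complex.I * h3
  rw [h2, Complex.exp_add, Complex.exp_add, Complex.exp_pi_mul_I]
  have h4 : Complex.exp (3 * (2 * Real.pi * Complex.I)) = 1 := by
    have := Complex.exp_int_mul_two_pi_mul_I 3
    push_cast at this
    exact this
  rw [h4]; ring

abbrev ba : dB.V := Sum.inl false
abbrev bb : dB.V := Sum.inl true

theorem wB_eq (c : ℝ) : wB c = Pi.single ba 1 + c • Pi.single bb 1 := by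
  unfold wB
  ext v
  rcases v with e | x
  · cases e
    · simp [Data.lift, pg]
    · simp [Data.lift, pg]
  · have : pf c 0 0 x.1 = 0 := by
      generalize x.1 = i
      fin_cases i <;> simp [pf]
    simp [Data.lift, this]

theorem UB (c : ℝ) (hc : c ^ 2 = 1 - 2 * c) (j j' : ℤ) (h : tB * xB c = 2 * Real.pi * j)
    (h' : tB * yB c = 2 * Real.pi * j') :
    U (dB.graph.adjMatrix ℂ) tB *ᵥ (cx (wB c))
      = Complex.exp ((tB : ℂ) * Complex.I * (pB c : ℝ)) • cx (wB c) :=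
  U_apply3 dB.graph _ _ _ _ _ _ _ _ (cubicB c hc) j j' h h'

/-- balanced fractional revival -/
theorem revivalB : ∃ α β : ℂ, ‖α‖ = 1 / √2 ∧ ‖β‖ = 1 / √2 ∧
    U (dB.graph.adjMatrix ℂ) tB *ᵥ (Pi.single ba 1)
      = α • Pi.single ba (1 : ℂ) + β • Pi.single bb (1 : ℂ) := by
  have h := revival dB.graph ba bb q1 q2 q12 (wB q1) (wB q2) (wB_eq q1) (wB_eq q2) tB
    _ _ (UB q1 hq1 3 (-5) tB_x1 tB_y1) (UB q2 hq2 (-3) 5 tB_x2 tB_y2)
  rw [phaseB] at h
  set l := Complex.exp ((tB : ℂ) * Complex.I * (pB q2 : ℝ)) with hl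
  have hnl : ‖l‖ = 1 := by
    have : (tB : ℂ) * Complex.I * (pB q2 : ℝ) = ((tB * pB q2 : ℝ) : ℂ) * Complex.I := by
      push_cast; ring
    rw [hl, this, Complex.norm_exp_ofReal_mul_I]
  have hs := sqrt2_pos
  have hs2 : (√2 : ℂ) ≠ 0 := by exact_mod_cast hs.ne'
  have hsq : (√2 : ℂ) ^ 2 = 2 := by exact_mod_cast sq2
  have h1 : ((q1 : ℂ) * l - q2 * -l) / (q1 - q2) = -(((1 / √2 : ℝ) : ℂ) * l) := by
    unfold q1 q2
    push_cast
    field_simp
    ring
  have h2 : ((q1 : ℂ) * q2 * (l - -l) / (q1 - q2)) = -(((1 / √2 : ℝ) : ℂ) * l) := by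
    unfold q1 q2
    push_cast
    field_simp
    linear_combination (-2 : ℂ) * (√2 : ℂ) * l * hsq
  rw [h1, h2] at h
  have hn : ‖-(((1 / √2 : ℝ) : ℂ) * l)‖ = 1 / √2 := by
    rw [norm_neg, norm_mul, hnl, mul_one, Complex.norm_real, Real.norm_eq_abs, abs_of_pos]
    positivity
  exact ⟨_, _, hn, hn, h⟩

theorem symmB : (dB.graph.adjMatrix ℝ).IsSymm := dB.graph.transpose_adjMatrix

theorem basis_aB : (Pi.single ba 1 : dB.V → ℝ) = (-q2 / (q1 - q2)) • wB q1 + (q1 / (q1 - q2)) • wB q2 := by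
  have hcc : q1 - q2 ≠ 0 := sub_ne_zero.2 q12
  rw [wB_eq, wB_eq]
  ext v
  simp only [Pi.add_apply, Pi.smul_apply, smul_eq_mul]
  field_simp
  ring

theorem basis_bB : (Pi.single bb 1 : dB.V → ℝ) = (1 / (q1 - q2)) • wB q1 + (-1 / (q1 - q2)) • wB q2 := by
  have hcc : q1 - q2 ≠ 0 := sub_ne_zero.2 q12
  rw [wB_eq, wB_eq]
  ext v
  simp only [Pi.add_apply, Pi.smul_apply, smul_eq_mul]
  field_simp
  ring

/-- the component of `wB c` for the eigenvalue `pB c` -/
noncomputable def w0B (c : ℝ) : dB.V → ℝ :=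
  wB c - ((xB c + yB c) / (xB c * yB c)) • v1B c + (1 / (xB c * yB c)) • v2B c

theorem w0B_a : w0B q1 ba = 7 / 20 - √2 / 5 := by
  have hxy1 : xB q1 + yB q1 = -9520 * √2 := by unfold xB yB q1; ring
  have hxy2 : xB q1 * yB q1 = -679728000 := by
    unfold xB yB q1; linear_combination (-339864000 : ℝ) * sq2
  unfold w0B
  rw [hxy1, hxy2]
  simp only [wB, v1B, v2B, Data.lift, pg, Pi.sub_apply, Pi.add_apply, Pi.smul_apply, smul_eq_mul,
    Sum.elim_inl, q1]
  norm_num
  linear_combination (7 / 60 : ℝ) * sq2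

theorem w0B_b (c : ℝ) : w0B c bb = c * w0B c ba := by
  unfold w0B
  simp only [wB, v1B, v2B, Data.lift, pg, Pi.sub_apply, Pi.add_apply, Pi.smul_apply, smul_eq_mul,
    Sum.elim_inl]
  simp
  ring

theorem pB_ne : pB q2 ≠ pB q1 ∧ pB q2 + xB q2 ≠ pB q1 ∧ pB q2 + yB q2 ≠ pB q1 := by
  have h := sqrt2_pos
  unfold pB xB yB q1 q2
  refine ⟨?_, ?_, ?_⟩ <;> intro h1 <;> linarith

theorem proj_a : eproj (dB.graph.adjMatrix ℝ) (pB q1) (EuclideanSpace.single ba 1)
    = WithLp.toLp 2 ((-q2 / (q1 - q2)) • w0B q1) := by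
  have h0 := one_add_ne q1 hq1
  exact eproj_comb3 (dB.graph.adjMatrix ℝ) symmB (pB q1) (pB q2) (xB q1) (yB q1) (xB q2) (yB q2)
    (-q2 / (q1 - q2)) (q1 / (q1 - q2)) (by unfold xB; simpa using h0) (by unfold yB; simpa using h0)
    pB_ne.1 pB_ne.2.1 pB_ne.2.2 _ _ _ _ _ _ _ _ _ (cubicB q1 hq1) (cubicB q2 hq2) basis_aB

theorem proj_b : eproj (dB.graph.adjMatrix ℝ) (pB q1) (EuclideanSpace.single bb 1)
    = WithLp.toLp 2 ((1 / (q1 - q2)) • w0B q1) := by
  have h0 := one_add_ne q1 hq1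
  exact eproj_comb3 (dB.graph.adjMatrix ℝ) symmB (pB q1) (pB q2) (xB q1) (yB q1) (xB q2) (yB q2)
    (1 / (q1 - q2)) (-1 / (q1 - q2)) (by unfold xB; simpa using h0) (by unfold yB; simpa using h0)
    pB_ne.1 pB_ne.2.1 pB_ne.2.2 _ _ _ _ _ _ _ _ _ (cubicB q1 hq1) (cubicB q2 hq2) basis_bB

/-- the diagonal entries of the eigenprojection for `pB q1` at `a` and `b` are different -/
theorem diag_ne : (eproj (dB.graph.adjMatrix ℝ) (pB q1) (EuclideanSpace.single ba 1)) ba
    ≠ (eproj (dB.graph.adjMatrix ℝ) (pB q1) (EuclideanSpace.single bb 1)) bb := by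
  rw [proj_a, proj_b]
  change ((-q2 / (q1 - q2)) • w0B q1) ba ≠ ((1 / (q1 - q2)) • w0B q1) bb
  rw [Pi.smul_apply, Pi.smul_apply, w0B_b, smul_eq_mul, smul_eq_mul]
  have hcc : q1 - q2 ≠ 0 := sub_ne_zero.2 q12
  intro h
  have h1 : (q1 + q2) * w0B q1 ba = 0 := by
    field_simp at h
    linear_combination -h
  have h2 : q1 + q2 = -2 := by unfold q1 q2; ring
  rw [h2, w0B_a] at h1
  have h3 : √2 = 7 / 4 := by linarith
  have h4 := sq2
  rw [h3] at h4
  norm_num at h4

end Pool.Agent.R29.FRBal
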