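import Mathlib
import Pool.Agent.R29.FREx37

/-!
# The graph `d37`: proper fractional revival, eigenprojections
-/

set_option autoImplicit false
set_option linter.unusedSectionVars false

open Matrix Finset

namespace Pool.Agent.R29.FREx

open Pool.Agent.R29.FR Pool.Agent.R29.FRG Pool.Agent.R29.FRM

section General
variable {m : ℕ} (d : Data m)

theorem lift_single (c : ℝ) (f : Fin m → ℝ) (hf : ∀ i, f i = 0) :
    d.lift (pg c 1) f = Pi.single (Sum.inl false) 1 + c • Pi.single (Sum.inl true) 1 := by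
  ext v
  rcases v with e | x
  · cases e
    · simp [Data.lift, pg]
    · simp [Data.lift, pg]
  · simp [Data.lift, hf]

theorem pf_zero (c : ℝ) (i : Fin 4) : pf c 0 0 i = 0 := by
  fin_cases i <;> simp [pf]

end General

/-- the two roots -/
noncomputable def r1 : ℝ := (√37 - 1) / 6
noncomputable def r2 : ℝ := (-√37 - 1) / 6

theorem sq37 : (√37 : ℝ) ^ 2 = 37 := Real.sq_sqrt (by norm_num)

theorem six_lt : (6 : ℝ) < √37 := by
  rw [show (6 : ℝ) = √36 by rw [show (36 : ℝ) = 6 ^ 2 by norm_num, Real.sqrt_sq (by norm_num)]]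
  exact Real.sqrt_lt_sqrt (by norm_num) (by norm_num)

theorem lt_seven : (√37 : ℝ) < 7 := by
  rw [show (7 : ℝ) = √49 by rw [show (49 : ℝ) = 7 ^ 2 by norm_num, Real.sqrt_sq (by norm_num)]]
  exact Real.sqrt_lt_sqrt (by norm_num) (by norm_num)

theorem hr1 : r1 ^ 2 = 1 - r1 / 3 := by
  unfold r1; have := sq37; field_simp; linear_combination this * 3

theorem hr2 : r2 ^ 2 = 1 - r2 / 3 := by
  unfold r2; have := sq37; field_simp; linear_combination this * 3

theorem r12 : r1 ≠ r2 := by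
  unfold r1 r2; intro h
  have := six_lt
  linarith

noncomputable def s37 : ℝ := √5536
theorem hs37 : s37 ^ 2 = 5536 := Real.sq_sqrt (by norm_num)
theorem s37_pos : 0 < s37 := Real.sqrt_pos.2 (by norm_num)

/-- the eigenvalues `36 ± 4√37` -/
theorem p1_eq : 40 + 24 * r1 = 36 + 4 * √37 := by unfold r1; ring
theorem p2_eq : 40 + 24 * r2 = 36 - 4 * √37 := by unfold r2; ring

noncomputable def t37 : ℝ := 2 * Real.pi / s37
theorem t37_pos : 0 < t37 := div_pos (by positivity) s37_pos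

theorem t37_s : t37 * s37 = 2 * Real.pi * ((1 : ℤ) : ℝ) := by
  unfold t37; have := s37_pos.ne'; field_simp; simp

theorem norm_phase (τ p : ℝ) : ‖Complex.exp ((τ : ℂ) * Complex.I * p)‖ = 1 := by
  have : (τ : ℂ) * Complex.I * p = ((τ * p : ℝ) : ℂ) * Complex.I := by push_cast; ring
  rw [this, Complex.norm_exp_ofReal_mul_I]

/-- the two phases are different -/
theorem phase_ne : Complex.exp ((t37 : ℂ) * Complex.I * (40 + 24 * r1 : ℝ))
    ≠ Complex.exp ((t37 : ℂ) * Complex.I * (40 + 24 * r2 : ℝ)) := by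
  intro h
  rw [Complex.exp_eq_exp_iff_exists_int] at h
  obtain ⟨n, hn⟩ := h
  have h1 : t37 * (40 + 24 * r1) = t37 * (40 + 24 * r2) + 2 * Real.pi * n := by
    have h2 : Complex.I * ((t37 * (40 + 24 * r1) : ℝ) : ℂ)
        = Complex.I * ((t37 * (40 + 24 * r2) + 2 * Real.pi * n : ℝ) : ℂ) := by
      push_cast at hn ⊢
      linear_combination hn
    exact_mod_cast mul_left_cancel₀ Complex.I_ne_zero h2
  rw [p1_eq, p2_eq] at h1
  unfold t37 at h1
  have hs := s37_pos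
  have hpi := Real.pi_pos
  have h3 : 8 * √37 = n * s37 := by
    field_simp at h1
    linarith
  have h4 : (8 * √37) ^ 2 = (n * s37) ^ 2 := by rw [h3]
  rw [mul_pow, mul_pow, sq37, hs37] at h4
  have h5 : (8 ^ 2 * 37 : ℤ) = n ^ 2 * 5536 := by exact_mod_cast h4
  have h6 : n ^ 2 = 0 ∨ 1 ≤ n ^ 2 := by
    rcases eq_or_ne n 0 with h | h
    · left; rw [h]; rfl
    · right
      have : 0 < n ^ 2 := by positivity
      omega
  omega


/-- the vertices -/
abbrev va : d37.V := Sum.inl false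
abbrev vb : d37.V := Sum.inl true

/-- the vectors `e_a + c e_b` -/
noncomputable def w37 (c : ℝ) : d37.V → ℝ := d37.lift (pg c 1) (pf c 0 0)

theorem w37_eq (c : ℝ) : w37 c = Pi.single va 1 + c • Pi.single vb 1 :=
  lift_single d37 c _ (pf_zero c)

noncomputable def v1_37 (c : ℝ) : d37.V → ℝ := d37.lift (pg c (-(40 + 24 * c))) (pf c 1 1)
noncomputable def v2_37 (c : ℝ) : d37.V → ℝ :=
  d37.lift (pg c (3584 + 1728 * c)) (pf c (52 - 12 * c) (-52 + 12 * c))

noncomputable def u0 (c : ℝ) : d37.V → ℝ := w37 c - (1 / s37 ^ 2) • v2_37 c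
noncomputable def u1 (c : ℝ) : d37.V → ℝ := (1 / 2 : ℝ) • ((1 / s37 ^ 2) • v2_37 c + (1 / s37) • v1_37 c)
noncomputable def u2 (c : ℝ) : d37.V → ℝ := (1 / 2 : ℝ) • ((1 / s37 ^ 2) • v2_37 c - (1 / s37) • v1_37 c)

theorem D37 (c : ℝ) (hc : c ^ 2 = 1 - c / 3) :
    Decomp (d37.graph.adjMatrix ℝ) (w37 c) (40 + 24 * c) s37 (u0 c) (u1 c) (u2 c) :=
  decomp37 c hc s37 hs37

theorem U37 (c : ℝ) (hc : c ^ 2 = 1 - c / 3) :
    U (d37.graph.adjMatrix ℂ) t37 *ᵥ (cx (w37 c))
      = Complex.exp ((t37 : ℂ) * Complex.I * (40 + 24 * c : ℝ)) • cx (w37 c) :=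
  U_apply d37.graph _ _ _ _ _ _ _ (D37 c hc) 1 t37_s

/-- fractional revival at `a` -/
theorem revival37 : ∃ α β : ℂ, α ≠ 0 ∧ β ≠ 0 ∧
    U (d37.graph.adjMatrix ℂ) t37 *ᵥ (Pi.single va 1)
      = α • Pi.single va (1 : ℂ) + β • Pi.single vb (1 : ℂ) := by
  have h := revival d37.graph va vb r1 r2 r12 (w37 r1) (w37 r2) (w37_eq r1) (w37_eq r2) t37
    _ _ (U37 r1 hr1) (U37 r2 hr2)
  refine ⟨_, _, ?_, ?_, h⟩
  · have hcc : (r1 : ℂ) - r2 ≠ 0 := by
      rw [sub_ne_zero]; exact_mod_cast r12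
    apply div_ne_zero _ hcc
    rw [sub_ne_zero]
    intro h1
    have h2 := congrArg norm h1
    rw [norm_mul, norm_mul, norm_phase, norm_phase, mul_one, mul_one, Complex.norm_real,
      Complex.norm_real, Real.norm_eq_abs, Real.norm_eq_abs] at h2
    have h3 : r1 ^ 2 = r2 ^ 2 := by rw [← sq_abs r1, h2, sq_abs]
    rw [hr1, hr2] at h3
    apply r12
    linarith
  · have hcc : (r1 : ℂ) - r2 ≠ 0 := by
      rw [sub_ne_zero]; exact_mod_cast r12
    apply div_ne_zero _ hcc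
    have h6 := six_lt
    have hr1' : r1 ≠ 0 := by
      unfold r1
      intro h0
      linarith
    have hr2' : r2 ≠ 0 := by
      unfold r2
      intro h0
      linarith
    refine mul_ne_zero (mul_ne_zero (by exact_mod_cast hr1') (by exact_mod_cast hr2')) ?_
    rw [sub_ne_zero]
    exact phase_ne.symm

theorem symm37 : (d37.graph.adjMatrix ℝ).IsSymm := d37.graph.transpose_adjMatrix

theorem basis_a : (Pi.single va 1 : d37.V → ℝ) = (-r2 / (r1 - r2)) • w37 r1 + (r1 / (r1 - r2)) • w37 r2 := by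
  have hcc : r1 - r2 ≠ 0 := sub_ne_zero.2 r12
  rw [w37_eq, w37_eq]
  ext v
  simp only [Pi.add_apply, Pi.smul_apply, smul_eq_mul]
  field_simp
  ring

theorem basis_b : (Pi.single vb 1 : d37.V → ℝ) = (1 / (r1 - r2)) • w37 r1 + (-1 / (r1 - r2)) • w37 r2 := by
  have hcc : r1 - r2 ≠ 0 := sub_ne_zero.2 r12
  rw [w37_eq, w37_eq]
  ext v
  simp only [Pi.add_apply, Pi.smul_apply, smul_eq_mul]
  field_simp
  ring

theorem u0_a (c : ℝ) : u0 c va = (1952 - 1728 * c) / 5536 := by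
  unfold u0
  rw [hs37]
  simp only [w37, v2_37, Data.lift, pg, Pi.sub_apply, Pi.smul_apply, smul_eq_mul, Sum.elim_inl]
  norm_num
  ring

theorem p_ne : (40 + 24 * r2 ≠ 40 + 24 * r1) ∧ (40 + 24 * r2 + s37 ≠ 40 + 24 * r1) ∧
    (40 + 24 * r2 - s37 ≠ 40 + 24 * r1) ∧ (40 + 24 * r1 + s37 ≠ 40 + 24 * r2) ∧
    (40 + 24 * r1 - s37 ≠ 40 + 24 * r2) := by
  have h1 := p1_eq
  have h2 := p2_eq
  have h3 := six_lt
  have h4 := s37_pos
  have h5 := hs37
  have h6 := lt_seven
  rw [h1, h2]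
  refine ⟨?_, ?_, ?_, ?_, ?_⟩
  · intro h; linarith
  · intro h
    have : s37 = 8 * √37 := by linarith
    nlinarith [sq37]
  · intro h; linarith
  · intro h; linarith
  · intro h
    have : s37 = 8 * √37 := by linarith
    nlinarith [sq37]

/-- entry `(a, b)` of the eigenprojection for `p1` is positive -/
theorem entry_p1 : 0 < (eproj (d37.graph.adjMatrix ℝ) (40 + 24 * r1) (EuclideanSpace.single vb 1)) va := by
  have h := eproj_comb (d37.graph.adjMatrix ℝ) symm37 (40 + 24 * r1) (40 + 24 * r2) s37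
    (1 / (r1 - r2)) (-1 / (r1 - r2)) s37_pos.ne' p_ne.1 p_ne.2.1 p_ne.2.2.1 _ _ _ _ _ _ _ _ _
    (D37 r1 hr1) (D37 r2 hr2) basis_b
  have h' : (EuclideanSpace.single vb 1 : EuclideanSpace ℝ d37.V) = WithLp.toLp 2 (Pi.single vb 1) := rfl
  rw [h', h]
  change 0 < ((1 / (r1 - r2)) • u0 r1) va
  rw [Pi.smul_apply, u0_a, smul_eq_mul]
  have h3 := six_lt
  have h6 := lt_seven
  have h7 : 0 < r1 - r2 := by unfold r1 r2; linarith
  have h8 : r1 < 1 := by unfold r1; linarith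
  have h9 : 0 < 1952 - 1728 * r1 := by linarith
  positivity

/-- entry `(a, b)` of the eigenprojection for `p2` is negative -/
theorem entry_p2 : (eproj (d37.graph.adjMatrix ℝ) (40 + 24 * r2) (EuclideanSpace.single vb 1)) va < 0 := by
  have hb : (Pi.single vb 1 : d37.V → ℝ) = (-1 / (r1 - r2)) • w37 r2 + (1 / (r1 - r2)) • w37 r1 := by
    rw [basis_b, add_comm]
  have h := eproj_comb (d37.graph.adjMatrix ℝ) symm37 (40 + 24 * r2) (40 + 24 * r1) s37
    (-1 / (r1 - r2)) (1 / (r1 - r2)) s37_pos.ne' p_ne.1.symm p_ne.2.2.2.1 p_ne.2.2.2.2 _ _ _ _ _ _ _ _ _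
    (D37 r2 hr2) (D37 r1 hr1) hb
  have h' : (EuclideanSpace.single vb 1 : EuclideanSpace ℝ d37.V) = WithLp.toLp 2 (Pi.single vb 1) := rfl
  rw [h', h]
  change ((-1 / (r1 - r2)) • u0 r2) va < 0
  rw [Pi.smul_apply, u0_a, smul_eq_mul]
  have h3 := six_lt
  have h6 := lt_seven
  have h7 : 0 < r1 - r2 := by unfold r1 r2; linarith
  have h8 : r2 < 1 := by unfold r2; linarith
  have h9 : 0 < (1952 - 1728 * r2) / 5536 := by
    have : 0 < 1952 - 1728 * r2 := by linarith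
    positivity
  have h10 : -1 / (r1 - r2) < 0 := div_neg_of_neg_of_pos (by norm_num) h7
  exact mul_neg_of_neg_of_pos h10 h9

end Pool.Agent.R29.FREx
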