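import Pool.Agent.R29.Comp

set_option autoImplicit false
set_option linter.unusedSectionVars false

/-!
# Vertex contractions at a vertex and the Tutte polynomial
-/

namespace Pool.Agent.R29.Nbhd

open Finset Pool.Agent.R29.Comp

variable {V E : Type} [Finite V] [DecidableEq V] [DecidableEq E] {R : Type} [CommRing R]

/-- the graph with additional edges from `s` to all vertices -/
def ext (ends : E → V × V) (s : V) : E ⊕ V → V × V := Sum.elim ends (fun u => (s, u))

/-- the number of components of `(V, A)` after the identification of `U ∪ {s}` -/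
noncomputable def kk (ends : E → V × V) (s : V) (A : Finset E) (U : Finset V) : ℕ :=
  comps (ext ends s) (A.disjSum U)

theorem ext_adj (ends : E → V × V) (s : V) (A : Finset E) (U : Finset V) (u v : V) :
    (under (ext ends s) (A.disjSum U)).Adj u v ↔ u ≠ v ∧
      ((∃ e ∈ A, ends e = (u, v) ∨ ends e = (v, u)) ∨ (u = s ∧ v ∈ U) ∨ (v = s ∧ u ∈ U)) := by
  rw [under_adj]
  constructor
  · rintro ⟨h, x, hx, h1⟩
    refine ⟨h, ?_⟩
    rcases x with e | w
    · exact Or.inl ⟨e, by simpa using hx, h1⟩
    · right
      simp only [inr_mem_disjSum] at hx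
      simp only [ext, Sum.elim_inr, Prod.mk.injEq] at h1
      rcases h1 with ⟨rfl, rfl⟩ | ⟨rfl, rfl⟩
      · exact Or.inl ⟨rfl, hx⟩
      · exact Or.inr ⟨rfl, hx⟩
  · rintro ⟨h, ⟨e, he, h1⟩ | ⟨rfl, hv⟩ | ⟨rfl, hu⟩⟩
    · exact ⟨h, Sum.inl e, by simpa using he, h1⟩
    · exact ⟨h, Sum.inr v, by simpa using hv, Or.inl rfl⟩
    · exact ⟨h, Sum.inr u, by simpa using hu, Or.inr rfl⟩

theorem disjSum_insert_left (A : Finset E) (U : Finset V) (e : E) :
    (insert e A).disjSum U = insert (Sum.inl e) (A.disjSum U) := by
  ext x; rcases x with x | x <;> simp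

theorem disjSum_insert_right (A : Finset E) (U : Finset V) (a : V) :
    A.disjSum (insert a U) = insert (Sum.inr a) (A.disjSum U) := by
  ext x; rcases x with x | x <;> simp

/-- an edge whose ends are identified -/
theorem kk_loop {ends : E → V × V} {s : V} {A : Finset E} {U : Finset V} {e : E}
    (h : (ends e).1 = (ends e).2 ∨ ((ends e).1 ∈ insert s U ∧ (ends e).2 ∈ insert s U)) :
    kk ends s (insert e A) U = kk ends s A U := by
  unfold kk
  rw [disjSum_insert_left]
  apply comps_same
  show (under (ext ends s) (A.disjSum U)).Reachable (ends e).1 (ends e).2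
  have hs : ∀ v ∈ insert s U, (under (ext ends s) (A.disjSum U)).Reachable s v := by
    intro v hv
    by_cases hvs : s = v
    · rw [hvs]
    · apply SimpleGraph.Adj.reachable
      rw [ext_adj]
      refine ⟨hvs, Or.inr (Or.inl ⟨rfl, ?_⟩)⟩
      rcases mem_insert.mp hv with h1 | h1
      · exact absurd h1.symm hvs
      · exact h1
  rcases h with h | ⟨h1, h2⟩
  · rw [h]
  · exact (hs _ h1).symm.trans (hs _ h2)

/-- an edge from `s` to `a` has the same effect as the identification of `a` with `s` -/
theorem kk_star {ends : E → V × V} {s : V} {A : Finset E} {U : Finset V} {e : E} {a : V}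
    (h : ends e = (s, a) ∨ ends e = (a, s)) :
    kk ends s (insert e A) U = kk ends s A (insert a U) := by
  unfold kk
  apply comps_congr
  have : under (ext ends s) ((insert e A).disjSum U) =
      under (ext ends s) (A.disjSum (insert a U)) := by
    ext u v
    rw [ext_adj, ext_adj]
    constructor
    · rintro ⟨hne, ⟨e', he', h1⟩ | ⟨h1, h2⟩ | ⟨h1, h2⟩⟩
      · refine ⟨hne, ?_⟩
        rcases mem_insert.mp he' with rfl | he'
        · rcases h with h | h <;> rcases h1 with h1 | h1 <;> rw [h, Prod.mk.injEq] at h1 <;>
            obtain ⟨rfl, rfl⟩ := h1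
          · exact Or.inr (Or.inl ⟨rfl, mem_insert_self _ _⟩)
          · exact Or.inr (Or.inr ⟨rfl, mem_insert_self _ _⟩)
          · exact Or.inr (Or.inr ⟨rfl, mem_insert_self _ _⟩)
          · exact Or.inr (Or.inl ⟨rfl, mem_insert_self _ _⟩)
        · exact Or.inl ⟨e', he', h1⟩
      · exact ⟨hne, Or.inr (Or.inl ⟨h1, mem_insert_of_mem h2⟩)⟩
      · exact ⟨hne, Or.inr (Or.inr ⟨h1, mem_insert_of_mem h2⟩)⟩
    · rintro ⟨hne, ⟨e', he', h1⟩ | ⟨h1, h2⟩ | ⟨h1, h2⟩⟩
      · exact ⟨hne, Or.inl ⟨e', mem_insert_of_mem he', h1⟩⟩
      · refine ⟨hne, ?_⟩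
        rcases mem_insert.mp h2 with rfl | h2
        · subst h1; exact Or.inl ⟨e, mem_insert_self _ _, h⟩
        · exact Or.inr (Or.inl ⟨h1, h2⟩)
      · refine ⟨hne, ?_⟩
        rcases mem_insert.mp h2 with rfl | h2
        · subst h1; exact Or.inl ⟨e, mem_insert_self _ _, h.symm⟩
        · exact Or.inr (Or.inr ⟨h1, h2⟩)
  intro u v
  rw [this]

/-- identification of a vertex which has no edges to the rest -/
theorem kk_new {ends : E → V × V} {s : V} {A : Finset E} {U : Finset V} {a : V}
    (h : ∃ S : Set V, s ∈ S ∧ a ∉ S ∧ (∀ e ∈ A, (ends e).1 ∈ S ↔ (ends e).2 ∈ S) ∧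
      ∀ u ∈ U, u ∈ S) :
    kk ends s A (insert a U) + 1 = kk ends s A U := by
  unfold kk
  rw [disjSum_insert_right]
  apply comps_new
  show ¬ (under (ext ends s) (A.disjSum U)).Reachable s a
  obtain ⟨S, hs, ha, hA, hU⟩ := h
  rintro ⟨p⟩
  have key : ∀ u v, (under (ext ends s) (A.disjSum U)).Walk u v → u ∈ S → v ∈ S := by
    intro u v p
    induction p with
    | nil => exact id
    | cons hadj _ ih =>
      intro hu
      apply ih
      rw [ext_adj] at hadj
      obtain ⟨_, ⟨e, he, h1 | h1⟩ | ⟨_, h2⟩ | ⟨h1, _⟩⟩ := hadj
      · have := hA e he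
        rw [h1] at this
        exact this.mp hu
      · have := hA e he
        rw [h1] at this
        exact this.mpr hu
      · exact hU _ h2
      · rw [h1]; exact hs
  exact ha (key _ _ p hs)

theorem kk_empty {ends : E → V × V} {s : V} {U : Finset V} {a : V} (ha : a ∉ insert s U) :
    kk ends s ∅ (insert a U) + 1 = kk ends s ∅ U := by
  apply kk_new
  refine ⟨(insert s U : Finset V), by simp, by exact_mod_cast ha, by simp, ?_⟩
  intro u hu
  simp [hu]

theorem kk_pos (ends : E → V × V) (s : V) (A : Finset E) (U : Finset V) : 0 < kk ends s A U := by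
  have : Nonempty V := ⟨s⟩
  exact comps_pos _ _

theorem kk_le (ends : E → V × V) (s : V) (A : Finset E) (U : Finset V) :
    kk ends s A U ≤ kk ends s ∅ U ∧ kk ends s ∅ U ≤ A.card + kk ends s A U := by
  induction A using Finset.induction_on with
  | empty => simp
  | insert e A he ih =>
    rw [card_insert_of_notMem he]
    have := comps_insert_le (ext ends s) (A.disjSum U) (Sum.inl e)
    rw [← disjSum_insert_left] at this
    unfold kk at ih ⊢
    omega

/-- The Tutte polynomial of the graph with the edges `F` after the identification of `U ∪ {s}`,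
times a power of `x - 1`. -/
noncomputable def TT (R : Type) [CommRing R] (ends : E → V × V) (s : V) (F : Finset E)
    (U : Finset V) : MvPolynomial (Fin 2) R :=
  ∑ A ∈ F.powerset, (MvPolynomial.X 0 - 1) ^ (kk ends s A U - 1) *
    (MvPolynomial.X 1 - 1) ^ (A.card - (kk ends s ∅ U - kk ends s A U))

theorem TT_loop {ends : E → V × V} {s : V} {F : Finset E} {U : Finset V} {e : E} (he : e ∉ F)
    (h : (ends e).1 = (ends e).2 ∨ ((ends e).1 ∈ insert s U ∧ (ends e).2 ∈ insert s U)) :
    TT R ends s (insert e F) U = MvPolynomial.X 1 * TT R ends s F U := by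
  unfold TT
  rw [sum_powerset_insert he, ← sum_add_distrib, mul_sum]
  refine sum_congr rfl fun A hA => ?_
  have heA : e ∉ A := fun h => he (mem_powerset.mp hA h)
  rw [kk_loop h, card_insert_of_notMem heA]
  have := kk_le ends s A U
  have h1 : A.card + 1 - (kk ends s ∅ U - kk ends s A U) =
      A.card - (kk ends s ∅ U - kk ends s A U) + 1 := by omega
  rw [h1, pow_succ]
  ring

theorem TT_star {ends : E → V × V} {s : V} {F : Finset E} {U : Finset V} {e : E} {a : V}
    (he : e ∉ F) (h : ends e = (s, a) ∨ ends e = (a, s)) (ha : a ∉ insert s U) :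
    TT R ends s (insert e F) U = TT R ends s F U + TT R ends s F (insert a U) := by
  unfold TT
  rw [sum_powerset_insert he]
  congr 1
  refine sum_congr rfl fun A hA => ?_
  have heA : e ∉ A := fun h => he (mem_powerset.mp hA h)
  rw [kk_star h, card_insert_of_notMem heA]
  have h1 := kk_le ends s A (insert a U)
  have h2 := kk_empty (ends := ends) ha
  have h3 : A.card + 1 - (kk ends s ∅ U - kk ends s A (insert a U)) =
      A.card - (kk ends s ∅ (insert a U) - kk ends s A (insert a U)) := by omega
  rw [h3]

theorem TT_isolated {ends : E → V × V} {s : V} {F : Finset E} {a : V} (ha : a ≠ s)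
    (hF : ∀ e ∈ F, (ends e).1 = s ↔ (ends e).2 = s) :
    TT R ends s F ∅ = (MvPolynomial.X 0 - 1) * TT R ends s F {a} := by
  unfold TT
  rw [mul_sum]
  refine sum_congr rfl fun A hA => ?_
  have h1 : kk ends s A {a} + 1 = kk ends s A ∅ := by
    rw [← insert_empty_eq a]
    apply kk_new
    refine ⟨{s}, rfl, ha, ?_, by simp⟩
    intro e he
    exact hF e (mem_powerset.mp hA he)
  have h2 : kk ends s ∅ {a} + 1 = kk ends s ∅ ∅ := by
    rw [← insert_empty_eq a]
    exact kk_empty (by simpa using ha)
  have h3 := kk_le ends s A {a}
  have h4 := kk_pos ends s A {a}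
  have h5 : kk ends s A ∅ - 1 = (kk ends s A {a} - 1) + 1 := by omega
  have h6 : kk ends s ∅ ∅ - kk ends s A ∅ = kk ends s ∅ {a} - kk ends s A {a} := by omega
  rw [h5, h6, pow_succ]
  ring

/-- the edges which are not loops after the identification of `U ∪ {s}` -/
def nl (ends : E → V × V) (s : V) (F : Finset E) (U : Finset V) : Finset E :=
  F.filter fun e => ¬ ((ends e).1 = (ends e).2 ∨
    ((ends e).1 ∈ insert s U ∧ (ends e).2 ∈ insert s U))

theorem TT_nl {ends : E → V × V} {s : V} {U : Finset V} {J : Ideal (MvPolynomial (Fin 2) R)}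
    (F : Finset E) (h : TT R ends s (nl ends s F U) U ∈ J) : TT R ends s F U ∈ J := by
  induction F using Finset.induction_on with
  | empty => simpa [nl] using h
  | insert e F he ih =>
    by_cases h1 : (ends e).1 = (ends e).2 ∨ ((ends e).1 ∈ insert s U ∧ (ends e).2 ∈ insert s U)
    · rw [TT_loop he h1]
      apply J.mul_mem_left
      apply ih
      have : nl ends s (insert e F) U = nl ends s F U := by
        unfold nl
        rw [filter_insert, if_neg (not_not.mpr h1)]
      rwa [this] at h
    · -- the general case: remove the loops one after the other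
      have key : ∀ L : Finset E, (∀ e ∈ L, (ends e).1 = (ends e).2 ∨
          ((ends e).1 ∈ insert s U ∧ (ends e).2 ∈ insert s U)) → ∀ K : Finset E,
          Disjoint K L → TT R ends s K U ∈ J → TT R ends s (K ∪ L) U ∈ J := by
        intro L
        induction L using Finset.induction_on with
        | empty => intro _ K _ hK; simpa using hK
        | insert e' L he' ihL =>
          intro hL K hd hK
          rw [union_insert, TT_loop]
          · apply J.mul_mem_left
            exact ihL (fun e he => hL e (mem_insert_of_mem he)) K
              (disjoint_of_subset_right (subset_insert _ _) hd) hK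
          · rw [mem_union]
            rintro (h2 | h2)
            · exact (disjoint_left.mp hd h2) (mem_insert_self _ _)
            · exact he' h2
          · exact hL e' (mem_insert_self _ _)
      have h2 := key ((insert e F).filter fun e => ((ends e).1 = (ends e).2 ∨
        ((ends e).1 ∈ insert s U ∧ (ends e).2 ∈ insert s U))) (fun e he => (mem_filter.mp he).2)
        (nl ends s (insert e F) U) (by
          unfold nl
          exact (disjoint_filter_filter_not _ _ _).symm) h
      have h3 : nl ends s (insert e F) U ∪ ((insert e F).filter fun e =>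
          ((ends e).1 = (ends e).2 ∨ ((ends e).1 ∈ insert s U ∧ (ends e).2 ∈ insert s U))) =
          insert e F := by
        unfold nl
        rw [union_comm]
        exact filter_union_filter_not_eq _ _
      rwa [h3] at h2

/-- the edge `e` joins `s` and another vertex -/
def IsStar (ends : E → V × V) (s : V) (e : E) : Prop :=
  ∃ a, a ≠ s ∧ (ends e = (s, a) ∨ ends e = (a, s))

theorem not_star_iff {ends : E → V × V} {s : V} {e : E} (h : ¬ IsStar ends s e) :
    (ends e).1 = s ↔ (ends e).2 = s := by
  constructor
  · intro h1
    by_contra h2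
    exact h ⟨(ends e).2, h2, Or.inl (by rw [← h1])⟩
  · intro h1
    by_contra h2
    exact h ⟨(ends e).1, h2, Or.inr (by rw [← h1])⟩

open Classical in
/-- all identifications of nonempty sets of neighbours -/
theorem claim1 [Fintype E] {ends : E → V × V} {s : V} {J : Ideal (MvPolynomial (Fin 2) R)}
    (N : Finset V) (hN : ∀ a, a ∈ N ↔ a ≠ s ∧ ∃ e, ends e = (s, a) ∨ ends e = (a, s))
    (hJ : ∀ W ⊆ N, W.Nonempty → TT R ends s (nl ends s univ W) W ∈ J) :
    ∀ (d : ℕ) (W : Finset V), W ⊆ N → W.Nonempty → (N \ W).card = d → ∀ F : Finset E,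
      (∀ e, e ∉ F → e ∉ nl ends s univ W ∨ IsStar ends s e) → TT R ends s F W ∈ J := by
  intro d
  induction d using Nat.strong_induction_on with
  | _ d ih =>
    intro W hW hne hd
    -- sets without loops
    have main : ∀ (k : ℕ) (F : Finset E), F ⊆ nl ends s univ W →
        (∀ e, e ∉ F → e ∉ nl ends s univ W ∨ IsStar ends s e) →
        (nl ends s univ W \ F).card = k → TT R ends s F W ∈ J := by
      intro k
      induction k with
      | zero =>
        intro F hF _ hk
        have h1 := sdiff_eq_empty_iff_subset.mp (card_eq_zero.mp hk)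
        rw [subset_antisymm hF h1]
        exact hJ W hW hne
      | succ k ihk =>
        intro F hF hst hk
        obtain ⟨e, he⟩ := card_pos.mp (by omega : 0 < (nl ends s univ W \ F).card)
        obtain ⟨he1, he2⟩ := mem_sdiff.mp he
        have hes : IsStar ends s e := by
          rcases hst e he2 with h | h
          · exact absurd he1 h
          · exact h
        obtain ⟨a, has, hea⟩ := hes
        have haN : a ∈ N := (hN a).mpr ⟨has, e, hea⟩
        have haW : a ∉ insert s W := by
          intro h
          have h2 := (mem_filter.mp he1).2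
          apply h2
          right
          rcases hea with hea | hea <;> rw [hea]
          · exact ⟨mem_insert_self _ _, h⟩
          · exact ⟨h, mem_insert_self _ _⟩
        have haW' : a ∉ W := fun h => haW (mem_insert_of_mem h)
        have h1 : TT R ends s (insert e F) W ∈ J := by
          apply ihk
          · intro e' he'
            rcases mem_insert.mp he' with rfl | he'
            · exact he1
            · exact hF he'
          · intro e' he'
            exact hst e' (fun h => he' (mem_insert_of_mem h))
          · have : nl ends s univ W \ insert e F = (nl ends s univ W \ F).erase e := by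
              ext x; simp only [mem_sdiff, mem_insert, mem_erase]; tauto
            rw [this, card_erase_of_mem he, hk]
            rfl
        have h2 : TT R ends s F (insert a W) ∈ J := by
          refine ih ((N \ insert a W).card) ?_ (insert a W) ?_ (insert_nonempty _ _) rfl F ?_
          · rw [← hd]
            apply card_lt_card
            refine ⟨sdiff_subset_sdiff (subset_refl _) (subset_insert _ _), ?_⟩
            intro hsub
            have := hsub (mem_sdiff.mpr ⟨haN, haW'⟩)
            simp at this
          · intro x hx
            rcases mem_insert.mp hx with rfl | hx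
            · exact haN
            · exact hW hx
          · intro e' he'
            rcases hst e' he' with h | h
            · left
              intro h3
              apply h
              unfold nl at h3 ⊢
              rw [mem_filter] at h3 ⊢
              refine ⟨mem_univ _, fun h4 => h3.2 ?_⟩
              rcases h4 with h4 | ⟨h4, h5⟩
              · exact Or.inl h4
              · right
                rw [mem_insert] at h4 h5 ⊢
                rw [mem_insert, mem_insert, mem_insert]
                tauto
            · exact Or.inr h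
        have h3 := TT_star (R := R) he2 hea haW
        have h4 : TT R ends s F W = TT R ends s (insert e F) W - TT R ends s F (insert a W) := by
          rw [h3]; ring
        rw [h4]
        exact J.sub_mem h1 h2
    intro F hF
    apply TT_nl
    refine main _ _ ?_ ?_ rfl
    · intro e he
      unfold nl at he ⊢
      rw [mem_filter] at he ⊢
      exact ⟨mem_univ _, he.2⟩
    · intro e he
      by_cases heF : e ∈ F
      · left
        intro h
        apply he
        unfold nl at h ⊢
        rw [mem_filter] at h ⊢
        exact ⟨heF, h.2⟩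
      · exact hF e heF

open Classical in
theorem main [Fintype E] {ends : E → V × V} {s : V} {J : Ideal (MvPolynomial (Fin 2) R)}
    (N : Finset V) (hN : ∀ a, a ∈ N ↔ a ≠ s ∧ ∃ e, ends e = (s, a) ∨ ends e = (a, s))
    (hne : N.Nonempty)
    (hJ : ∀ W ⊆ N, W.Nonempty → TT R ends s (nl ends s univ W) W ∈ J) :
    TT R ends s univ ∅ ∈ J := by
  have hc := claim1 N hN hJ
  -- without the edges at `s`
  have h0 : TT R ends s (univ.filter fun e => ¬ IsStar ends s e) ∅ ∈ J := by
    obtain ⟨a, ha⟩ := hne
    have has := ((hN a).mp ha).1
    rw [TT_isolated has (fun e he => not_star_iff (mem_filter.mp he).2)]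
    apply J.mul_mem_left
    refine hc _ {a} (by simpa using ha) (singleton_nonempty a) rfl _ ?_
    intro e he
    right
    by_contra h
    exact he (mem_filter.mpr ⟨mem_univ _, h⟩)
  have h1 : ∀ L : Finset E, (∀ e ∈ L, IsStar ends s e) →
      TT R ends s ((univ.filter fun e => ¬ IsStar ends s e) ∪ L) ∅ ∈ J := by
    intro L
    induction L using Finset.induction_on with
    | empty => intro _; simpa using h0
    | insert e L he ihL =>
      intro hL
      obtain ⟨a, has, hea⟩ := hL e (mem_insert_self _ _)
      have haN : a ∈ N := (hN a).mpr ⟨has, e, hea⟩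
      have hen : e ∉ (univ.filter fun e => ¬ IsStar ends s e) ∪ L := by
        rw [mem_union, mem_filter]
        rintro (⟨_, h⟩ | h)
        · exact h ⟨a, has, hea⟩
        · exact he h
      rw [union_insert, TT_star hen hea (by simpa using has)]
      apply J.add_mem (ihL fun e he => hL e (mem_insert_of_mem he))
      rw [insert_empty_eq]
      refine hc _ {a} (by simpa using haN) (singleton_nonempty a) rfl _ ?_
      intro e he
      right
      by_contra h
      exact he (mem_union_left _ (mem_filter.mpr ⟨mem_univ _, h⟩))
  have h2 := h1 (univ.filter fun e => IsStar ends s e) (fun e he => (mem_filter.mp he).2)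
  have h3 : (univ.filter fun e => ¬ IsStar ends s e) ∪ (univ.filter fun e => IsStar ends s e) =
      (univ : Finset E) := by
    rw [union_comm]; exact filter_union_filter_not_eq _ _
  rwa [h3] at h2

end Pool.Agent.R29.Nbhd
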