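import Mathlib

set_option autoImplicit false
set_option linter.unusedSectionVars false

/-!
# Rooted graphs: sums over edge sets with vertex weights
-/

namespace Pool.Agent.R29.Rooted

open Finset

variable {V E : Type} [DecidableEq V] [DecidableEq E]

/-- no edge of `A` leaves `S` -/
def Closed (ends : E → V × V) (A : Finset E) (S : Set V) : Prop :=
  ∀ e ∈ A, ((ends e).1 ∈ S ↔ (ends e).2 ∈ S)

/-- the least closed set which contains `R` -/
def reach (ends : E → V × V) (A : Finset E) (R : Set V) : Set V :=
  {v | ∀ S, R ⊆ S → Closed ends A S → v ∈ S}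

variable {ends : E → V × V}

theorem sub_reach {A : Finset E} {R : Set V} : R ⊆ reach ends A R := fun _ hv _ hS _ => hS hv

theorem reach_closed (A : Finset E) (R : Set V) : Closed ends A (reach ends A R) := by
  intro e he
  constructor
  · intro h S hS hc
    exact (hc e he).mp (h S hS hc)
  · intro h S hS hc
    exact (hc e he).mpr (h S hS hc)

theorem reach_min {A : Finset E} {R S : Set V} (h1 : R ⊆ S) (h2 : Closed ends A S) :
    reach ends A R ⊆ S := fun _ hv => hv S h1 h2

theorem reach_mono {A B : Finset E} {R S : Set V} (h1 : A ⊆ B) (h2 : R ⊆ S) :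
    reach ends A R ⊆ reach ends B S :=
  reach_min (h2.trans sub_reach) fun e he => reach_closed B S e (h1 he)

theorem reach_same {A : Finset E} {R : Set V} {e : E}
    (h : (ends e).1 ∈ reach ends A R ↔ (ends e).2 ∈ reach ends A R) :
    reach ends (insert e A) R = reach ends A R := by
  apply Set.Subset.antisymm
  · apply reach_min sub_reach
    intro e' he'
    rcases mem_insert.mp he' with rfl | he'
    · exact h
    · exact reach_closed A R e' he'
  · exact reach_mono (subset_insert _ _) (Set.Subset.refl _)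

/-- the edge `e` joins `x` and `y` -/
def Joins (ends : E → V × V) (e : E) (x y : V) : Prop := ends e = (x, y) ∨ ends e = (y, x)

theorem Joins.mem_iff {e : E} {x y : V} (h : Joins ends e x y) (S : Set V) :
    ((ends e).1 ∈ S ↔ (ends e).2 ∈ S) ↔ (x ∈ S ↔ y ∈ S) := by
  rcases h with h | h <;> rw [h]
  exact Iff.comm

theorem reach_joins {A : Finset E} {R : Set V} {e : E} {x a : V} (h : Joins ends e x a)
    (hx : x ∈ R) : reach ends (insert e A) R = reach ends A (insert a R) := by
  apply Set.Subset.antisymm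
  · apply reach_min ((Set.subset_insert _ _).trans sub_reach)
    intro e' he'
    rcases mem_insert.mp he' with rfl | he'
    · rw [h.mem_iff]
      exact iff_of_true (sub_reach (Set.mem_insert_of_mem _ hx)) (sub_reach (Set.mem_insert _ _))
    · exact reach_closed _ _ e' he'
  · apply reach_min
    · intro v hv
      rcases hv with rfl | hv
      · have := reach_closed (ends := ends) (insert e A) R e (mem_insert_self _ _)
        rw [h.mem_iff] at this
        exact this.mp (sub_reach hx)
      · exact sub_reach hv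
    · intro e' he'
      exact reach_closed _ _ e' (mem_insert_of_mem he')

/-- the vertex `v` is not an end of an edge of `A` -/
def Iso (ends : E → V × V) (A : Finset E) (v : V) : Prop :=
  ∀ e ∈ A, (ends e).1 ≠ v ∧ (ends e).2 ≠ v

theorem Iso.mono {A B : Finset E} {v : V} (h : Iso ends B v) (hAB : A ⊆ B) : Iso ends A v :=
  fun e he => h e (hAB he)

theorem Iso.notMem {A : Finset E} {R : Set V} {v : V} (h : Iso ends A v) (hv : v ∉ R) :
    v ∉ reach ends A R := by
  intro hc
  have := reach_min (ends := ends) (A := A) (R := R) (S := {v}ᶜ)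
    (fun x hx => by rintro rfl; exact hv hx)
    (fun e he => by
      have := h e he
      simp only [Set.mem_compl_iff, Set.mem_singleton_iff]
      exact iff_of_true this.1 this.2) hc
  exact this rfl

theorem Iso.reach_insert {A : Finset E} {R : Set V} {v : V} (h : Iso ends A v) :
    reach ends A (insert v R) = insert v (reach ends A R) := by
  apply Set.Subset.antisymm
  · apply reach_min
    · exact Set.insert_subset_insert sub_reach
    · intro e he
      have h1 := h e he
      have h2 := reach_closed (ends := ends) A R e he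
      simp only [Set.mem_insert_iff, h1.1, h1.2, false_or]
      exact h2
  · intro x hx
    rcases hx with rfl | hx
    · exact sub_reach (Set.mem_insert _ _)
    · exact reach_mono (subset_refl _) (Set.subset_insert _ _) hx

theorem reach_empty (A : Finset E) : reach ends A ∅ = ∅ := by
  apply Set.eq_empty_of_subset_empty
  exact reach_min (Set.Subset.refl _) (fun _ _ => Iff.rfl)

open Classical in
/-- the factor of the vertex `v` -/
noncomputable def fac (ends : E → V × V) (α β : V → ℝ) (A : Finset E) (R : Set V) (v : V) : ℝ :=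
  if v ∈ reach ends A R then α v else β v

/-- the sum over all edge sets -/
noncomputable def Fs (ends : E → V × V) (u : ℝ) (α β : V → ℝ) (W : Finset V) (F : Finset E)
    (R : Set V) : ℝ :=
  ∑ A ∈ F.powerset, u ^ A.card * ∏ v ∈ W, fac ends α β A R v

theorem fac_pos {α β : V → ℝ} {A : Finset E} {R : Set V} {v : V} (h : v ∈ reach ends A R) :
    fac ends α β A R v = α v := by unfold fac; rw [if_pos h]

theorem fac_neg {α β : V → ℝ} {A : Finset E} {R : Set V} {v : V} (h : v ∉ reach ends A R) :
    fac ends α β A R v = β v := by unfold fac; rw [if_neg h]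

theorem fac_congr {α β : V → ℝ} {A B : Finset E} {R S : Set V} {v : V}
    (h : v ∈ reach ends A R ↔ v ∈ reach ends B S) :
    fac ends α β A R v = fac ends α β B S v := by
  by_cases h1 : v ∈ reach ends A R
  · rw [fac_pos h1, fac_pos (h.mp h1)]
  · rw [fac_neg h1, fac_neg (fun h2 => h1 (h.mpr h2))]

theorem Fs_loop {u : ℝ} {α β : V → ℝ} {W : Finset V} {F : Finset E} {R : Set V} {e : E}
    (he : e ∉ F) (h : (ends e).1 = (ends e).2 ∨ ((ends e).1 ∈ R ∧ (ends e).2 ∈ R)) :
    Fs ends u α β W (insert e F) R = (1 + u) * Fs ends u α β W F R := by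
  unfold Fs
  rw [sum_powerset_insert he, ← sum_add_distrib, mul_sum]
  refine sum_congr rfl fun A hA => ?_
  have heA : e ∉ A := fun h => he (mem_powerset.mp hA h)
  have h1 : reach ends (insert e A) R = reach ends A R := by
    apply reach_same
    rcases h with h | ⟨h, h'⟩
    · rw [h]
    · exact iff_of_true (sub_reach h) (sub_reach h')
  have h2 : ∀ v, fac ends α β (insert e A) R v = fac ends α β A R v := by
    intro v; unfold fac; rw [h1]
  rw [card_insert_of_notMem heA, prod_congr rfl (fun v _ => h2 v)]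
  ring

theorem Fs_dc {u : ℝ} {α β : V → ℝ} {W : Finset V} {F : Finset E} {R : Set V} {e : E} {x a : V}
    (he : e ∉ F) (h : Joins ends e x a) (hx : x ∈ R) (ha : a ∈ W) :
    Fs ends u α β W (insert e F) R =
      Fs ends u α β W F R + u * α a * Fs ends u α β (W.erase a) F (insert a R) := by
  unfold Fs
  rw [sum_powerset_insert he, mul_sum]
  congr 1
  refine sum_congr rfl fun A hA => ?_
  have heA : e ∉ A := fun h => he (mem_powerset.mp hA h)
  have h1 := reach_joins (A := A) h hx
  have h2 : ∀ v, fac ends α β (insert e A) R v = fac ends α β A (insert a R) v := by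
    intro v; unfold fac; rw [h1]
  rw [card_insert_of_notMem heA, prod_congr rfl (fun v _ => h2 v), ← mul_prod_erase W _ ha,
    fac_pos (sub_reach (Set.mem_insert _ _))]
  ring

/-- linearity in the weights of one vertex -/
theorem Fs_lin {u : ℝ} {α β : V → ℝ} {W : Finset V} {F : Finset E} {R : Set V} {b : V}
    (hb : b ∈ W) :
    Fs ends u α β W F R =
      Fs ends u (Function.update α b 0) β W F R + Fs ends u α (Function.update β b 0) W F R := by
  unfold Fs
  rw [← sum_add_distrib]
  refine sum_congr rfl fun A _ => ?_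
  rw [← mul_prod_erase W _ hb, ← mul_prod_erase W (fac ends (Function.update α b 0) β A R) hb,
    ← mul_prod_erase W (fac ends α (Function.update β b 0) A R) hb]
  have h1 : ∀ v ∈ W.erase b, fac ends (Function.update α b 0) β A R v = fac ends α β A R v := by
    intro v hv
    have hvb : v ≠ b := (mem_erase.mp hv).1
    unfold fac
    rw [Function.update_of_ne hvb]
  have h2 : ∀ v ∈ W.erase b, fac ends α (Function.update β b 0) A R v = fac ends α β A R v := by
    intro v hv
    have hvb : v ≠ b := (mem_erase.mp hv).1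
    unfold fac
    rw [Function.update_of_ne hvb]
  rw [prod_congr rfl h1, prod_congr rfl h2]
  by_cases h : b ∈ reach ends A R
  · rw [fac_pos h, fac_pos h, fac_pos h]; simp
  · rw [fac_neg h, fac_neg h, fac_neg h]; simp

/-- a leaf `v` with neighbour `b` -/
theorem Fs_leaf {u : ℝ} {α β : V → ℝ} {W : Finset V} {F : Finset E} {R : Set V} {e : E} {v b : V}
    (he : e ∉ F) (h : Joins ends e v b) (hv : v ∈ W) (hvR : v ∉ R) (hiso : Iso ends F v)
    (hvb : v ≠ b) (hu : u ≠ 0) (hα : α v = u⁻¹) (hβ : β v = -1) :
    Fs ends u α β W (insert e F) R =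
      -(1 + u) * ∑ A ∈ F.powerset, u ^ A.card *
        (open Classical in if b ∈ reach ends A R then 0 else ∏ w ∈ W.erase v, fac ends α β A R w) := by
  classical
  unfold Fs
  rw [sum_powerset_insert he, ← sum_add_distrib, mul_sum]
  refine sum_congr rfl fun A hA => ?_
  have hAF := mem_powerset.mp hA
  have heA : e ∉ A := fun h => he (hAF h)
  have hisoA := hiso.mono hAF
  have hvA := hisoA.notMem hvR
  rw [← mul_prod_erase W _ hv, ← mul_prod_erase W (fac ends α β (insert e A) R) hv,
    card_insert_of_notMem heA, fac_neg hvA, hβ]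
  by_cases hb : b ∈ reach ends A R
  · -- `b` is reached
    have h1 : reach ends (insert e A) R = insert v (reach ends A R) := by
      apply Set.Subset.antisymm
      · apply reach_min (sub_reach.trans (Set.subset_insert _ _))
        intro e' he'
        rcases mem_insert.mp he' with rfl | he'
        · rw [h.mem_iff]
          exact iff_of_true (Set.mem_insert _ _) (Set.mem_insert_of_mem _ hb)
        · have h1 := hisoA e' he'
          have h2 := reach_closed (ends := ends) A R e' he'
          simp only [Set.mem_insert_iff, h1.1, h1.2, false_or]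
          exact h2
      · intro x hx
        rcases hx with rfl | hx
        · have := reach_closed (ends := ends) (insert e A) R e (mem_insert_self _ _)
          rw [h.mem_iff] at this
          exact this.mpr (reach_mono (subset_insert _ _) (Set.Subset.refl _) hb)
        · exact reach_mono (subset_insert _ _) (Set.Subset.refl _) hx
    have h2 : ∀ w ∈ W.erase v, fac ends α β (insert e A) R w = fac ends α β A R w := by
      intro w hw
      have hwv : w ≠ v := (mem_erase.mp hw).1
      apply fac_congr
      rw [h1, Set.mem_insert_iff]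
      simp [hwv]
    have h3 : v ∈ reach ends (insert e A) R := by rw [h1]; exact Set.mem_insert _ _
    rw [fac_pos h3, prod_congr rfl h2, if_pos hb, hα, pow_succ]
    field_simp
    ring
  · have h1 : reach ends (insert e A) R = reach ends A R := by
      apply reach_same
      rw [h.mem_iff]
      exact iff_of_false hvA hb
    have h2 : ∀ w, fac ends α β (insert e A) R w = fac ends α β A R w := by
      intro w; unfold fac; rw [h1]
    rw [h2, fac_neg hvA, hβ, prod_congr rfl (fun w _ => h2 w), if_neg hb]
    ring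

theorem Fs_leaf_W {u : ℝ} {α β : V → ℝ} {W : Finset V} {F : Finset E} {R : Set V} {e : E}
    {v b : V} (he : e ∉ F) (h : Joins ends e v b) (hv : v ∈ W) (hvR : v ∉ R)
    (hiso : Iso ends F v) (hvb : v ≠ b) (hbW : b ∈ W) (hu : u ≠ 0) (hα : α v = u⁻¹)
    (hβ : β v = -1) :
    Fs ends u α β W (insert e F) R =
      -(1 + u) * Fs ends u (Function.update α b 0) β (W.erase v) F R := by
  classical
  rw [Fs_leaf he h hv hvR hiso hvb hu hα hβ]
  congr 1
  unfold Fs
  refine sum_congr rfl fun A _ => ?_
  congr 1
  have hb' : b ∈ W.erase v := mem_erase.mpr ⟨hvb.symm, hbW⟩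
  by_cases hb : b ∈ reach ends A R
  · rw [if_pos hb]
    symm
    apply prod_eq_zero hb'
    rw [fac_pos hb]
    simp
  · rw [if_neg hb]
    refine prod_congr rfl fun w hw => ?_
    by_cases hwb : w = b
    · subst hwb
      rw [fac_neg hb, fac_neg hb]
    · unfold fac
      rw [Function.update_of_ne hwb]

theorem Fs_leaf_R {u : ℝ} {α β : V → ℝ} {W : Finset V} {F : Finset E} {R : Set V} {e : E}
    {v b : V} (he : e ∉ F) (h : Joins ends e v b) (hv : v ∈ W) (hvR : v ∉ R)
    (hiso : Iso ends F v) (hvb : v ≠ b) (hbR : b ∈ R) (hu : u ≠ 0) (hα : α v = u⁻¹)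
    (hβ : β v = -1) :
    Fs ends u α β W (insert e F) R = 0 := by
  classical
  rw [Fs_leaf he h hv hvR hiso hvb hu hα hβ]
  rw [sum_eq_zero, mul_zero]
  intro A _
  rw [if_pos (sub_reach hbR), mul_zero]

/-- an isolated root vertex -/
theorem Fs_iso_root {u : ℝ} {α β : V → ℝ} {W : Finset V} {F : Finset E} {R : Set V} {a : V}
    (h : Iso ends F a) (ha : a ∉ W) :
    Fs ends u α β W F (insert a R) = Fs ends u α β W F R := by
  unfold Fs
  refine sum_congr rfl fun A hA => ?_
  congr 1
  refine prod_congr rfl fun v hv => ?_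
  apply fac_congr
  rw [(h.mono (mem_powerset.mp hA)).reach_insert, Set.mem_insert_iff]
  have : v ≠ a := by rintro rfl; exact ha hv
  simp [this]

/-- an isolated vertex -/
theorem Fs_iso {u : ℝ} {α β : V → ℝ} {W : Finset V} {F : Finset E} {R : Set V} {a : V}
    (h : Iso ends F a) (ha : a ∈ W) (haR : a ∉ R) :
    Fs ends u α β W F R = β a * Fs ends u α β (W.erase a) F R := by
  unfold Fs
  rw [mul_sum]
  refine sum_congr rfl fun A hA => ?_
  rw [← mul_prod_erase W _ ha, fac_neg ((h.mono (mem_powerset.mp hA)).notMem haR)]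
  ring

/-- an edge at a dead vertex -/
theorem Fs_dead {u : ℝ} {α β : V → ℝ} {W : Finset V} {F : Finset E} {R : Set V} {f : E}
    {b c : V} (hf : f ∉ F) (h : Joins ends f b c) (hb : b ∈ W) (hc : c ∈ W) (hbc : c ≠ b)
    (hα : α b = 0) :
    Fs ends u α β W (insert f F) R =
      Fs ends u α (Function.update β c ((1 + u) * β c)) W F R := by
  unfold Fs
  rw [sum_powerset_insert hf, ← sum_add_distrib]
  refine sum_congr rfl fun A hA => ?_
  have hfA : f ∉ A := fun h => hf (mem_powerset.mp hA h)
  rw [card_insert_of_notMem hfA]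
  by_cases h1 : b ∈ reach ends A R
  · have h2 : b ∈ reach ends (insert f A) R := reach_mono (subset_insert _ _) (Set.Subset.refl _) h1
    rw [prod_eq_zero hb (by rw [fac_pos h1, hα]), prod_eq_zero hb (by rw [fac_pos h2, hα]),
      prod_eq_zero hb (by rw [fac_pos h1, hα])]
    ring
  · by_cases h3 : c ∈ reach ends A R
    · have h2 : b ∈ reach ends (insert f A) R := by
        have := reach_closed (ends := ends) (insert f A) R f (mem_insert_self _ _)
        rw [h.mem_iff] at this
        exact this.mpr (reach_mono (subset_insert _ _) (Set.Subset.refl _) h3)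
      rw [prod_eq_zero (i := b) (f := fac ends α β (insert f A) R) hb (by rw [fac_pos h2, hα]),
        mul_zero, add_zero]
      congr 1
      refine prod_congr rfl fun v _ => ?_
      by_cases hvc : v = c
      · subst hvc
        rw [fac_pos h3, fac_pos h3]
      · unfold fac
        rw [Function.update_of_ne hvc]
    · have h4 : reach ends (insert f A) R = reach ends A R := by
        apply reach_same
        rw [h.mem_iff]
        exact iff_of_false h1 h3
      have h5 : ∀ v, fac ends α β (insert f A) R v = fac ends α β A R v := by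
        intro v; unfold fac; rw [h4]
      rw [prod_congr rfl (fun v _ => h5 v), ← mul_prod_erase W _ hc,
        ← mul_prod_erase W (fac ends α (Function.update β c ((1 + u) * β c)) A R) hc,
        fac_neg h3, fac_neg h3, Function.update_self]
      have h6 : ∀ v ∈ W.erase c, fac ends α (Function.update β c ((1 + u) * β c)) A R v =
          fac ends α β A R v := by
        intro v hv
        have hvc : v ≠ c := (mem_erase.mp hv).1
        unfold fac
        rw [Function.update_of_ne hvc]
      rw [prod_congr rfl h6]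
      ring

theorem Fs_W_empty {u : ℝ} {α β : V → ℝ} {F : Finset E} {R : Set V} :
    Fs ends u α β ∅ F R = (1 + u) ^ F.card := by
  unfold Fs
  simp only [prod_empty, mul_one]
  have := Finset.sum_pow_mul_eq_add_pow u 1 F
  simp only [one_pow, mul_one] at this
  rw [this, add_comm]

theorem Fs_R_empty {u : ℝ} {α β : V → ℝ} {W : Finset V} {F : Finset E} :
    Fs ends u α β W F ∅ = (1 + u) ^ F.card * ∏ v ∈ W, β v := by
  unfold Fs
  have h1 : ∀ A ∈ F.powerset, u ^ A.card * ∏ v ∈ W, fac ends α β A ∅ v =
      u ^ A.card * ∏ v ∈ W, β v := by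
    intro A _
    congr 1
    refine prod_congr rfl fun v _ => fac_neg ?_
    rw [reach_empty]
    exact Set.notMem_empty v
  rw [sum_congr rfl h1, ← sum_mul]
  have := Finset.sum_pow_mul_eq_add_pow u 1 F
  simp only [one_pow, mul_one] at this
  rw [this, add_comm]

/-- disjoint unions -/
theorem Fs_split {u : ℝ} {α β : V → ℝ} {W₁ W₂ : Finset V} {F₁ F₂ : Finset E} {R₁ R₂ : Set V}
    (hd : ∀ v, ¬ ((v ∈ W₁ ∨ v ∈ R₁) ∧ (v ∈ W₂ ∨ v ∈ R₂)))
    (h₁ : ∀ e ∈ F₁, ((ends e).1 ∈ W₁ ∨ (ends e).1 ∈ R₁) ∧ ((ends e).2 ∈ W₁ ∨ (ends e).2 ∈ R₁))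
    (h₂ : ∀ e ∈ F₂, ((ends e).1 ∈ W₂ ∨ (ends e).1 ∈ R₂) ∧ ((ends e).2 ∈ W₂ ∨ (ends e).2 ∈ R₂)) :
    Fs ends u α β (W₁ ∪ W₂) (F₁ ∪ F₂) (R₁ ∪ R₂) =
      Fs ends u α β W₁ F₁ R₁ * Fs ends u α β W₂ F₂ R₂ := by
  have hF : Disjoint F₁ F₂ := by
    rw [disjoint_left]
    intro e he₁ he₂
    exact hd _ ⟨(h₁ e he₁).1, (h₂ e he₂).1⟩
  have hW : Disjoint W₁ W₂ := by
    rw [disjoint_left]
    intro v hv₁ hv₂
    exact hd v ⟨Or.inl hv₁, Or.inl hv₂⟩
  have hr₁ : ∀ A ⊆ F₁, ∀ v ∈ reach ends A R₁, v ∈ W₁ ∨ v ∈ R₁ := by
    intro A hA v hv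
    exact reach_min (S := {v | v ∈ W₁ ∨ v ∈ R₁}) (fun x hx => Or.inr hx)
      (fun e he => iff_of_true (h₁ e (hA he)).1 (h₁ e (hA he)).2) hv
  have hr₂ : ∀ A ⊆ F₂, ∀ v ∈ reach ends A R₂, v ∈ W₂ ∨ v ∈ R₂ := by
    intro A hA v hv
    exact reach_min (S := {v | v ∈ W₂ ∨ v ∈ R₂}) (fun x hx => Or.inr hx)
      (fun e he => iff_of_true (h₂ e (hA he)).1 (h₂ e (hA he)).2) hv
  have hr : ∀ A₁ ⊆ F₁, ∀ A₂ ⊆ F₂, reach ends (A₁ ∪ A₂) (R₁ ∪ R₂) =
      reach ends A₁ R₁ ∪ reach ends A₂ R₂ := by
    intro A₁ hA₁ A₂ hA₂
    apply Set.Subset.antisymm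
    · apply reach_min (Set.union_subset_union sub_reach sub_reach)
      intro e he
      rcases mem_union.mp he with he | he
      · have h3 := reach_closed (ends := ends) A₁ R₁ e he
        have h4 : (ends e).1 ∉ reach ends A₂ R₂ := fun hc =>
          hd _ ⟨(h₁ e (hA₁ he)).1, hr₂ A₂ hA₂ _ hc⟩
        have h5 : (ends e).2 ∉ reach ends A₂ R₂ := fun hc =>
          hd _ ⟨(h₁ e (hA₁ he)).2, hr₂ A₂ hA₂ _ hc⟩
        simp only [Set.mem_union, h4, h5, or_false]
        exact h3
      · have h3 := reach_closed (ends := ends) A₂ R₂ e he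
        have h4 : (ends e).1 ∉ reach ends A₁ R₁ := fun hc =>
          hd _ ⟨hr₁ A₁ hA₁ _ hc, (h₂ e (hA₂ he)).1⟩
        have h5 : (ends e).2 ∉ reach ends A₁ R₁ := fun hc =>
          hd _ ⟨hr₁ A₁ hA₁ _ hc, (h₂ e (hA₂ he)).2⟩
        simp only [Set.mem_union, h4, h5, false_or]
        exact h3
    · apply Set.union_subset
      · exact reach_mono subset_union_left Set.subset_union_left
      · exact reach_mono subset_union_right Set.subset_union_right
  unfold Fs
  rw [sum_mul_sum, ← sum_product']
  symm
  refine sum_bij' (fun p _ => p.1 ∪ p.2) (fun A _ => (A ∩ F₁, A ∩ F₂)) ?_ ?_ ?_ ?_ ?_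
  · rintro ⟨A₁, A₂⟩ hA
    rw [mem_product, mem_powerset, mem_powerset] at hA
    rw [mem_powerset]
    exact union_subset_union hA.1 hA.2
  · intro A _
    rw [mem_product, mem_powerset, mem_powerset]
    exact ⟨inter_subset_right, inter_subset_right⟩
  · rintro ⟨A₁, A₂⟩ hA
    rw [mem_product, mem_powerset, mem_powerset] at hA
    obtain ⟨hA₁, hA₂⟩ := hA
    have e1 : A₂ ∩ F₁ = ∅ := by
      rw [← disjoint_iff_inter_eq_empty]
      exact (disjoint_of_subset_right hA₂ hF).symm
    have e2 : A₁ ∩ F₂ = ∅ := by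
      rw [← disjoint_iff_inter_eq_empty]
      exact disjoint_of_subset_left hA₁ hF
    rw [Prod.mk.injEq, union_inter_distrib_right, union_inter_distrib_right, e1, e2,
      union_empty, empty_union, inter_eq_left.mpr hA₁, inter_eq_left.mpr hA₂]
    exact ⟨rfl, rfl⟩
  · intro A hA
    rw [mem_powerset] at hA
    show A ∩ F₁ ∪ A ∩ F₂ = A
    rw [← inter_union_distrib_left, inter_eq_left.mpr hA]
  · rintro ⟨A₁, A₂⟩ hA
    rw [mem_product, mem_powerset, mem_powerset] at hA
    obtain ⟨hA₁, hA₂⟩ := hA
    simp only at hA₁ hA₂ ⊢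
    rw [card_union_of_disjoint (disjoint_of_subset_left hA₁ (disjoint_of_subset_right hA₂ hF)),
      prod_union hW]
    have e1 : ∀ v ∈ W₁, fac ends α β (A₁ ∪ A₂) (R₁ ∪ R₂) v = fac ends α β A₁ R₁ v := by
      intro v hv
      apply fac_congr
      rw [hr A₁ hA₁ A₂ hA₂, Set.mem_union]
      constructor
      · rintro (h | h)
        · exact h
        · exact absurd ⟨Or.inl hv, hr₂ A₂ hA₂ v h⟩ (hd v)
      · exact Or.inl
    have e2 : ∀ v ∈ W₂, fac ends α β (A₁ ∪ A₂) (R₁ ∪ R₂) v = fac ends α β A₂ R₂ v := by
      intro v hv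
      apply fac_congr
      rw [hr A₁ hA₁ A₂ hA₂, Set.mem_union]
      constructor
      · rintro (h | h)
        · exact absurd ⟨hr₁ A₁ hA₁ v h, Or.inl hv⟩ (hd v)
        · exact h
      · exact Or.inr
    rw [prod_congr rfl e1, prod_congr rfl e2, pow_add]
    ring

end Pool.Agent.R29.Rooted
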