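import Pool.Agent.R29.RootedPos

set_option autoImplicit false
set_option linter.unusedSectionVars false

/-!
# The sum of a rooted graph without leaves at the root does not vanish
-/

namespace Pool.Agent.R29.Rooted

open Finset Filter Topology

variable {V E : Type} [DecidableEq V] [DecidableEq E] {ends : E → V × V}

theorem Fs_congr {u : ℝ} {α β α' β' : V → ℝ} {W : Finset V} {F : Finset E} {R : Set V}
    (hα : ∀ v ∈ W, α v = α' v) (hβ : ∀ v ∈ W, β v = β' v) :
    Fs ends u α β W F R = Fs ends u α' β' W F R := by
  unfold Fs
  refine sum_congr rfl fun A _ => ?_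
  congr 1
  refine prod_congr rfl fun v hv => ?_
  unfold fac
  rw [hα v hv, hβ v hv]

instance (b c : V) : DecidablePred fun f => Joins ends f b c := fun f => by
  unfold Joins; infer_instance

/-- the number of the edges in `D` which join `b` and `c` -/
def mult (ends : E → V × V) (D : Finset E) (b c : V) : ℕ :=
  (D.filter fun f => Joins ends f b c).card

/-- all edges at a dead vertex -/
theorem Fs_dead_all {u : ℝ} {α : V → ℝ} {W : Finset V} {R : Set V} {b : V} (hb : b ∈ W)
    (hα : α b = 0) (K : Finset E) :
    ∀ (D : Finset E), Disjoint K D → (∀ f ∈ D, ∃ c, Joins ends f b c ∧ c ≠ b ∧ (c ∈ W ∨ c ∈ R)) →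
      ∀ β : V → ℝ, Fs ends u α β W (K ∪ D) R =
        Fs ends u α (fun c => (1 + u) ^ mult ends D b c * β c) W K R := by
  classical
  intro D
  induction D using Finset.induction_on with
  | empty =>
    intro _ _ β
    rw [union_empty]
    apply Fs_congr (fun _ _ => rfl)
    intro v _
    simp [mult]
  | insert f D hf ih =>
    intro hd hD β
    obtain ⟨c, hj, hcb, hc⟩ := hD f (mem_insert_self _ _)
    have hfK : f ∉ K := fun h => (disjoint_left.mp hd h) (mem_insert_self _ _)
    have hfKD : f ∉ K ∪ D := by
      rw [mem_union]; rintro (h | h)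
      · exact hfK h
      · exact hf h
    have hd' : Disjoint K D := disjoint_of_subset_right (subset_insert _ _) hd
    have hD' : ∀ f ∈ D, ∃ c, Joins ends f b c ∧ c ≠ b ∧ (c ∈ W ∨ c ∈ R) :=
      fun f hf => hD f (mem_insert_of_mem hf)
    have hm : ∀ w, w ≠ c → mult ends (insert f D) b w = mult ends D b w := by
      intro w hw
      unfold mult
      rw [filter_insert, if_neg]
      intro hjw
      apply hw
      rcases hj with h | h <;> rcases hjw with h' | h' <;> rw [h, Prod.mk.injEq] at h'
      · exact h'.2.symm
      · exact absurd h'.2 hcb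
      · exact absurd h'.1 hcb
      · exact h'.1.symm
    have hmc : mult ends (insert f D) b c = mult ends D b c + 1 := by
      unfold mult
      rw [filter_insert, if_pos hj, card_insert_of_notMem]
      intro h
      exact hf (mem_filter.mp h).1
    rw [union_insert]
    by_cases hcW : c ∈ W
    · rw [Fs_dead hfKD hj hb hcW hcb hα, ih hd' hD']
      apply Fs_congr (fun _ _ => rfl)
      intro w _
      by_cases hw : w = c
      · subst hw
        rw [Function.update_self, hmc, pow_succ]
        ring
      · rw [Function.update_of_ne hw, hm w hw]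
    · have hcR : c ∈ R := hc.resolve_left hcW
      have hj' : Joins ends f c b := hj.symm
      rw [Fs_dc hfKD hj' hcR hb, hα, mul_zero, zero_mul, add_zero, ih hd' hD']
      apply Fs_congr (fun _ _ => rfl)
      intro w hw
      rw [hm w (fun h => hcW (h ▸ hw))]

/-- the nonvanishing lemma -/
theorem nv : ∀ (n : ℕ) (l : V → ℕ) (W : Finset V) (F : Finset E) (R : Set V), F.card = n →
    (∀ v ∈ W, v ∉ R) →
    (∀ e ∈ F, ((ends e).1 ∈ W ∨ (ends e).1 ∈ R) ∧ ((ends e).2 ∈ W ∨ (ends e).2 ∈ R)) →
    (∀ e ∈ F, (ends e).1 ≠ (ends e).2) →
    (∀ v ∈ W, l v = 0 → ∀ e, atv ends F v = {e} → ∀ b, Joins ends e v b → b ∉ R) →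
    ∀ᶠ y in 𝓝[>] (0 : ℝ), Fy ends (fun v y => y ^ l v) W F R y ≠ 0 := by
  intro n
  induction n using Nat.strong_induction_on with
  | _ n ih =>
    intro l W F R hn hdis hinn hnl hleaf
    by_cases hA : ∃ v ∈ W, l v = 0 ∧ (atv ends F v).card = 1
    · obtain ⟨v, hv, hlv, hcv⟩ := hA
      obtain ⟨e, he⟩ := card_eq_one.mp hcv
      have he1 : e ∈ F ∧ Inc ends v e := by
        rw [← mem_atv, he]; exact mem_singleton_self _
      obtain ⟨b, hjb, hvb⟩ : ∃ b, Joins ends e v b ∧ v ≠ b := by
        have hnl' := hnl e he1.1
        rcases he1.2 with h | h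
        · refine ⟨(ends e).2, Or.inl (by rw [← h]), ?_⟩
          rw [← h]; exact hnl'
        · refine ⟨(ends e).1, Or.inr (by rw [← h]), ?_⟩
          rw [← h]; exact hnl'.symm
      have hbR : b ∉ R := hleaf v hv hlv e he b hjb
      have hbW : b ∈ W := by
        obtain ⟨h1, h2⟩ := hinn e he1.1
        have : b ∈ W ∨ b ∈ R := by
          rcases hjb with h | h
          · rw [h] at h2; exact h2
          · rw [h] at h1; exact h1
        exact this.resolve_right hbR
      set F₁ := F.erase e with hF₁
      have hF : insert e F₁ = F := insert_erase he1.1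
      have heF₁ : e ∉ F₁ := notMem_erase _ _
      have hiso : Iso ends F₁ v := by
        intro f hf
        have h1 : f ∉ atv ends F v := by
          rw [he, mem_singleton]
          rintro rfl
          exact heF₁ hf
        rw [mem_atv] at h1
        push Not at h1
        have h2 := h1 (mem_of_mem_erase hf)
        exact ⟨fun h => h2 (Or.inl h), fun h => h2 (Or.inr h)⟩
      set D := atv ends F₁ b with hD
      set K := F₁ \ D with hK
      have hKD : K ∪ D = F₁ := by
        rw [hK]
        apply sdiff_union_of_subset
        intro f hf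
        exact (mem_atv.mp hf).1
      have hKd : Disjoint K D := sdiff_disjoint
      have hKF : K ⊆ F := sdiff_subset.trans (erase_subset _ _)
      have hisoK : Iso ends K b := by
        intro f hf
        obtain ⟨h1, h2⟩ := Finset.mem_sdiff.mp hf
        rw [hD, mem_atv] at h2
        push Not at h2
        have h3 := h2 h1
        exact ⟨fun h => h3 (Or.inl h), fun h => h3 (Or.inr h)⟩
      have hbWv : b ∈ W.erase v := mem_erase.mpr ⟨hvb.symm, hbW⟩
      set W' := (W.erase v).erase b with hW'
      let l' : V → ℕ := fun c => l c + mult ends D b c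
      have hDj : ∀ f ∈ D, ∃ c, Joins ends f b c ∧ c ≠ b ∧ (c ∈ W.erase v ∨ c ∈ R) := by
        intro f hf
        obtain ⟨h1, h2⟩ := mem_atv.mp hf
        have hfF := mem_of_mem_erase h1
        obtain ⟨h3, h4⟩ := hinn f hfF
        have h5 := hnl f hfF
        have h6 := hiso f h1
        rcases h2 with h | h
        · refine ⟨(ends f).2, Or.inl (by rw [← h]), fun hc => h5 (by rw [h, hc]), ?_⟩
          exact h4.imp (fun h7 => mem_erase.mpr ⟨h6.2, h7⟩) id
        · refine ⟨(ends f).1, Or.inr (by rw [← h]), fun hc => h5 (by rw [h, hc]), ?_⟩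
          exact h3.imp (fun h7 => mem_erase.mpr ⟨h6.1, h7⟩) id
      -- the identity
      have hid : ∀ y : ℝ, y - 1 ≠ 0 → Fy ends (fun v y => y ^ l v) W F R y =
          y * y ^ l b * Fy ends (fun v y => y ^ l' v) W' K R y := by
        intro y hy
        unfold Fy
        conv_lhs => rw [← hF]
        rw [Fs_leaf_W heF₁ hjb hv (hdis v hv) hiso hvb hbW hy rfl (by simp [hlv]), ← hKD,
          Fs_dead_all hbWv (by simp) K D hKd hDj, Fs_iso hisoK hbWv hbR]
        have hmb : mult ends D b b = 0 := by
          unfold mult
          rw [card_eq_zero]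
          apply eq_empty_of_forall_notMem
          intro f hf
          obtain ⟨h1, h2⟩ := mem_filter.mp hf
          have h3 := hnl f (mem_of_mem_erase (mem_atv.mp h1).1)
          rcases h2 with h2 | h2 <;> exact h3 (by rw [h2])
        have hc : Fs ends (y - 1) (Function.update (fun _ => (y - 1)⁻¹) b 0)
            (fun c => (1 + (y - 1)) ^ mult ends D b c * -y ^ l c) ((W.erase v).erase b) K R =
            Fs ends (y - 1) (fun _ => (y - 1)⁻¹) (fun v => -y ^ l' v) W' K R := by
          apply Fs_congr
          · intro w hw
            rw [Function.update_of_ne (mem_erase.mp hw).1]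
          · intro w _
            simp only [l', pow_add]
            ring
        rw [hc, hmb]
        ring
      have hIH := ih K.card (by
        rw [← hn]
        apply card_lt_card
        refine ⟨hKF, fun h => ?_⟩
        have h1 := h he1.1
        exact heF₁ (Finset.mem_sdiff.mp h1).1) l' W' K R rfl
        (fun w hw => hdis w (mem_of_mem_erase (mem_of_mem_erase hw)))
        (by
          intro f hf
          obtain ⟨h1, h2⟩ := hinn f (hKF hf)
          have h3 := hiso f (Finset.mem_sdiff.mp hf).1
          have h4 := hisoK f hf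
          exact ⟨h1.imp (fun h => mem_erase.mpr ⟨h4.1, mem_erase.mpr ⟨h3.1, h⟩⟩) id,
            h2.imp (fun h => mem_erase.mpr ⟨h4.2, mem_erase.mpr ⟨h3.2, h⟩⟩) id⟩)
        (fun f hf => hnl f (hKF hf))
        (by
          intro c hc hlc f hf d hj
          obtain ⟨hcb, hc2⟩ := mem_erase.mp hc
          obtain ⟨hcv, hcW⟩ := mem_erase.mp hc2
          have hl0 : l c = 0 ∧ mult ends D b c = 0 := by
            simp only [l'] at hlc; omega
          refine hleaf c hcW hl0.1 f ?_ d hj
          rw [← hf]
          ext g
          rw [mem_atv, mem_atv]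
          constructor
          · rintro ⟨h1, h2⟩
            refine ⟨?_, h2⟩
            rw [← hF] at h1
            rcases mem_insert.mp h1 with rfl | h1
            · exfalso
              rcases h2 with h2 | h2 <;> rcases hjb with h3 | h3 <;> rw [h3] at h2
              · exact hcv h2.symm
              · exact hcb h2.symm
              · exact hcb h2.symm
              · exact hcv h2.symm
            · rw [hK, Finset.mem_sdiff]
              refine ⟨h1, fun h3 => ?_⟩
              have h4 : g ∉ D.filter fun f => Joins ends f b c := by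
                have h5 := hl0.2
                unfold mult at h5
                rw [card_eq_zero] at h5
                rw [h5]
                exact notMem_empty _
              apply h4
              rw [mem_filter]
              refine ⟨h3, ?_⟩
              rcases (mem_atv.mp h3).2 with h5 | h5 <;> rcases h2 with h6 | h6
              · exact absurd (h6.symm.trans h5) hcb
              · exact Or.inl (Prod.ext h5 h6)
              · exact Or.inr (Prod.ext h6 h5)
              · exact absurd (h6.symm.trans h5) hcb
          · rintro ⟨h1, h2⟩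
            exact ⟨hKF h1, h2⟩)
      filter_upwards [hIH, ev_small 1 one_pos] with y hy ⟨h0, h1⟩
      rw [hid y (by linarith)]
      exact mul_ne_zero (mul_ne_zero h0.ne' (pow_ne_zero _ h0.ne')) hy
    · -- no free leaf
      push Not at hA
      classical
      let S := reach ends F R
      let Wr := W.filter fun v => v ∈ S
      let Va := W.filter fun v => v ∉ S
      let Fr := F.filter fun e => (ends e).1 ∈ S
      let Fa := F.filter fun e => (ends e).1 ∉ S
      have hclS : ∀ e' ∈ F, (ends e').1 ∈ S ↔ (ends e').2 ∈ S := reach_closed F R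
      have hRS : R ⊆ S := sub_reach
      have hWu : Wr ∪ Va = W := filter_union_filter_not_eq _ _
      have hFu : Fr ∪ Fa = F := filter_union_filter_not_eq _ _
      have hFr : ∀ e' ∈ Fr, ((ends e').1 ∈ Wr ∨ (ends e').1 ∈ R) ∧
          ((ends e').2 ∈ Wr ∨ (ends e').2 ∈ R) := by
        intro e' he'
        obtain ⟨h1, h2⟩ := mem_filter.mp he'
        obtain ⟨h3, h4⟩ := hinn e' h1
        exact ⟨h3.imp (fun h => mem_filter.mpr ⟨h, h2⟩) id,
          h4.imp (fun h => mem_filter.mpr ⟨h, (hclS e' h1).mp h2⟩) id⟩
      have hFa : ∀ e' ∈ Fa, (ends e').1 ∈ Va ∧ (ends e').2 ∈ Va := by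
        intro e' he'
        obtain ⟨h1, h2⟩ := mem_filter.mp he'
        obtain ⟨h3, h4⟩ := hinn e' h1
        have h5 : (ends e').2 ∉ S := fun h => h2 ((hclS e' h1).mpr h)
        refine ⟨?_, ?_⟩
        · rcases h3 with h | h
          · exact mem_filter.mpr ⟨h, h2⟩
          · exact absurd (hRS h) h2
        · rcases h4 with h | h
          · exact mem_filter.mpr ⟨h, h5⟩
          · exact absurd (hRS h) h5
      have hdis0 : ∀ v, ¬ ((v ∈ Wr ∨ v ∈ R) ∧ v ∈ Va) := by
        rintro v ⟨h1 | h1, h2⟩
        · exact (mem_filter.mp h2).2 (mem_filter.mp h1).2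
        · exact (mem_filter.mp h2).2 (hRS h1)
      have hs1 : ∀ y, Fy ends (fun v y => y ^ l v) W F R y =
          Fy ends (fun v y => y ^ l v) Wr Fr R y *
          (y ^ Fa.card * ∏ v ∈ Va, (-y ^ l v)) := by
        intro y
        have h1 := Fs_split (ends := ends) (u := y - 1) (α := fun _ => (y - 1)⁻¹)
          (β := fun v => -y ^ l v) (W₁ := Wr) (W₂ := Va) (F₁ := Fr) (F₂ := Fa) (R₁ := R)
          (R₂ := ∅)
          (by
            rintro v ⟨h1, h2 | h2⟩
            · exact hdis0 v ⟨h1, h2⟩
            · exact h2) hFr
          (fun e' he' => ⟨Or.inl (hFa e' he').1, Or.inl (hFa e' he').2⟩)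
        rw [hWu, hFu, Set.union_empty, Fs_R_empty] at h1
        unfold Fy
        rw [h1]
        congr 2
        ring
      have hatv : ∀ v ∈ Wr, atv ends F v = atv ends Fr v := by
        intro v hv
        obtain ⟨h1, h2⟩ := mem_filter.mp hv
        ext e'
        rw [mem_atv, mem_atv]
        constructor
        · rintro ⟨h5, h6⟩
          refine ⟨mem_filter.mpr ⟨h5, ?_⟩, h6⟩
          rcases h6 with h6 | h6
          · rw [h6]; exact h2
          · rw [hclS e' h5, h6]; exact h2
        · rintro ⟨h5, h6⟩
          exact ⟨(mem_filter.mp h5).1, h6⟩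
      have hGr : Good ends (fun v y => y ^ l v) Wr Fr R := by
        refine ⟨fun v hv => hdis v (mem_filter.mp hv).1, hFr,
          fun e' he' => hnl e' (mem_filter.mp he').1, ?_, ?_⟩
        · intro v hv
          have h1 : v ∈ reach ends F R := (mem_filter.mp hv).2
          refine reach_min (S := reach ends Fr R) sub_reach ?_ h1
          intro e' he'
          by_cases h2 : (ends e').1 ∈ S
          · exact reach_closed Fr R e' (mem_filter.mpr ⟨he', h2⟩)
          · have h3 : (ends e').2 ∉ S := fun h => h2 ((hclS e' he').mpr h)
            have h4 : reach ends Fr R ⊆ S := reach_mono (filter_subset _ _) (Set.Subset.refl _)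
            exact iff_of_false (fun h => h2 (h4 h)) (fun h => h3 (h4 h))
        · intro v hv
          obtain ⟨h1, h2⟩ := mem_filter.mp hv
          rcases Nat.eq_zero_or_pos (l v) with h3 | h3
          · left
            refine ⟨fun y => by simp [h3], ?_⟩
            rw [← hatv v hv]
            have h4 := hA v h1 h3
            have h5 : (atv ends F v).card ≠ 0 := by
              intro h6
              rw [card_eq_zero] at h6
              have h7 : Iso ends F v := by
                intro f hf
                have h8 : f ∉ atv ends F v := by rw [h6]; exact notMem_empty _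
                rw [mem_atv] at h8
                push Not at h8
                have h9 := h8 hf
                exact ⟨fun h => h9 (Or.inl h), fun h => h9 (Or.inr h)⟩
              exact h7.notMem (hdis v h1) h2
            omega
          · right
            intro y h0 h1
            refine ⟨by positivity, ?_⟩
            calc y ^ l v ≤ y ^ 1 := pow_le_pow_of_le_one h0.le h1.le h3
              _ = y := pow_one y
      obtain ⟨c, hc, h⟩ := (good_pos _ _ Wr Fr R rfl hGr).1
      filter_upwards [h, ev_small 1 one_pos] with y hy ⟨h0, h1⟩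
      rw [hs1]
      refine mul_ne_zero (ne_of_gt (lt_of_lt_of_le (by positivity) hy)) ?_
      refine mul_ne_zero (pow_ne_zero _ h0.ne') ?_
      rw [prod_ne_zero_iff]
      intro v _
      exact neg_ne_zero.mpr (pow_ne_zero _ h0.ne')

end Pool.Agent.R29.Rooted
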