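import Pool.Agent.R29.Rooted

set_option autoImplicit false
set_option linter.unusedSectionVars false

/-!
# Positivity of the sums for small positive `y`
-/

namespace Pool.Agent.R29.Rooted

open Finset Filter Topology

variable {V E : Type} [DecidableEq V] [DecidableEq E] {ends : E → V × V}

/-- the edge `e` has the end `v` -/
def Inc (ends : E → V × V) (v : V) (e : E) : Prop := (ends e).1 = v ∨ (ends e).2 = v

instance (ends : E → V × V) (v : V) : DecidablePred (Inc ends v) := fun e => by
  unfold Inc; infer_instance

/-- the edges of `F` at `v` -/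
def atv (ends : E → V × V) (F : Finset E) (v : V) : Finset E := F.filter (Inc ends v)

theorem mem_atv {F : Finset E} {v : V} {e : E} : e ∈ atv ends F v ↔ e ∈ F ∧ Inc ends v e := by
  unfold atv; rw [mem_filter]

/-- the sum as a function of `y` -/
noncomputable def Fy (ends : E → V × V) (ψ : V → ℝ → ℝ) (W : Finset V) (F : Finset E) (R : Set V)
    (y : ℝ) : ℝ :=
  Fs ends (y - 1) (fun _ => (y - 1)⁻¹) (fun v => -ψ v y) W F R

/-- the class of the positivity lemma -/
structure Good (ends : E → V × V) (ψ : V → ℝ → ℝ) (W : Finset V) (F : Finset E) (R : Set V) :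
    Prop where
  dis : ∀ v ∈ W, v ∉ R
  inn : ∀ e ∈ F, ((ends e).1 ∈ W ∨ (ends e).1 ∈ R) ∧ ((ends e).2 ∈ W ∨ (ends e).2 ∈ R)
  nl : ∀ e ∈ F, (ends e).1 ≠ (ends e).2
  conn : ∀ v ∈ W, v ∈ reach ends F R
  wt : ∀ v ∈ W, ((∀ y, ψ v y = 1) ∧ 2 ≤ (atv ends F v).card) ∨
    (∀ y, 0 < y → y < 1 → 0 ≤ ψ v y ∧ ψ v y ≤ y)

/-- the bound in the positivity lemma -/
def Pos (ends : E → V × V) (ψ : V → ℝ → ℝ) (W : Finset V) (F : Finset E) (R : Set V) : Prop :=
  (∃ c > 0, ∀ᶠ y in 𝓝[>] (0 : ℝ), c * y ^ F.card ≤ Fy ends ψ W F R y) ∧
  (W.Nonempty → ∃ c > 0, ∀ᶠ y in 𝓝[>] (0 : ℝ), c * y ^ F.card ≤ y * Fy ends ψ W F R y)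

theorem ev_small (ε : ℝ) (hε : 0 < ε) : ∀ᶠ y in 𝓝[>] (0 : ℝ), 0 < y ∧ y < ε := by
  have h1 : Set.Ioo (0 : ℝ) ε ∈ 𝓝[>] (0 : ℝ) := Ioo_mem_nhdsGT hε
  exact Filter.mem_of_superset h1 fun y hy => hy

theorem pos_of_mul_pos_right' {a b : ℝ} (h : 0 < a * b) (ha : 0 < a) : 0 < b := by
  by_contra hb
  push Not at hb
  nlinarith

/-- the bound for nonempty `W` implies the other one -/
theorem pos_of {ψ : V → ℝ → ℝ} {W : Finset V} {F : Finset E} {R : Set V}
    (h : ∃ c > 0, ∀ᶠ y in 𝓝[>] (0 : ℝ), c * y ^ F.card ≤ y * Fy ends ψ W F R y) :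
    Pos ends ψ W F R := by
  refine ⟨?_, fun _ => h⟩
  obtain ⟨c, hc, h⟩ := h
  refine ⟨c, hc, ?_⟩
  filter_upwards [h, ev_small 1 one_pos] with y hy ⟨h0, h1⟩
  have h2 : 0 ≤ c * y ^ F.card := by positivity
  by_contra hcon
  push Not at hcon
  have h3 : 0 < y * Fy ends ψ W F R y ∨ y * Fy ends ψ W F R y = 0 := by
    rcases lt_or_eq_of_le (h2.trans hy) with h | h
    · exact Or.inl h
    · exact Or.inr h.symm
  have hF0 : 0 ≤ Fy ends ψ W F R y := by
    rcases h3 with h3 | h3
    · exact (pos_of_mul_pos_right' h3 h0).le
    · rcases mul_eq_zero.mp h3 with h | h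
      · exact absurd h h0.ne'
      · exact h.ge
  have : y * Fy ends ψ W F R y ≤ 1 * Fy ends ψ W F R y :=
    mul_le_mul_of_nonneg_right h1.le hF0
  linarith

/-- removing an edge from `F` and adding its factor -/
theorem atv_insert_of_not {F : Finset E} {v : V} {e : E} (h : ¬ Inc ends v e) :
    atv ends (insert e F) v = atv ends F v := by
  unfold atv
  rw [filter_insert, if_neg h]

theorem atv_insert_of {F : Finset E} {v : V} {e : E} (h : Inc ends v e) (he : e ∉ F) :
    (atv ends (insert e F) v).card = (atv ends F v).card + 1 := by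
  unfold atv
  rw [filter_insert, if_pos h, card_insert_of_notMem]
  intro h1
  exact he (mem_filter.mp h1).1

/-- the positivity lemma -/
theorem good_pos : ∀ (n : ℕ) (ψ : V → ℝ → ℝ) (W : Finset V) (F : Finset E) (R : Set V),
    F.card = n → Good ends ψ W F R → Pos ends ψ W F R := by
  intro n
  induction n using Nat.strong_induction_on with
  | _ n ih =>
    intro ψ W F R hn hG
    -- no vertices outside the root
    rcases W.eq_empty_or_nonempty with rfl | hW
    · refine ⟨⟨1, one_pos, Eventually.of_forall fun y => ?_⟩, fun h => absurd h (by simp)⟩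
      unfold Fy
      rw [Fs_W_empty]
      simp
    apply pos_of
    -- an edge inside the root
    by_cases hint : ∃ e ∈ F, (ends e).1 ∈ R ∧ (ends e).2 ∈ R
    · obtain ⟨e, he, he1, he2⟩ := hint
      have hF : insert e (F.erase e) = F := insert_erase he
      have hcard : (F.erase e).card + 1 = F.card := by
        rw [card_erase_of_mem he]
        have := card_pos.mpr ⟨e, he⟩
        omega
      have hinc : ∀ v ∈ W, ¬ Inc ends v e := by
        rintro v hv (h | h)
        · exact hG.dis v hv (h ▸ he1)
        · exact hG.dis v hv (h ▸ he2)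
      have hG' : Good ends ψ W (F.erase e) R := by
        refine ⟨hG.dis, fun e' he' => hG.inn e' (mem_of_mem_erase he'),
          fun e' he' => hG.nl e' (mem_of_mem_erase he'), ?_, ?_⟩
        · intro v hv
          have h1 := hG.conn v hv
          rw [← hF, reach_same] at h1
          · exact h1
          · exact iff_of_true (sub_reach he1) (sub_reach he2)
        · intro v hv
          have h1 := hG.wt v hv
          rw [← hF, atv_insert_of_not (hinc v hv)] at h1
          exact h1
      obtain ⟨c, hc, h⟩ := (ih _ (by omega) ψ W (F.erase e) R rfl hG').2 hW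
      refine ⟨c, hc, ?_⟩
      filter_upwards [h, ev_small 1 one_pos] with y hy ⟨h0, h1⟩
      have h2 : Fy ends ψ W F R y = y * Fy ends ψ W (F.erase e) R y := by
        unfold Fy
        conv_lhs => rw [← hF]
        rw [Fs_loop (notMem_erase e F) (Or.inr ⟨he1, he2⟩)]
        ring
      rw [h2, ← hcard, pow_succ]
      nlinarith [mul_le_mul_of_nonneg_left hy h0.le]
    push Not at hint
    -- an edge from the root to `a`
    obtain ⟨e, he, x, a, hx, ha, hj⟩ : ∃ e ∈ F, ∃ x a, x ∈ R ∧ a ∈ W ∧ Joins ends e x a := by
      by_contra hcon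
      push Not at hcon
      obtain ⟨w, hw⟩ := hW
      have h1 := hG.conn w hw
      have h2 := reach_min (ends := ends) (A := F) (R := R) (S := R) (Set.Subset.refl _) (by
        intro e he
        obtain ⟨h3, h4⟩ := hG.inn e he
        constructor
        · intro h5
          rcases h4 with h4 | h4
          · exact absurd (Or.inl rfl) (hcon e he _ _ h5 h4)
          · exact h4
        · intro h5
          rcases h3 with h3 | h3
          · exact absurd (Or.inr rfl) (hcon e he _ _ h5 h3)
          · exact h3) h1
      exact hG.dis w hw h2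
    have hxa : x ≠ a := by rintro rfl; exact hG.dis x ha hx
    have haR : a ∉ R := hG.dis a ha
    set F' := F.erase e with hF'
    have hF : insert e F' = F := insert_erase he
    have heF' : e ∉ F' := notMem_erase e F
    have hcard : F'.card + 1 = F.card := by
      rw [hF', card_erase_of_mem he]
      have := card_pos.mpr ⟨e, he⟩
      omega
    have hinca : Inc ends a e := by
      rcases hj with h | h
      · exact Or.inr (by rw [h])
      · exact Or.inl (by rw [h])
    have hinc : ∀ v ∈ W, v ≠ a → ¬ Inc ends v e := by
      rintro v hv hva (h | h)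
      · rcases hj with h1 | h1
        · rw [h1] at h; exact hG.dis v hv (h ▸ hx)
        · rw [h1] at h; exact hva h.symm
      · rcases hj with h1 | h1
        · rw [h1] at h; exact hva h.symm
        · rw [h1] at h; exact hG.dis v hv (h ▸ hx)
    -- the contraction of `e`
    have hGc : Good ends ψ (W.erase a) F' (insert a R) := by
      refine ⟨?_, ?_, fun e' he' => hG.nl e' (mem_of_mem_erase he'), ?_, ?_⟩
      · intro v hv
        obtain ⟨h1, h2⟩ := mem_erase.mp hv
        rintro (h3 | h3)
        · exact h1 h3
        · exact hG.dis v h2 h3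
      · intro e' he'
        have h1 := hG.inn e' (mem_of_mem_erase he')
        have h2 : ∀ v, (v ∈ W ∨ v ∈ R) → (v ∈ W.erase a ∨ v ∈ insert a R) := by
          intro v hv
          by_cases hva : v = a
          · exact Or.inr (Or.inl hva)
          · rcases hv with hv | hv
            · exact Or.inl (mem_erase.mpr ⟨hva, hv⟩)
            · exact Or.inr (Or.inr hv)
        exact ⟨h2 _ h1.1, h2 _ h1.2⟩
      · intro v hv
        have h1 := hG.conn v (mem_of_mem_erase hv)
        rw [← hF, reach_joins hj hx] at h1
        exact h1
      · intro v hv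
        obtain ⟨h1, h2⟩ := mem_erase.mp hv
        have h3 := hG.wt v h2
        rw [← hF, atv_insert_of_not (hinc v h2 h1)] at h3
        exact h3
    have hPc := ih _ (by omega) ψ (W.erase a) F' (insert a R) rfl hGc
    -- deletion and contraction
    have hdc : ∀ y : ℝ, y - 1 ≠ 0 → Fy ends ψ W F R y =
        Fy ends ψ W F' R y + Fy ends ψ (W.erase a) F' (insert a R) y := by
      intro y hy
      unfold Fy
      conv_lhs => rw [← hF]
      rw [Fs_dc heF' hj hx ha, mul_inv_cancel₀ hy, one_mul]
    by_cases hbr : a ∈ reach ends F' R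
    swap
    · -- the edge is a bridge
      classical
      let S := reach ends F' R
      let Wr := W.filter fun v => v ∈ S
      let Va := W.filter fun v => v ∉ S
      let Fr := F'.filter fun e => (ends e).1 ∈ S
      let Fa := F'.filter fun e => (ends e).1 ∉ S
      have hclS : ∀ e' ∈ F', (ends e').1 ∈ S ↔ (ends e').2 ∈ S := reach_closed F' R
      have hRS : R ⊆ S := sub_reach
      have hWu : Wr ∪ Va = W := filter_union_filter_not_eq _ _
      have hFu : Fr ∪ Fa = F' := filter_union_filter_not_eq _ _
      have haVa : a ∈ Va := mem_filter.mpr ⟨ha, hbr⟩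
      have hFr : ∀ e' ∈ Fr, ((ends e').1 ∈ Wr ∨ (ends e').1 ∈ R) ∧
          ((ends e').2 ∈ Wr ∨ (ends e').2 ∈ R) := by
        intro e' he'
        obtain ⟨h1, h2⟩ := mem_filter.mp he'
        obtain ⟨h3, h4⟩ := hG.inn e' (mem_of_mem_erase h1)
        exact ⟨h3.imp (fun h => mem_filter.mpr ⟨h, h2⟩) id,
          h4.imp (fun h => mem_filter.mpr ⟨h, (hclS e' h1).mp h2⟩) id⟩
      have hFa : ∀ e' ∈ Fa, (ends e').1 ∈ Va ∧ (ends e').2 ∈ Va := by
        intro e' he'
        obtain ⟨h1, h2⟩ := mem_filter.mp he'
        obtain ⟨h3, h4⟩ := hG.inn e' (mem_of_mem_erase h1)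
        have h5 : (ends e').2 ∉ S := fun h => h2 ((hclS e' h1).mpr h)
        refine ⟨?_, ?_⟩
        · rcases h3 with h | h
          · exact mem_filter.mpr ⟨h, h2⟩
          · exact absurd (hRS h) h2
        · rcases h4 with h | h
          · exact mem_filter.mpr ⟨h, h5⟩
          · exact absurd (hRS h) h5
      have hcF : Fr.card + Fa.card = F'.card := by rw [← hFu, card_union_of_disjoint (disjoint_filter_filter_not _ _ _)]
      -- the two factorisations
      have hdis0 : ∀ v, ¬ ((v ∈ Wr ∨ v ∈ R) ∧ v ∈ Va) := by
        rintro v ⟨h1 | h1, h2⟩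
        · exact (mem_filter.mp h2).2 (mem_filter.mp h1).2
        · exact (mem_filter.mp h2).2 (hRS h1)
      have hs1 : ∀ y, Fy ends ψ W F' R y = Fy ends ψ Wr Fr R y *
          (y ^ Fa.card * ∏ v ∈ Va, (-ψ v y)) := by
        intro y
        have h1 := Fs_split (ends := ends) (u := y - 1) (α := fun _ => (y - 1)⁻¹)
          (β := fun v => -ψ v y) (W₁ := Wr) (W₂ := Va) (F₁ := Fr) (F₂ := Fa) (R₁ := R) (R₂ := ∅)
          (by
            rintro v ⟨h1, h2 | h2⟩
            · exact hdis0 v ⟨h1, h2⟩
            · exact h2) hFr
          (fun e' he' => ⟨Or.inl (hFa e' he').1, Or.inl (hFa e' he').2⟩)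
        rw [hWu, hFu, Set.union_empty, Fs_R_empty] at h1
        unfold Fy
        rw [h1]
        congr 2
        ring
      have haer : ∀ v, v ∈ W.erase a ↔ v ∈ Wr ∪ Va.erase a := by
        intro v
        rw [mem_erase, mem_union, mem_erase, ← hWu, mem_union]
        constructor
        · rintro ⟨h1, h2 | h2⟩
          · exact Or.inl h2
          · exact Or.inr ⟨h1, h2⟩
        · rintro (h1 | ⟨h1, h2⟩)
          · refine ⟨?_, Or.inl h1⟩
            rintro rfl
            exact hdis0 v ⟨Or.inl h1, haVa⟩
          · exact ⟨h1, Or.inr h2⟩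
      have hs2 : ∀ y, Fy ends ψ (W.erase a) F' (insert a R) y = Fy ends ψ Wr Fr R y *
          Fy ends ψ (Va.erase a) Fa {a} y := by
        intro y
        have h1 := Fs_split (ends := ends) (u := y - 1) (α := fun _ => (y - 1)⁻¹)
          (β := fun v => -ψ v y) (W₁ := Wr) (W₂ := Va.erase a) (F₁ := Fr) (F₂ := Fa) (R₁ := R)
          (R₂ := {a})
          (by
            rintro v ⟨h1, h2 | h2⟩
            · exact hdis0 v ⟨h1, mem_of_mem_erase h2⟩
            · have h3 : v = a := h2
              rw [h3] at h1
              exact hdis0 a ⟨h1, haVa⟩) hFr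
          (by
            intro e' he'
            obtain ⟨h2, h3⟩ := hFa e' he'
            have h4 : ∀ v ∈ Va, v ∈ Va.erase a ∨ v ∈ ({a} : Set V) := by
              intro v hv
              by_cases hva : v = a
              · exact Or.inr hva
              · exact Or.inl (mem_erase.mpr ⟨hva, hv⟩)
            exact ⟨h4 _ h2, h4 _ h3⟩)
        have h2 : Wr ∪ Va.erase a = W.erase a := by
          ext v; exact (haer v).symm
        have h3 : R ∪ {a} = insert a R := by
          ext v; simp
        rw [h2, hFu, h3] at h1
        exact h1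
      -- the root part is good
      have hGr : Good ends ψ Wr Fr R := by
        refine ⟨fun v hv => hG.dis v (mem_filter.mp hv).1, hFr,
          fun e' he' => hG.nl e' (mem_of_mem_erase (mem_filter.mp he').1), ?_, ?_⟩
        · intro v hv
          have h1 : v ∈ reach ends F' R := (mem_filter.mp hv).2
          refine reach_min (S := reach ends Fr R) sub_reach ?_ h1
          intro e' he'
          by_cases h2 : (ends e').1 ∈ S
          · exact reach_closed Fr R e' (mem_filter.mpr ⟨he', h2⟩)
          · have h3 : (ends e').2 ∉ S := fun h => h2 ((hclS e' he').mpr h)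
            have h4 : reach ends Fr R ⊆ S := reach_mono (filter_subset _ _) (Set.Subset.refl _)
            exact iff_of_false (fun h => h2 (h4 h)) (fun h => h3 (h4 h))
        · intro v hv
          obtain ⟨h1, h2⟩ := mem_filter.mp hv
          have hva : v ≠ a := by rintro rfl; exact hbr h2
          have h3 := hG.wt v h1
          rw [← hF, atv_insert_of_not (hinc v h1 hva)] at h3
          have h4 : atv ends F' v = atv ends Fr v := by
            ext e'
            rw [mem_atv, mem_atv]
            constructor
            · rintro ⟨h5, h6⟩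
              refine ⟨mem_filter.mpr ⟨h5, ?_⟩, h6⟩
              rcases h6 with h6 | h6
              · rw [h6]; exact h2
              · rw [hclS e' h5, h6]; exact h2
            · rintro ⟨h5, h6⟩
              exact ⟨(mem_filter.mp h5).1, h6⟩
          rw [h4] at h3
          exact h3
      -- the part at `a` is good
      have hatv : ∀ v ∈ Va, atv ends F' v = atv ends Fa v := by
        intro v hv
        obtain ⟨h1, h2⟩ := mem_filter.mp hv
        ext e'
        rw [mem_atv, mem_atv]
        constructor
        · rintro ⟨h5, h6⟩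
          refine ⟨mem_filter.mpr ⟨h5, ?_⟩, h6⟩
          rcases h6 with h6 | h6
          · rw [h6]; exact h2
          · rw [hclS e' h5, h6]; exact h2
        · rintro ⟨h5, h6⟩
          exact ⟨(mem_filter.mp h5).1, h6⟩
      have hGa : Good ends ψ (Va.erase a) Fa {a} := by
        refine ⟨?_, ?_, fun e' he' => hG.nl e' (mem_of_mem_erase (mem_filter.mp he').1), ?_, ?_⟩
        · intro v hv h
          exact (mem_erase.mp hv).1 h
        · intro e' he'
          obtain ⟨h2, h3⟩ := hFa e' he'
          have h4 : ∀ v ∈ Va, v ∈ Va.erase a ∨ v ∈ ({a} : Set V) := by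
            intro v hv
            by_cases hva : v = a
            · exact Or.inr hva
            · exact Or.inl (mem_erase.mpr ⟨hva, hv⟩)
          exact ⟨h4 _ h2, h4 _ h3⟩
        · intro v hv
          obtain ⟨hva, hv⟩ := mem_erase.mp hv
          obtain ⟨h1, h2⟩ := mem_filter.mp hv
          have h3 := hG.conn v h1
          rw [← hF, reach_joins hj hx] at h3
          have h4 : v ∈ S ∪ reach ends Fa {a} := by
            refine reach_min (S := S ∪ reach ends Fa {a}) ?_ ?_ h3
            · rintro w (rfl | hw)
              · exact Or.inr (sub_reach rfl)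
              · exact Or.inl (hRS hw)
            · intro e' he'
              have h5 : reach ends Fa {a} ⊆ Sᶜ := by
                refine reach_min (by rintro w rfl; exact hbr) ?_
                intro e'' he''
                have h6 := hFa e'' he''
                exact iff_of_true (mem_filter.mp h6.1).2 (mem_filter.mp h6.2).2
              by_cases h6 : (ends e').1 ∈ S
              · exact iff_of_true (Or.inl h6) (Or.inl ((hclS e' he').mp h6))
              · have h7 : (ends e').2 ∉ S := fun h => h6 ((hclS e' he').mpr h)
                have h8 := reach_closed (ends := ends) Fa {a} e' (mem_filter.mpr ⟨he', h6⟩)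
                simp only [Set.mem_union, h6, h7, false_or]
                exact h8
          rcases h4 with h4 | h4
          · exact absurd h4 h2
          · exact h4
        · intro v hv
          obtain ⟨hva, hv⟩ := mem_erase.mp hv
          have h3 := hG.wt v (mem_filter.mp hv).1
          rw [← hF, atv_insert_of_not (hinc v (mem_filter.mp hv).1 hva), hatv v hv] at h3
          exact h3
      obtain ⟨cr, hcr, hr⟩ := (ih _ (by omega) ψ Wr Fr R rfl hGr).1
      have hPa := ih _ (by omega) ψ (Va.erase a) Fa {a} rfl hGa
      -- the bound for the bracket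
      have hbrk : ∃ c > 0, ∀ᶠ y in 𝓝[>] (0 : ℝ), c * y ^ Fa.card ≤
          y ^ Fa.card * ∏ v ∈ Va, (-ψ v y) + Fy ends ψ (Va.erase a) Fa {a} y := by
        have hprod : ∀ y : ℝ, 0 < y → y < 1 → -1 ≤ ∏ v ∈ Va, (-ψ v y) := by
          intro y h0 h1
          have h2 : |∏ v ∈ Va, (-ψ v y)| ≤ 1 := by
            rw [abs_prod]
            apply prod_le_one
            · intro v _; exact abs_nonneg _
            · intro v hv
              rw [abs_neg]
              rcases hG.wt v (mem_filter.mp hv).1 with ⟨h3, _⟩ | h3
              · rw [h3]; simp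
              · obtain ⟨h4, h5⟩ := h3 y h0 h1
                rw [abs_of_nonneg h4]
                linarith
          exact (abs_le.mp h2).1
        rcases (Va.erase a).eq_empty_or_nonempty with hem | hne
        · -- `a` is alone
          have hVa : Va = {a} := by
            ext v
            rw [mem_singleton]
            constructor
            · intro hv
              by_contra hva
              have : v ∈ Va.erase a := mem_erase.mpr ⟨hva, hv⟩
              rw [hem] at this
              exact notMem_empty _ this
            · rintro rfl; exact haVa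
          have hat : atv ends F' a = ∅ := by
            rw [hatv a haVa]
            apply eq_empty_of_forall_notMem
            intro e' he'
            rw [mem_atv] at he'
            obtain ⟨h1, h2⟩ := hFa e' he'.1
            rw [hVa, mem_singleton] at h1 h2
            exact hG.nl e' (mem_of_mem_erase (mem_filter.mp he'.1).1) (h1.trans h2.symm)
          have hsm : ∀ y, 0 < y → y < 1 → 0 ≤ ψ a y ∧ ψ a y ≤ y := by
            rcases hG.wt a ha with ⟨_, h2⟩ | h2
            · exfalso
              rw [← hF, atv_insert_of hinca heF', hat] at h2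
              simp at h2
            · exact h2
          refine ⟨1 / 2, by norm_num, ?_⟩
          filter_upwards [ev_small (1 / 2) (by norm_num)] with y ⟨h0, h1⟩
          have h2 : Fy ends ψ (Va.erase a) Fa {a} y = y ^ Fa.card := by
            unfold Fy
            rw [hem, Fs_W_empty]
            congr 1
            ring
          rw [h2, hVa, prod_singleton]
          have h3 := hsm y h0 (by linarith)
          have h4 : 0 < y ^ Fa.card := by positivity
          nlinarith [h3.1, h3.2]
        · obtain ⟨c, hc, h⟩ := hPa.2 hne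
          refine ⟨c / 2, by positivity, ?_⟩
          filter_upwards [h, ev_small 1 one_pos, ev_small (c / 2) (by positivity)] with y hy
            ⟨h0, h1⟩ ⟨_, h2⟩
          have h3 := hprod y h0 h1
          have h4 : 0 < y ^ Fa.card := by positivity
          have h5 : c * y ^ Fa.card / y ≤ Fy ends ψ (Va.erase a) Fa {a} y := by
            rw [div_le_iff₀ h0]
            linarith
          have h6 : y ^ Fa.card * (-1) ≤ y ^ Fa.card * ∏ v ∈ Va, (-ψ v y) :=
            mul_le_mul_of_nonneg_left h3 h4.le
          have h7 : (c / 2 + 1) * y ^ Fa.card ≤ c * y ^ Fa.card / y := by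
            rw [le_div_iff₀ h0]
            have h8 : (c / 2 + 1) * y ≤ c := by nlinarith
            nlinarith
          linarith
      obtain ⟨cb, hcb, hb⟩ := hbrk
      refine ⟨cr * cb, by positivity, ?_⟩
      filter_upwards [hr, hb, ev_small 1 one_pos] with y hry hby ⟨h0, h1⟩
      rw [hdc y (by linarith), hs1, hs2, ← mul_add]
      have h2 : 0 < y ^ Fr.card := by positivity
      have h3 : 0 < y ^ Fa.card := by positivity
      have h4 : (cr * y ^ Fr.card) * (cb * y ^ Fa.card) ≤ Fy ends ψ Wr Fr R y *
          (y ^ Fa.card * ∏ v ∈ Va, (-ψ v y) + Fy ends ψ (Va.erase a) Fa {a} y) :=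
        mul_le_mul hry hby (by positivity) (le_trans (by positivity) hry)
      have h5 : y ^ F.card = y * (y ^ Fr.card * y ^ Fa.card) := by
        rw [← hcard, ← hcF, pow_succ, pow_add]; ring
      rw [h5]
      calc cr * cb * (y * (y ^ Fr.card * y ^ Fa.card)) =
          y * ((cr * y ^ Fr.card) * (cb * y ^ Fa.card)) := by ring
        _ ≤ _ := mul_le_mul_of_nonneg_left h4 h0.le
    -- the edge is not a bridge
    have hre : reach ends F' R = reach ends F R := by
      conv_rhs => rw [← hF]
      symm
      apply reach_same
      rw [hj.mem_iff]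
      exact iff_of_true (sub_reach hx) hbr
    obtain ⟨cc, hcc, hc⟩ := hPc.1
    by_cases hcase : (∀ y, ψ a y = 1) ∧ (atv ends F' a).card ≤ 1
    swap
    · -- the deletion is good
      have hGd : Good ends ψ W F' R := by
        refine ⟨hG.dis, fun e' he' => hG.inn e' (mem_of_mem_erase he'),
          fun e' he' => hG.nl e' (mem_of_mem_erase he'), ?_, ?_⟩
        · intro v hv
          rw [hre]
          exact hG.conn v hv
        · intro v hv
          by_cases hva : v = a
          · subst hva
            rcases hG.wt v hv with ⟨h1, h2⟩ | h1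
            · left
              refine ⟨h1, ?_⟩
              by_contra h3
              exact hcase ⟨h1, by omega⟩
            · exact Or.inr h1
          · have h3 := hG.wt v hv
            rw [← hF, atv_insert_of_not (hinc v hv hva)] at h3
            exact h3
      obtain ⟨c, hc0, h⟩ := (ih _ (by omega) ψ W F' R rfl hGd).2 hW
      refine ⟨c, hc0, ?_⟩
      filter_upwards [h, hc, ev_small 1 one_pos] with y hy hcy ⟨h0, h1⟩
      rw [hdc y (by linarith), mul_add]
      have h2 : 0 ≤ Fy ends ψ (W.erase a) F' (insert a R) y := le_trans (by positivity) hcy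
      have h3 : y ^ F.card ≤ y ^ F'.card := by
        rw [← hcard, pow_succ]
        have : 0 < y ^ F'.card := by positivity
        nlinarith
      have h4 : c * y ^ F.card ≤ c * y ^ F'.card := mul_le_mul_of_nonneg_left h3 hc0.le
      have h5 : 0 ≤ y * Fy ends ψ (W.erase a) F' (insert a R) y := by positivity
      linarith
    obtain ⟨hψa, hat⟩ := hcase
    -- the other edge at `a`
    have hat1 : (atv ends F' a).card = 1 := by
      have h1 : 2 ≤ (atv ends F a).card := by
        rcases hG.wt a ha with ⟨_, h2⟩ | h2
        · exact h2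
        · exfalso
          have := (h2 (1 / 2) (by norm_num) (by norm_num)).2
          rw [hψa] at this
          norm_num at this
      rw [← hF, atv_insert_of hinca heF'] at h1
      omega
    obtain ⟨e', he'⟩ := card_eq_one.mp hat1
    have he'1 : e' ∈ F' ∧ Inc ends a e' := by
      rw [← mem_atv, he']; exact mem_singleton_self _
    set F₂ := F'.erase e' with hF₂
    have hF₂' : insert e' F₂ = F' := insert_erase he'1.1
    have he'F₂ : e' ∉ F₂ := notMem_erase _ _
    have hiso : Iso ends F₂ a := by
      intro f hf
      have h1 : f ∉ atv ends F' a := by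
        rw [he', mem_singleton]
        rintro rfl
        exact he'F₂ hf
      rw [mem_atv] at h1
      push Not at h1
      have h2 := h1 (mem_of_mem_erase hf)
      exact ⟨fun h => h2 (Or.inl h), fun h => h2 (Or.inr h)⟩
    obtain ⟨b, hjb, hab⟩ : ∃ b, Joins ends e' a b ∧ a ≠ b := by
      have hnl := hG.nl e' (mem_of_mem_erase he'1.1)
      rcases he'1.2 with h | h
      · refine ⟨(ends e').2, Or.inl (by rw [← h]), ?_⟩
        rw [← h]; exact hnl
      · refine ⟨(ends e').1, Or.inr (by rw [← h]), ?_⟩
        rw [← h]; exact hnl.symm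
    have hbin : b ∈ W ∨ b ∈ R := by
      obtain ⟨h1, h2⟩ := hG.inn e' (mem_of_mem_erase he'1.1)
      rcases hjb with h | h
      · rw [h] at h2; exact h2
      · rw [h] at h1; exact h1
    rcases hbin with hbW | hbR
    · -- series reduction
      have hbR : b ∉ R := hG.dis b hbW
      let ψ' : V → ℝ → ℝ := Function.update ψ b (fun _ => 0)
      have hGb : Good ends ψ' (W.erase a) F' (insert a R) := by
        refine ⟨hGc.dis, hGc.inn, hGc.nl, hGc.conn, ?_⟩
        intro v hv
        by_cases hvb : v = b
        · right
          intro y h0 _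
          have : ψ' v y = 0 := by simp [ψ', hvb]
          rw [this]
          exact ⟨le_refl _, h0.le⟩
        · have : ψ' v = ψ v := by simp [ψ', hvb]
          rw [this]
          exact hGc.wt v hv
      obtain ⟨cb, hcb, hb⟩ := (ih _ (by omega) ψ' (W.erase a) F' (insert a R) rfl hGb).1
      have hkey : ∀ y : ℝ, y - 1 ≠ 0 → Fy ends ψ W F' R y =
          -y * (Fy ends ψ (W.erase a) F' (insert a R) y -
            Fy ends ψ' (W.erase a) F' (insert a R) y) := by
        intro y hy
        have hbWa : b ∈ W.erase a := mem_erase.mpr ⟨hab.symm, hbW⟩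
        have h1 : Fs ends (y - 1) (fun _ => (y - 1)⁻¹) (fun v => -ψ v y) W F' R =
            -(1 + (y - 1)) * Fs ends (y - 1) (Function.update (fun _ => (y - 1)⁻¹) b 0)
              (fun v => -ψ v y) (W.erase a) F₂ R := by
          conv_lhs => rw [← hF₂']
          exact Fs_leaf_W he'F₂ hjb ha haR hiso hab hbW hy rfl (by simp [hψa])
        have h2 : Fs ends (y - 1) (Function.update (fun _ => (y - 1)⁻¹) b 0)
            (fun v => -ψ v y) (W.erase a) F' (insert a R) =
            Fs ends (y - 1) (Function.update (fun _ => (y - 1)⁻¹) b 0)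
              (fun v => -ψ v y) (W.erase a) F₂ R := by
          conv_lhs => rw [← hF₂']
          rw [Fs_dc he'F₂ hjb (Set.mem_insert a R) hbWa, Function.update_self, mul_zero, zero_mul,
            add_zero, Fs_iso_root hiso (notMem_erase a W)]
        have h3 := Fs_lin (ends := ends) (u := y - 1) (α := fun _ => (y - 1)⁻¹)
          (β := fun v => -ψ v y) (F := F') (R := insert a R) hbWa
        have h4 : (Function.update (fun v => -ψ v y) b 0 : V → ℝ) = fun v => -ψ' v y := by
          funext v
          by_cases hvb : v = b
          · subst hvb; simp [ψ']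
          · simp [ψ', hvb]
        rw [h4] at h3
        unfold Fy
        rw [h1, ← h2, h3]
        ring
      refine ⟨cc / 2, by positivity, ?_⟩
      filter_upwards [hc, hb, ev_small (1 / 2) (by norm_num)] with y hcy hby ⟨h0, h1⟩
      rw [hdc y (by linarith), hkey y (by linarith)]
      have h2 : 0 ≤ Fy ends ψ' (W.erase a) F' (insert a R) y := le_trans (by positivity) hby
      have h3 : 0 < y ^ F'.card := by positivity
      have h4 : y ^ F.card = y * y ^ F'.card := by rw [← hcard, pow_succ]; ring
      rw [h4]
      have h5 : cc / 2 * y ^ F'.card ≤ (1 - y) * Fy ends ψ (W.erase a) F' (insert a R) y := by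
        have h6 : 1 / 2 * (cc * y ^ F'.card) ≤ (1 - y) * Fy ends ψ (W.erase a) F' (insert a R) y :=
          mul_le_mul (by linarith) hcy (by positivity) (by linarith)
        linarith
      have h7 : 0 ≤ y * Fy ends ψ' (W.erase a) F' (insert a R) y := by positivity
      have h8 : cc / 2 * y ^ F'.card ≤
          -y * (Fy ends ψ (W.erase a) F' (insert a R) y -
            Fy ends ψ' (W.erase a) F' (insert a R) y) +
          Fy ends ψ (W.erase a) F' (insert a R) y := by linarith
      nlinarith [mul_le_mul_of_nonneg_left h8 h0.le]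
    · -- both edges go to the root
      have hz : ∀ y : ℝ, y - 1 ≠ 0 → Fy ends ψ W F' R y = 0 := by
        intro y hy
        unfold Fy
        conv_lhs => rw [← hF₂']
        exact Fs_leaf_R he'F₂ hjb ha haR hiso hab hbR hy rfl (by simp [hψa])
      refine ⟨cc, hcc, ?_⟩
      filter_upwards [hc, ev_small 1 one_pos] with y hcy ⟨h0, h1⟩
      rw [hdc y (by linarith), hz y (by linarith), zero_add]
      have h4 : y ^ F.card = y * y ^ F'.card := by rw [← hcard, pow_succ]; ring
      rw [h4]
      nlinarith [mul_le_mul_of_nonneg_left hcy h0.le]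

end Pool.Agent.R29.Rooted
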