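import Mathlib

set_option autoImplicit false

/-!
# Tutte polynomials of small multigraphs by evaluation

Graphs are given by the ends of the edges, `ends : E → V × V`.
-/

namespace Pool.Agent.R29

open Finset

variable {V E : Type}

/-- The simple graph on `V` in which two different vertices are adjacent if some edge of `A` joins
them. -/
def under (ends : E → V × V) (A : Finset E) : SimpleGraph V :=
  SimpleGraph.fromRel fun u v => ∃ e ∈ A, ends e = (u, v)

/-- The number of the connected components of the spanning subgraph `(V, A)`. -/
noncomputable def comps (ends : E → V × V) (A : Finset E) : ℕ :=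
  Nat.card (under ends A).ConnectedComponent

/-- The rank `r(A) = |V| - k(A)`. -/
noncomputable def rank [Fintype V] (ends : E → V × V) (A : Finset E) : ℕ :=
  Fintype.card V - comps ends A

/-- The Tutte polynomial, with the variables `x = X 0` and `y = X 1`. -/
noncomputable def tutte [Fintype V] [Fintype E] (ends : E → V × V) : MvPolynomial (Fin 2) ℤ :=
  ∑ A : Finset E, (MvPolynomial.X 0 - 1) ^ (rank ends univ - rank ends A) *
    (MvPolynomial.X 1 - 1) ^ (A.card - rank ends A)

theorem under_adj (ends : E → V × V) (A : Finset E) (u v : V) :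
    (under ends A).Adj u v ↔ u ≠ v ∧ ∃ e ∈ A, ends e = (u, v) ∨ ends e = (v, u) := by
  unfold under
  rw [SimpleGraph.fromRel_adj]
  constructor
  · rintro ⟨h, ⟨e, he, h1⟩ | ⟨e, he, h1⟩⟩
    · exact ⟨h, e, he, Or.inl h1⟩
    · exact ⟨h, e, he, Or.inr h1⟩
  · rintro ⟨h, e, he, h1 | h1⟩
    · exact ⟨h, Or.inl ⟨e, he, h1⟩⟩
    · exact ⟨h, Or.inr ⟨e, he, h1⟩⟩

/-- `f` labels the components of `(V, A)`. -/
def Labels {α : Type} (ends : E → V × V) (A : Finset E) (f : V → α) : Prop :=
  ∀ u v, f u = f v ↔ (under ends A).Reachable u v

theorem comps_eq [Fintype V] {α : Type} [DecidableEq α] {ends : E → V × V} {A : Finset E}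
    {f : V → α} (h : Labels ends A f) : comps ends A = (univ.image f).card := by
  unfold comps
  have hl : ∀ (v w : V) (p : (under ends A).Walk v w), p.IsPath → f v = f w :=
    fun v w p _ => (h v w).mpr ⟨p⟩
  let g : (under ends A).ConnectedComponent → (univ.image f : Finset α) := fun c =>
    ⟨SimpleGraph.ConnectedComponent.lift f hl c, by
      induction c using SimpleGraph.ConnectedComponent.ind with
      | _ v => simp⟩
  have hg : Function.Bijective g := by
    constructor
    · intro c d hcd
      induction c using SimpleGraph.ConnectedComponent.ind with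
      | _ v =>
        induction d using SimpleGraph.ConnectedComponent.ind with
        | _ w =>
          have : f v = f w := by simpa [g] using congrArg Subtype.val hcd
          exact SimpleGraph.ConnectedComponent.sound ((h v w).mp this)
    · rintro ⟨a, ha⟩
      obtain ⟨v, -, rfl⟩ := mem_image.mp ha
      exact ⟨(under ends A).connectedComponentMk v, by simp [g]⟩
  rw [Nat.card_congr (Equiv.ofBijective g hg), Nat.card_eq_fintype_card, Fintype.card_coe]

/-- the new labels when an edge `u v` is added -/
theorem Labels.add [DecidableEq E] {α : Type} [DecidableEq α] {ends : E → V × V} {A : Finset E}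
    {f : V → α} (h : Labels ends A f) (e : E) :
    Labels ends (insert e A)
      (fun w => if f w = f (ends e).1 then f (ends e).2 else f w) := by
  classical
  -- reachability in the larger graph
  have hmono : under ends A ≤ under ends (insert e A) := by
    intro u v huv
    rw [under_adj] at huv ⊢
    obtain ⟨h1, e', he', h2⟩ := huv
    exact ⟨h1, e', mem_insert_of_mem he', h2⟩
  have hst : (under ends (insert e A)).Reachable (ends e).1 (ends e).2 := by
    by_cases hne : (ends e).1 = (ends e).2
    · rw [hne]
    · apply SimpleGraph.Adj.reachable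
      rw [under_adj]
      exact ⟨hne, e, mem_insert_self _ _, Or.inl rfl⟩
  have hR : ∀ u v, f u = f v → (under ends (insert e A)).Reachable u v :=
    fun u v huv => ((h u v).mp huv).mono hmono
  intro u v
  constructor
  · intro huv
    simp only at huv
    split_ifs at huv with h1 h2 h2
    · exact hR _ _ (h1.trans h2.symm)
    · exact ((hR _ _ h1).trans hst).trans (hR _ _ huv)
    · exact (hR _ _ huv).trans (hst.symm.trans (hR _ _ h2.symm))
    · exact hR _ _ huv
  · rintro ⟨p⟩
    induction p with
    | nil => rfl
    | cons hadj _ ih =>
      refine Eq.trans ?_ ih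
      rw [under_adj] at hadj
      obtain ⟨hne, e', he', h2⟩ := hadj
      rcases mem_insert.mp he' with rfl | he'
      · rcases h2 with h2 | h2
        · rw [h2]; simp
        · rw [h2]; simp
      · have : f _ = f _ := (h _ _).mpr (SimpleGraph.Adj.reachable
          ((under_adj ends A _ _).mpr ⟨hne, e', he', h2⟩))
        simp only [this]

theorem labels_empty (ends : E → V × V) : Labels ends ∅ (id : V → V) := by
  intro u v
  constructor
  · intro h
    have h' : u = v := h
    rw [h']
  · rintro ⟨p⟩
    cases p with
    | nil => rfl
    | cons hadj _ =>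
      rw [under_adj] at hadj
      obtain ⟨_, _, h, _⟩ := hadj
      exact absurd h (notMem_empty _)

/-- The list of the numbers `16 |A| + r(A)` for all sets `A` of edges in the list `es`, for given
labels `lab` of the components of a set of edges which is already chosen and its number `c`. -/
def codes : List (ℕ × ℕ) → List ℕ → ℕ → List ℕ
  | [], _, c => [c]
  | e :: es, lab, c =>
    codes es lab c ++
      (if lab.getD e.1 0 = lab.getD e.2 0 then codes es lab (c + 16)
       else codes es (lab.map fun x => if x = lab.getD e.1 0 then lab.getD e.2 0 else x) (c + 17))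

theorem rank_add_same [DecidableEq E] {n : ℕ} {ends : E → Fin n × Fin n} {B : Finset E}
    {f : Fin n → ℕ} (h : Labels ends B f) (e : E) (he : f (ends e).1 = f (ends e).2) :
    rank ends (insert e B) = rank ends B := by
  unfold rank
  rw [comps_eq h, comps_eq (h.add e)]
  congr 2
  ext a
  simp only [mem_image, mem_univ, true_and]
  constructor
  · rintro ⟨v, rfl⟩
    split_ifs with h1
    · exact ⟨_, rfl⟩
    · exact ⟨v, rfl⟩
  · rintro ⟨v, rfl⟩
    refine ⟨v, ?_⟩
    split_ifs with h1
    · rw [h1, he]
    · rfl

theorem rank_add_new [DecidableEq E] {n : ℕ} {ends : E → Fin n × Fin n} {B : Finset E}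
    {f : Fin n → ℕ} (h : Labels ends B f) (e : E) (he : f (ends e).1 ≠ f (ends e).2) :
    rank ends (insert e B) = rank ends B + 1 := by
  unfold rank
  rw [comps_eq h, comps_eq (h.add e), Fintype.card_fin]
  have himg : univ.image (fun w => if f w = f (ends e).1 then f (ends e).2 else f w)
      = (univ.image f).erase (f (ends e).1) := by
    ext a
    simp only [mem_image, mem_univ, true_and, mem_erase]
    constructor
    · rintro ⟨v, rfl⟩
      split_ifs with h1
      · exact ⟨he.symm, _, rfl⟩
      · exact ⟨h1, v, rfl⟩
    · rintro ⟨h1, v, rfl⟩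
      exact ⟨v, if_neg h1⟩
  rw [himg, card_erase_of_mem (mem_image_of_mem _ (mem_univ _))]
  have h1 : 0 < (univ.image f).card := card_pos.mpr ⟨_, mem_image_of_mem f (mem_univ (ends e).1)⟩
  have h2 : (univ.image f).card ≤ n := by
    refine card_image_le.trans ?_
    rw [card_univ, Fintype.card_fin]
  omega

theorem codes_spec {n : ℕ} [DecidableEq E] {R : Type} [AddCommMonoid R]
    (ends : E → Fin n × Fin n) (t : ℕ → R) :
    ∀ (l : List E) (B : Finset E) (lab : List ℕ) (c : ℕ), l.Nodup →
      (∀ e ∈ l, e ∉ B) → lab.length = n → Labels ends B (fun v : Fin n => lab.getD v.1 0) →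
      c = 16 * B.card + rank ends B →
      ((codes (l.map fun e => ((ends e).1.1, (ends e).2.1)) lab c).map t).sum =
        ∑ A ∈ l.toFinset.powerset, t (16 * (B ∪ A).card + rank ends (B ∪ A)) := by
  intro l
  induction l with
  | nil =>
    intro B lab c _ _ _ _ hc
    simp [codes, hc]
  | cons e l ih =>
    intro B lab c hnd hB hlen hlab hc
    rw [List.nodup_cons] at hnd
    obtain ⟨hel, hnd⟩ := hnd
    have heB : e ∉ B := hB e (by simp)
    have hlB : ∀ e' ∈ l, e' ∉ B := fun e' h => hB e' (by simp [h])
    have hlB' : ∀ e' ∈ l, e' ∉ insert e B := by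
      intro e' h h2
      rcases mem_insert.mp h2 with rfl | h3
      · exact hel h
      · exact hlB e' h h3
    have hcard : (insert e B).card = B.card + 1 := card_insert_of_notMem heB
    rw [List.map_cons, codes, List.map_append, List.sum_append, List.toFinset_cons,
      sum_powerset_insert (by simpa using hel)]
    congr 1
    · exact ih B lab c hnd hlB hlen hlab hc
    · have hun : ∀ A : Finset E, B ∪ insert e A = insert e B ∪ A := by
        intro A; ext x; simp
      simp only [hun]
      by_cases h1 : lab.getD (ends e).1.1 0 = lab.getD (ends e).2.1 0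
      · rw [if_pos h1]
        have h2 := rank_add_same hlab e h1
        refine ih (insert e B) lab (c + 16) hnd hlB' hlen ?_ (by rw [hcard, h2, hc]; ring)
        have h3 := hlab.add e
        convert h3 using 1
        funext w
        split_ifs with h4
        · rw [h4, h1]
        · rfl
      · rw [if_neg h1]
        have h2 := rank_add_new hlab e h1
        refine ih (insert e B) _ (c + 17) hnd hlB' (by simpa using hlen) ?_
          (by rw [hcard, h2, hc]; ring)
        have h3 := hlab.add e
        convert h3 using 1
        funext w
        have hw : w.1 < lab.length := by rw [hlen]; exact w.2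
        simp only [List.getD_eq_getElem?_getD, List.getElem?_map, List.getElem?_eq_getElem hw,
          Option.map_some, Option.getD_some]
        try rfl

/-- all codes of a graph with `n` vertices -/
def allCodes (n : ℕ) (es : List (ℕ × ℕ)) : List ℕ := codes es (List.range n) 0

theorem allCodes_spec {n m : ℕ} {R : Type} [AddCommMonoid R]
    (ends : Fin m → Fin n × Fin n) (t : ℕ → R) :
    ((allCodes n ((List.finRange m).map fun e => ((ends e).1.1, (ends e).2.1))).map t).sum =
      ∑ A : Finset (Fin m), t (16 * A.card + rank ends A) := by
  unfold allCodes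
  have hlab : Labels ends ∅ (fun v : Fin n => (List.range n).getD v.1 0) := by
    intro u v
    rw [← labels_empty ends u v]
    have h : ∀ w : Fin n, (List.range n).getD w.1 0 = w.1 := by
      intro w
      rw [List.getD_eq_getElem?_getD, List.getElem?_range w.2]
      rfl
    simp only [h, id]
    exact Fin.val_inj
  have hr : rank ends ∅ = 0 := by
    unfold rank
    rw [comps_eq (labels_empty ends), Fintype.card_fin]
    simp
  rw [codes_spec ends t (List.finRange m) ∅ (List.range n) 0 (List.nodup_finRange m)
    (by simp) (by simp) hlab (by simp [hr])]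
  have : (List.finRange m).toFinset = (univ : Finset (Fin m)) := by ext; simp
  rw [this, powerset_univ]
  simp

/-- Graphs with the same codes have the same Tutte polynomial. -/
theorem tutte_eq {n m : ℕ} (hn : n ≤ 15) (G H : Fin m → Fin n × Fin n)
    (h : (allCodes n ((List.finRange m).map fun e => ((G e).1.1, (G e).2.1))).Perm
      (allCodes n ((List.finRange m).map fun e => ((H e).1.1, (H e).2.1)))) :
    tutte G = tutte H := by
  have key : ∀ {R : Type} [AddCommMonoid R] (t : ℕ → R),
      ∑ A : Finset (Fin m), t (16 * A.card + rank G A) =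
        ∑ A : Finset (Fin m), t (16 * A.card + rank H A) := by
    intro R _ t
    rw [← allCodes_spec G t, ← allCodes_spec H t]
    exact (h.map t).sum_eq
  have hlt : ∀ (K : Fin m → Fin n × Fin n) (A : Finset (Fin m)), rank K A < 16 := by
    intro K A
    unfold rank
    rw [Fintype.card_fin]
    omega
  -- the ranks are the same
  have hR : rank G univ = rank H univ := by
    have h1 := key (fun c => if 16 * m ≤ c then c else 0)
    have h2 : ∀ K : Fin m → Fin n × Fin n,
        ∑ A : Finset (Fin m), (if 16 * m ≤ 16 * A.card + rank K A then
          16 * A.card + rank K A else 0) = 16 * m + rank K univ := by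
      intro K
      rw [sum_eq_single (univ : Finset (Fin m))]
      · rw [card_univ, Fintype.card_fin, if_pos (by omega)]
      · intro A _ hA
        have h3 : A.card < m := by
          have := (Finset.card_lt_iff_ne_univ A).mpr hA
          rwa [Fintype.card_fin] at this
        have h4 := hlt K A
        rw [if_neg (by omega)]
      · intro hcon
        exact absurd (mem_univ _) hcon
    rw [h2 G, h2 H] at h1
    omega
  unfold tutte
  rw [hR]
  have h3 := key (fun c => (MvPolynomial.X 0 - 1 : MvPolynomial (Fin 2) ℤ) ^
    (rank H univ - c % 16) * (MvPolynomial.X 1 - 1) ^ (c / 16 - c % 16))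
  have h4 : ∀ (K : Fin m → Fin n × Fin n) (A : Finset (Fin m)),
      (16 * A.card + rank K A) % 16 = rank K A ∧ (16 * A.card + rank K A) / 16 = A.card := by
    intro K A
    have := hlt K A
    omega
  simp only [(h4 _ _).1, (h4 _ _).2] at h3
  exact h3

/-- the digits of a number are unique -/
theorem digits_unique (B : ℕ) (b : ℕ) : ∀ (f g : ℕ → ℕ), (∀ j, f j < B) → (∀ j, g j < B) →
    ∑ j ∈ range b, f j * B ^ j = ∑ j ∈ range b, g j * B ^ j → ∀ j < b, f j = g j := by
  induction b with
  | zero => intro f g _ _ _ j hj; exact absurd hj (Nat.not_lt_zero j)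
  | succ b ih =>
    intro f g hf hg h j hj
    have hB : 0 < B := lt_of_le_of_lt (Nat.zero_le _) (hf 0)
    have e : ∀ k : ℕ → ℕ, ∑ j ∈ range (b + 1), k j * B ^ j =
        B * (∑ j ∈ range b, k (j + 1) * B ^ j) + k 0 := by
      intro k
      rw [sum_range_succ', mul_sum]
      congr 1
      · refine sum_congr rfl fun j _ => ?_
        rw [pow_succ]; ring
      · simp
    rw [e f, e g] at h
    have h0 : f 0 = g 0 := by
      have := congrArg (· % B) h
      simpa [Nat.mul_add_mod, Nat.mod_eq_of_lt (hf 0), Nat.mod_eq_of_lt (hg 0)] using this
    have h1 : ∑ j ∈ range b, f (j + 1) * B ^ j = ∑ j ∈ range b, g (j + 1) * B ^ j := by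
      rw [h0] at h
      exact Nat.eq_of_mul_eq_mul_left hB (Nat.add_right_cancel h)
    cases j with
    | zero => exact h0
    | succ j =>
      exact ih (fun j => f (j + 1)) (fun j => g (j + 1)) (fun j => hf _) (fun j => hg _) h1 j
        (by omega)

/-- the number with the digits `l.count 0, l.count 1, ...` to the base `B` -/
def toNum (B : ℕ) (l : List ℕ) : ℕ := (l.map fun c => B ^ c).sum

theorem toNum_eq (B b : ℕ) (l : List ℕ) (hl : ∀ c ∈ l, c < b) :
    toNum B l = ∑ j ∈ range b, l.count j * B ^ j := by
  induction l with
  | nil => simp [toNum]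
  | cons a l ih =>
    have ha : a < b := hl a (by simp)
    have := ih (fun c hc => hl c (by simp [hc]))
    unfold toNum at this ⊢
    rw [List.map_cons, List.sum_cons, this]
    have h1 : ∀ j ∈ range b, (a :: l).count j * B ^ j =
        l.count j * B ^ j + if j = a then B ^ a else 0 := by
      intro j _
      rw [List.count_cons]
      by_cases h : a = j
      · subst h; simp; ring
      · have h' : ¬ j = a := fun hh => h hh.symm
        simp [h, h']
    rw [sum_congr rfl h1, sum_add_distrib, sum_ite_eq' (range b) a, if_pos (mem_range.mpr ha)]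
    ring

theorem perm_of_toNum (B b : ℕ) (l l' : List ℕ) (hl : ∀ c ∈ l, c < b) (hl' : ∀ c ∈ l', c < b)
    (h1 : l.length < B) (h2 : l'.length < B) (h : toNum B l = toNum B l') : l.Perm l' := by
  rw [List.perm_iff_count]
  intro c
  by_cases hcb : c < b
  · rw [toNum_eq B b l hl, toNum_eq B b l' hl'] at h
    exact digits_unique B b (fun j => l.count j) (fun j => l'.count j)
      (fun j => lt_of_le_of_lt List.count_le_length h1)
      (fun j => lt_of_le_of_lt List.count_le_length h2) h c hcb
  · rw [List.count_eq_zero_of_not_mem (fun hm => hcb (hl c hm)),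
      List.count_eq_zero_of_not_mem (fun hm => hcb (hl' c hm))]

/-- The number with the coefficients of the rank generating polynomial as digits. -/
def poly (B : ℕ) : List (ℕ × ℕ) → List ℕ → ℕ
  | [], _ => 1
  | e :: es, lab =>
    if lab.getD e.1 0 = lab.getD e.2 0 then (1 + B ^ 16) * poly B es lab
    else poly B es lab +
      B ^ 17 * poly B es (lab.map fun x => if x = lab.getD e.1 0 then lab.getD e.2 0 else x)

theorem toNum_append (B : ℕ) (l l' : List ℕ) : toNum B (l ++ l') = toNum B l + toNum B l' := by
  simp [toNum]

theorem toNum_codes (B : ℕ) : ∀ (es : List (ℕ × ℕ)) (lab : List ℕ) (c : ℕ),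
    toNum B (codes es lab c) = B ^ c * poly B es lab := by
  intro es
  induction es with
  | nil => intro lab c; simp [codes, poly, toNum]
  | cons e es ih =>
    intro lab c
    rw [codes, poly, toNum_append, ih]
    split_ifs with h
    · rw [ih]; ring
    · rw [ih]; ring

theorem codes_le : ∀ (es : List (ℕ × ℕ)) (lab : List ℕ) (c : ℕ),
    ∀ d ∈ codes es lab c, d < c + 17 * es.length + 1 := by
  intro es
  induction es with
  | nil => intro lab c d hd; simp [codes] at hd; omega
  | cons e es ih =>
    intro lab c d hd
    rw [codes, List.mem_append] at hd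
    rw [List.length_cons]
    rcases hd with hd | hd
    · have := ih _ _ _ hd; omega
    · split_ifs at hd
      · have := ih _ _ _ hd; omega
      · have := ih _ _ _ hd; omega

theorem codes_length : ∀ (es : List (ℕ × ℕ)) (lab : List ℕ) (c : ℕ),
    (codes es lab c).length = 2 ^ es.length := by
  intro es
  induction es with
  | nil => intro lab c; simp [codes]
  | cons e es ih =>
    intro lab c
    rw [codes, List.length_append, ih, List.length_cons]
    split_ifs
    · rw [ih]; ring
    · rw [ih]; ring

/-- Equality of Tutte polynomials from a numerical computation. -/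
theorem tutte_eq_of_poly {n m : ℕ} (hn : n ≤ 15) (hm : m ≤ 15) (G H : Fin m → Fin n × Fin n)
    (h : poly 65536 ((List.finRange m).map fun e => ((G e).1.1, (G e).2.1)) (List.range n) =
      poly 65536 ((List.finRange m).map fun e => ((H e).1.1, (H e).2.1)) (List.range n)) :
    tutte G = tutte H := by
  apply tutte_eq hn
  unfold allCodes
  have hlen : ∀ K : Fin m → Fin n × Fin n,
      ((List.finRange m).map fun e => ((K e).1.1, (K e).2.1)).length = m := by
    intro K; simp
  have hpow : 2 ^ m < 65536 := lt_of_le_of_lt (Nat.pow_le_pow_right (by norm_num) hm) (by norm_num)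
  refine perm_of_toNum 65536 (0 + 17 * m + 1) _ _ ?_ ?_ ?_ ?_ ?_
  · intro c hc
    have := codes_le _ _ _ _ hc
    rwa [hlen G] at this
  · intro c hc
    have := codes_le _ _ _ _ hc
    rwa [hlen H] at this
  · rw [codes_length, hlen G]; exact hpow
  · rw [codes_length, hlen H]; exact hpow
  · rw [toNum_codes, toNum_codes, h]

end Pool.Agent.R29
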